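import Pool.Agent.Lib.MP_ca0fc2_an.SP.S34
import Pool.Agent.Lib.MP_ca0fc2_an.LD.P3

/-!
# The corona problem is local over the functions which are tame off complex lines
-/

set_option autoImplicit false

open Metric Set Filter Topology MeasureTheory
open scoped InnerProductSpace
open Pool.Agent.Lib.MP_ca0fc2_an

namespace Pool.Agent.Results.MP_ca0fc2_an.AlongSubspaces

/-- corona data on `D` -/
def IsData {n N : ℕ} (D : Set (EuclideanSpace ℂ (Fin n)))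
    (f : Fin N → EuclideanSpace ℂ (Fin n) → ℂ) : Prop :=
  (∀ j, IsHinf D (f j)) ∧ ∃ δ > 0, ∀ z ∈ D, δ ≤ ∑ j, ‖f j z‖ ^ 2

/-- the data have bounded holomorphic solutions on `D` -/
def Solvable {n N : ℕ} (D : Set (EuclideanSpace ℂ (Fin n)))
    (f : Fin N → EuclideanSpace ℂ (Fin n) → ℂ) : Prop :=
  ∃ h : Fin N → EuclideanSpace ℂ (Fin n) → ℂ, (∀ j, IsHinf D (h j)) ∧
    ∀ z ∈ D, ∑ j, f j z * h j z = 1

/-- Q1 for `N` functions on all strictly pseudoconvex domains in `ℂᵐ`, `2 ≤ m ≤ k` -/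
def Q1Upto (N k : ℕ) : Prop :=
  ∀ m, 2 ≤ m → m ≤ k → ∀ D : Set (EuclideanSpace ℂ (Fin m)), IsStrictlyPscDomain D →
    ∀ f : Fin N → EuclideanSpace ℂ (Fin m) → ℂ, IsData D f → Solvable D f

/-- the square of the hyperbolic cosine of the hyperbolic distance of `z` and `w` -/
noncomputable def ch {n : ℕ} (z w : EuclideanSpace ℂ (Fin n)) : ℝ :=
  ‖1 - ⟪z, w⟫_ℂ‖ ^ 2 / ((1 - ‖z‖ ^ 2) * (1 - ‖w‖ ^ 2))

/-- the square of the length of the invariant gradient -/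
noncomputable def invGrad {n : ℕ} (u : EuclideanSpace ℂ (Fin n) → ℂ)
    (z : EuclideanSpace ℂ (Fin n)) : ℝ :=
  (1 - ‖z‖ ^ 2) * (‖fderiv ℂ u z‖ ^ 2 - ‖fderiv ℂ u z z‖ ^ 2)

/-- The bounded holomorphic functions on the ball whose invariant gradient is summable in the distance
to `M`: it is at most `W j` at the points `z` with `ch z w ≥ 2 ^ j` for all points `w` of `M` in the
ball, and `∑ W j` converges. -/
def Calm {n : ℕ} (M : Set (EuclideanSpace ℂ (Fin n))) :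
    Set (EuclideanSpace ℂ (Fin n) → ℂ) :=
  {u | IsHinf (ball 0 1) u ∧ ∃ W : ℕ → ℝ, Summable W ∧
    ∀ (j : ℕ), ∀ z ∈ ball (0 : EuclideanSpace ℂ (Fin n)) 1,
      (∀ w ∈ M, ‖w‖ < 1 → 2 ^ j ≤ ch z w) → Real.sqrt (invGrad u z) ≤ W j}

/-- the uniform closure of `𝓐` in `H^∞` of the ball -/
def Cl {n : ℕ} (𝓐 : Set (EuclideanSpace ℂ (Fin n) → ℂ)) :
    Set (EuclideanSpace ℂ (Fin n) → ℂ) :=
  {u | IsHinf (ball 0 1) u ∧ ∀ ε > 0, ∃ v ∈ 𝓐,
    ∀ z ∈ ball (0 : EuclideanSpace ℂ (Fin n)) 1, ‖u z - v z‖ ≤ ε}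

/-- the closed algebra generated by `𝓐` -/
def Alg {n : ℕ} (𝓐 : Set (EuclideanSpace ℂ (Fin n) → ℂ)) :
    Set (EuclideanSpace ℂ (Fin n) → ℂ) :=
  Cl (Algebra.adjoin ℂ 𝓐 : Set (EuclideanSpace ℂ (Fin n) → ℂ))

/-- `S` is a complex affine subspace of dimension `d` which meets the unit ball -/
def IsPlane {n : ℕ} (d : ℕ) (S : Set (EuclideanSpace ℂ (Fin n))) : Prop :=
  ∃ (V : Submodule ℂ (EuclideanSpace ℂ (Fin n))) (a : EuclideanSpace ℂ (Fin n)),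
    Module.finrank ℂ V = d ∧ ‖a‖ < 1 ∧ S = {z | z - a ∈ V}

/-- all complex lines which meet the ball -/
def Lines (n : ℕ) : Set (Set (EuclideanSpace ℂ (Fin n))) := {L | IsPlane 1 L}

/-- `𝓕` is a set of complex affine subspaces which meet the ball, of dimension at most `k`; if two of
them have a common point on the sphere, then both have dimension at most one. -/
structure Family {n : ℕ} (k : ℕ) (𝓕 : Set (Set (EuclideanSpace ℂ (Fin n)))) : Prop where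
  plane : ∀ S ∈ 𝓕, ∃ d ≤ k, IsPlane d S
  apart : ∀ S ∈ 𝓕, ∀ T ∈ 𝓕, S ≠ T → (∃ p ∈ S ∩ T, ‖p‖ = 1) →
    (∃ d ≤ 1, IsPlane d S) ∧ ∃ d ≤ 1, IsPlane d T

/-- the union of the classes `A_S`, `S ∈ 𝓕`; `A_S` is the uniform closure of the set of the functions
whose invariant gradient is summable in the distance to `S` -/
def ClassOf {n : ℕ} (𝓕 : Set (Set (EuclideanSpace ℂ (Fin n)))) :
    Set (EuclideanSpace ℂ (Fin n) → ℂ) :=
  {u | ∃ S ∈ 𝓕, u ∈ Cl (Calm S)}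

/-- the corona theorem for `N` arbitrary functions such that for all `j ≠ k` one of `f_j`, `f_k`,
`f_j f_k` is in `𝓐` (for instance all the functions but one are in `𝓐`, or all the functions but two,
and their product is in `𝓐`) -/
def PairFree {n : ℕ} (N : ℕ) (𝓐 : Set (EuclideanSpace ℂ (Fin n) → ℂ)) : Prop :=
  ∀ f : Fin N → EuclideanSpace ℂ (Fin n) → ℂ, IsData (ball 0 1) f →
    (∀ j k, j ≠ k → f j ∈ 𝓐 ∨ f k ∈ 𝓐 ∨ (fun z => f j z * f k z) ∈ 𝓐) → Solvable (ball 0 1) f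

/-- the corona theorem for `N` functions in `𝓐` -/
def Corona {n : ℕ} (N : ℕ) (𝓐 : Set (EuclideanSpace ℂ (Fin n) → ℂ)) : Prop :=
  ∀ f : Fin N → EuclideanSpace ℂ (Fin n) → ℂ, IsData (ball 0 1) f →
    (∀ j, f j ∈ 𝓐) → Solvable (ball 0 1) f

/-- all the functions `g ∘ p`, `g` in `H^∞` of the unit disc -/
def Comp {n : ℕ} (p : EuclideanSpace ℂ (Fin n) → ℂ) : Set (EuclideanSpace ℂ (Fin n) → ℂ) :=
  {u | ∃ g : ℂ → ℂ, DifferentiableOn ℂ g (ball 0 1) ∧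
    (∃ M : ℝ, ∀ x ∈ ball (0 : ℂ) 1, ‖g x‖ ≤ M) ∧ ∀ z, u z = g (p z)}

/-- the cell of the functions `u i` with centre `c` -/
def Cell {n m : ℕ} (u : Fin m → EuclideanSpace ℂ (Fin n) → ℂ) (c : Fin m → ℂ) (ε : ℝ) :
    Set (EuclideanSpace ℂ (Fin n)) :=
  {z | z ∈ ball 0 1 ∧ ∀ i, ‖u i z - c i‖ < ε}

/-- There are finitely many functions `u i` in `𝓐` and `ε > 0` such that the functions `f j` have bounded
holomorphic solutions on each cell of the `u i`. -/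
def Locally {n N : ℕ} (𝓐 : Set (EuclideanSpace ℂ (Fin n) → ℂ))
    (f : Fin N → EuclideanSpace ℂ (Fin n) → ℂ) : Prop :=
  ∃ (m : ℕ) (u : Fin m → EuclideanSpace ℂ (Fin n) → ℂ) (ε : ℝ), (∀ i, u i ∈ 𝓐) ∧ 0 < ε ∧
    ∀ c : Fin m → ℂ, Solvable (Cell u c ε) f

/-- the corona problem for `N` functions is local over `𝓐` -/
def IsLocal {n : ℕ} (N : ℕ) (𝓐 : Set (EuclideanSpace ℂ (Fin n) → ℂ)) : Prop :=
  ∀ f : Fin N → EuclideanSpace ℂ (Fin n) → ℂ, (∀ j, IsHinf (ball 0 1) (f j)) →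
    (Locally 𝓐 f ↔ Solvable (ball 0 1) f)

/-- the points of the ball at a distance less than `R` from `S`; the distance of `z` and `w` is measured
by `ch z w` -/
def Tube {n : ℕ} (R : ℝ) (S : Set (EuclideanSpace ℂ (Fin n))) : Set (EuclideanSpace ℂ (Fin n)) :=
  {z | ∃ w ∈ S, ‖w‖ < 1 ∧ ch z w < R}

/-- The corona theorem for `N` functions, any number of them arbitrary, if those with `j ∈ J` are in `𝓐`
and satisfy the corona condition off the tubes around finitely many members `S` of `𝓕`. -/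
def OffTubes {n : ℕ} (N : ℕ) (𝓐 : Set (EuclideanSpace ℂ (Fin n) → ℂ))
    (𝓕 : Set (Set (EuclideanSpace ℂ (Fin n)))) : Prop :=
  ∀ f : Fin N → EuclideanSpace ℂ (Fin n) → ℂ, IsData (ball 0 1) f →
    ∀ (J : Finset (Fin N)) (𝓣 : Set (Set (EuclideanSpace ℂ (Fin n)))) (R : ℝ),
      (∀ j ∈ J, f j ∈ 𝓐) → 𝓣 ⊆ 𝓕 → 𝓣.Finite →
      (∃ δ > 0, ∀ z ∈ ball (0 : EuclideanSpace ℂ (Fin n)) 1, (∀ S ∈ 𝓣, z ∉ Tube R S) →
        δ ≤ ∑ j ∈ J, ‖f j z‖ ^ 2) →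
      Solvable (ball 0 1) f

/-- `u = ∑ c_a(z_i) z'^a` (finite sum) on the ball, with holomorphic functions `c_a` on the unit disc,
where `z_j = ⟪e j, z⟫` are the coordinates with respect to the orthonormal basis `e`, and `z'` stands for
all of them except `z_i` -/
def Sums {n : ℕ} (e : OrthonormalBasis (Fin n) ℂ (EuclideanSpace ℂ (Fin n))) (i : Fin n)
    (u : EuclideanSpace ℂ (Fin n) → ℂ) : Prop :=
  ∃ (T : Finset (Fin n → ℕ)) (c : (Fin n → ℕ) → ℂ → ℂ),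
    (∀ a ∈ T, DifferentiableOn ℂ (c a) (ball 0 1)) ∧
    ∀ z ∈ ball (0 : EuclideanSpace ℂ (Fin n)) 1,
      u z = ∑ a ∈ T, c a ⟪e i, z⟫_ℂ * ∏ j ∈ Finset.univ.erase i, ⟪e j, z⟫_ℂ ^ a j

/-! ### Translation -/

variable {n : ℕ}

/-- The bounded holomorphic functions `u` on the ball for which `u (P z + r (z - P z))` converges to
`u z`, uniformly on the ball, as `r → 1`; `P` is the orthogonal projection onto the complex subspace
`S`. -/
def Along {n : ℕ} (S : Submodule ℂ (EuclideanSpace ℂ (Fin n))) :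
    Set (EuclideanSpace ℂ (Fin n) → ℂ) :=
  {u | IsHinf (ball 0 1) u ∧ ∀ ε > 0, ∃ r₀ < 1, ∀ r : ℝ, r₀ ≤ r → r < 1 →
    ∀ z ∈ ball (0 : EuclideanSpace ℂ (Fin n)) 1,
      ‖u z - u (S.starProjection z + (r : ℂ) • (z - S.starProjection z))‖ ≤ ε}

theorem along_iff {S : Submodule ℂ (EuclideanSpace ℂ (Fin n))}
    {u : EuclideanSpace ℂ (Fin n) → ℂ} :
    u ∈ Along S ↔ Pool.Agent.MPca0fc2.SP.AS S.starProjection u := by
  constructor
  · rintro ⟨⟨h1, h2⟩, h3⟩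
    exact ⟨h1, h2, h3⟩
  · rintro ⟨h1, h2, h3⟩
    exact ⟨⟨h1, h2⟩, h3⟩

theorem ch_iff {z w : EuclideanSpace ℂ (Fin n)} (hz : ‖z‖ < 1) (hw : ‖w‖ < 1) (j : ℕ) :
    2 ^ j ≤ ch z w ↔ 2 ^ j * Pool.Agent.MPca0fc2.PT.HH w z ≤ 1 := by
  have h1 : 0 < 1 - ‖z‖ ^ 2 := by nlinarith [norm_nonneg z]
  have h2 : 0 < 1 - ‖w‖ ^ 2 := by nlinarith [norm_nonneg w]
  have h3 : ‖1 - ⟪z, w⟫_ℂ‖ = ‖1 - ⟪w, z⟫_ℂ‖ := by
    rw [← Complex.norm_conj, map_sub, map_one, inner_conj_symm]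
  have h4 : 0 < ‖1 - ⟪w, z⟫_ℂ‖ := by
    have e1 : ‖⟪w, z⟫_ℂ‖ ≤ ‖w‖ * ‖z‖ := norm_inner_le_norm _ _
    have e2 := norm_sub_norm_le (1 : ℂ) ⟪w, z⟫_ℂ
    rw [norm_one] at e2
    nlinarith [norm_nonneg w, norm_nonneg z]
  unfold ch Pool.Agent.MPca0fc2.PT.HH
  rw [h3, le_div_iff₀ (by positivity), ← mul_div_assoc, div_le_one (by positivity)]
  rw [mul_comm (1 - ‖z‖ ^ 2)]

theorem ch_lt {z w : EuclideanSpace ℂ (Fin n)} (hz : ‖z‖ < 1) (hw : ‖w‖ < 1) {R c : ℝ}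
    (hcR : R * c ≤ 1) (h : ch z w < R) : c < Pool.Agent.MPca0fc2.PT.HH w z := by
  have h1 : 0 < 1 - ‖z‖ ^ 2 := by nlinarith [norm_nonneg z]
  have h2 : 0 < 1 - ‖w‖ ^ 2 := by nlinarith [norm_nonneg w]
  have h3 : ‖1 - ⟪z, w⟫_ℂ‖ = ‖1 - ⟪w, z⟫_ℂ‖ := by
    rw [← Complex.norm_conj, map_sub, map_one, inner_conj_symm]
  have h4 : 0 < ‖1 - ⟪w, z⟫_ℂ‖ := by
    have e1 : ‖⟪w, z⟫_ℂ‖ ≤ ‖w‖ * ‖z‖ := norm_inner_le_norm _ _
    have e2 := norm_sub_norm_le (1 : ℂ) ⟪w, z⟫_ℂ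
    rw [norm_one] at e2
    nlinarith [norm_nonneg w, norm_nonneg z]
  have h5 : ch z w * Pool.Agent.MPca0fc2.PT.HH w z = 1 := by
    unfold ch Pool.Agent.MPca0fc2.PT.HH
    rw [h3]
    field_simp
  have h6 : 0 < Pool.Agent.MPca0fc2.PT.HH w z := Pool.Agent.MPca0fc2.PT.HH_pos hw hz
  have h7 : 1 < R * Pool.Agent.MPca0fc2.PT.HH w z := by
    rw [← h5]
    exact mul_lt_mul_of_pos_right h h6
  have h8 : 0 < R := by
    by_contra h0
    have := mul_nonneg (neg_nonneg.2 (not_lt.1 h0)) h6.le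
    linarith
  exact lt_of_mul_lt_mul_left (hcR.trans_lt h7) h8.le

theorem summable_iff {M : Set (EuclideanSpace ℂ (Fin n))}
    {u : EuclideanSpace ℂ (Fin n) → ℂ} :
    u ∈ Calm M ↔ Pool.Agent.MPca0fc2.PV.Calm 1 M u := by
  constructor
  · rintro ⟨⟨h1, h2⟩, W, hW, h3⟩
    refine ⟨h1, h2, W, hW, fun j z hz hj => ?_⟩
    rw [← Real.sqrt_eq_rpow]
    exact h3 j z hz fun w hw hw1 => (ch_iff (mem_ball_zero_iff.1 hz) hw1 j).2 (hj w hw hw1)
  · rintro ⟨h1, h2, W, hW, h3⟩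
    refine ⟨⟨h1, h2⟩, W, hW, fun j z hz hj => ?_⟩
    have h4 := h3 j z hz fun w hw hw1 => (ch_iff (mem_ball_zero_iff.1 hz) hw1 j).1 (hj w hw hw1)
    rw [← Real.sqrt_eq_rpow] at h4
    exact h4

theorem closure_iff {M : Set (EuclideanSpace ℂ (Fin n))}
    {u : EuclideanSpace ℂ (Fin n) → ℂ} :
    u ∈ Cl (Calm M) ↔ Pool.Agent.MPca0fc2.SP.CalmCl M u := by
  constructor
  · rintro ⟨⟨h1, h2⟩, h3⟩
    refine ⟨h1, h2, fun ε hε => ?_⟩
    obtain ⟨v, hv, h4⟩ := h3 ε hε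
    exact ⟨v, summable_iff.1 hv, h4⟩
  · rintro ⟨h1, h2, h3⟩
    refine ⟨⟨h1, h2⟩, fun ε hε => ?_⟩
    obtain ⟨v, hv, h4⟩ := h3 ε hε
    exact ⟨v, summable_iff.2 hv, h4⟩

/-- the affine subspaces of a family of sets -/
def aff (𝓕 : Set (Set (EuclideanSpace ℂ (Fin n)))) :
    Set (AffineSubspace ℂ (EuclideanSpace ℂ (Fin n))) :=
  {S | (S : Set (EuclideanSpace ℂ (Fin n))) ∈ 𝓕}

theorem plane_iff {d : ℕ} {S : Set (EuclideanSpace ℂ (Fin n))} : IsPlane d S ↔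
    ∃ S' : AffineSubspace ℂ (EuclideanSpace ℂ (Fin n)), S = S' ∧
      Module.finrank ℂ S'.direction = d ∧ ∃ x ∈ S', ‖x‖ < 1 := by
  constructor
  · rintro ⟨V, a, hV, ha, rfl⟩
    refine ⟨AffineSubspace.mk' a V, ?_, ?_, a, AffineSubspace.self_mem_mk' a V, ha⟩
    · ext z
      rw [SetLike.mem_coe, AffineSubspace.mem_mk', vsub_eq_sub]
      rfl
    · rw [AffineSubspace.direction_mk']
      exact hV
  · rintro ⟨S', rfl, hd, a, ha, ha1⟩
    refine ⟨S'.direction, a, hd, ha1, ?_⟩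
    ext z
    rw [SetLike.mem_coe, Set.mem_ofPred_eq, ← vsub_eq_sub]
    exact (AffineSubspace.vsub_right_mem_direction_iff_mem ha z).symm

theorem dim_eq {d : ℕ} {S : AffineSubspace ℂ (EuclideanSpace ℂ (Fin n))}
    (h : IsPlane d (S : Set (EuclideanSpace ℂ (Fin n)))) :
    Module.finrank ℂ S.direction = d ∧ ∃ x ∈ S, ‖x‖ < 1 := by
  obtain ⟨S', h1, h2, h3⟩ := plane_iff.1 h
  have h4 : S = S' := SetLike.coe_injective h1
  rw [h4]
  exact ⟨h2, h3⟩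

theorem class_eq {𝓕 : Set (Set (EuclideanSpace ℂ (Fin n)))}
    (h : ∀ S ∈ 𝓕, ∃ d, IsPlane d S) :
    ClassOf 𝓕 = Pool.Agent.MPca0fc2.SP.Gen (aff 𝓕) := by
  ext u
  constructor
  · rintro ⟨S, hS, hu⟩
    obtain ⟨d, hd⟩ := h S hS
    obtain ⟨S', rfl, -⟩ := plane_iff.1 hd
    exact ⟨S', hS, closure_iff.1 hu⟩
  · rintro ⟨S, hS, hu⟩
    exact ⟨S, hS, closure_iff.2 hu⟩

theorem class_eq' {k : ℕ} {𝓕 : Set (Set (EuclideanSpace ℂ (Fin n)))} (h : Family k 𝓕) :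
    ClassOf 𝓕 = Pool.Agent.MPca0fc2.SP.Gen (aff 𝓕) :=
  class_eq fun S hS => (h.plane S hS).imp fun _ hd => hd.2

theorem family_iff {k : ℕ} {𝓕 : Set (Set (EuclideanSpace ℂ (Fin n)))}
    (h : Family k 𝓕) : Pool.Agent.MPca0fc2.SP.Fam k (aff 𝓕) := by
  refine ⟨fun S hS => ?_, fun S hS => ?_, fun S hS T hT hST p hp h1 h2 => ?_⟩
  · obtain ⟨d, -, hd⟩ := h.plane _ hS
    exact (dim_eq hd).2
  · obtain ⟨d, hk, hd⟩ := h.plane _ hS
    rw [(dim_eq hd).1]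
    exact hk
  · obtain ⟨⟨d, hk, hd⟩, -⟩ := h.apart _ hS _ hT (fun h0 => hST (SetLike.coe_injective h0))
      ⟨p, ⟨h1, h2⟩, hp⟩
    rw [(dim_eq hd).1]
    exact hk

theorem q1_iff {N k : ℕ} : Q1Upto N k ↔ ∀ m, 2 ≤ m → m ≤ k →
    ∀ D : Set (EuclideanSpace ℂ (Fin m)), IsStrictlyPscDomain D →
      Pool.Agent.MPca0fc2AD.Q1On N D := by
  constructor
  · intro hQ m hm hmn D hD f hf hδ
    exact hQ m hm hmn D hD f ⟨hf, hδ⟩
  · intro hQ m hm hmn D hD f hf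
    exact hQ m hm hmn D hD f hf.1 hf.2

/-- the ball -/
theorem q1_ball {N : ℕ} (hn : 2 ≤ n) (hN : 1 ≤ N) :
    Q1Upto N n ↔ Pool.Agent.MPca0fc2AD.Q1On N (ball (0 : EuclideanSpace ℂ (Fin n)) 1) := by
  rw [q1_iff]
  exact (Pool.Agent.MPca0fc2AD.result (n := n) (N := N) hn hN).out 0 2

/-! ### The positive results -/

/-- the lines -/
theorem lines_family : Family 1 (Lines n) :=
  ⟨fun _ hS => ⟨1, le_rfl, hS⟩, fun _ hS _ hT _ _ => ⟨⟨1, le_rfl, hS⟩, 1, le_rfl, hT⟩⟩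

theorem q1_one (N : ℕ) : Q1Upto N 1 := fun m hm hm1 => absurd hm (by omega)

theorem family_aff {k : ℕ} {𝓕 𝓣 : Set (Set (EuclideanSpace ℂ (Fin n)))}
    (h : ∀ S ∈ 𝓕, ∃ d ≤ k, IsPlane d S) (h𝓣 : 𝓣.Finite) :
    (aff 𝓣).Finite ∧ (𝓣 ⊆ 𝓕 → aff 𝓣 ⊆ aff 𝓕 ∧ ∀ S ∈ 𝓣, ∃ S' ∈ aff 𝓣, S = S') := by
  refine ⟨h𝓣.preimage SetLike.coe_injective.injOn, fun h𝓣𝓕 => ⟨fun S hS => h𝓣𝓕 hS, fun S hS => ?_⟩⟩
  obtain ⟨d, -, hd⟩ := h S (h𝓣𝓕 hS)
  obtain ⟨S', rfl, -⟩ := plane_iff.1 hd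
  exact ⟨S', hS, rfl⟩

open Classical in
/-- the functions with `j ∈ J` -/
noncomputable def part {N : ℕ} (J : Finset (Fin N)) (f : Fin N → EuclideanSpace ℂ (Fin n) → ℂ) :
    Fin N → EuclideanSpace ℂ (Fin n) → ℂ := fun j => if j ∈ J then f j else fun _ => 0

theorem part_eq {N : ℕ} (J : Finset (Fin N)) (f : Fin N → EuclideanSpace ℂ (Fin n) → ℂ)
    (j : Fin N) : part J f j = f j ∨ part J f j = fun _ => 0 := by
  unfold part
  by_cases hj : j ∈ J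
  · exact Or.inl (if_pos hj)
  · exact Or.inr (if_neg hj)

theorem part_sum {N : ℕ} (J : Finset (Fin N)) (f : Fin N → EuclideanSpace ℂ (Fin n) → ℂ)
    (z : EuclideanSpace ℂ (Fin n)) : ∑ j, ‖part J f j z‖ ^ 2 = ∑ j ∈ J, ‖f j z‖ ^ 2 := by
  classical
  rw [← Finset.sum_subset (Finset.subset_univ J) fun j _ hj => by
    unfold part
    rw [if_neg hj]
    simp]
  refine Finset.sum_congr rfl fun j hj => ?_
  unfold part
  rw [if_pos hj]

theorem part_approx {N : ℕ} {J : Finset (Fin N)} {f : Fin N → EuclideanSpace ℂ (Fin n) → ℂ}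
    {𝓐 : Set (EuclideanSpace ℂ (Fin n) → ℂ)} (h : ∀ j ∈ J, f j ∈ Alg 𝓐) (j : Fin N) :
    ∀ ε > 0, ∃ v ∈ Algebra.adjoin ℂ 𝓐,
      ∀ z ∈ ball (0 : EuclideanSpace ℂ (Fin n)) 1, ‖part J f j z - v z‖ ≤ ε := by
  intro ε hε
  unfold part
  by_cases hj : j ∈ J
  · rw [if_pos hj]
    exact (h j hj).2 ε hε
  · rw [if_neg hj]
    exact ⟨0, zero_mem _, fun z _ => by simpa using hε.le⟩

/-- the radius -/
theorem tube_iff {R : ℝ} {S : Set (EuclideanSpace ℂ (Fin n))} {z : EuclideanSpace ℂ (Fin n)}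
    (hz : ‖z‖ < 1) (h : ¬ Pool.Agent.MPca0fc2.SP.Tub (1 / max R 2) S z) : z ∉ Tube R S := by
  rintro ⟨w, hw, hw1, h1⟩
  refine h ⟨w, hw, hw1, ch_lt hz hw1 ?_ h1⟩
  have h2 : 0 < max R 2 := lt_of_lt_of_le two_pos (le_max_right _ _)
  rw [mul_one_div, div_le_one h2]
  exact le_max_left _ _

theorem radius (R : ℝ) : 0 < 1 / max R 2 ∧ 1 / max R 2 < 1 := by
  have h2 : 2 ≤ max R 2 := le_max_right _ _
  refine ⟨by positivity, ?_⟩
  rw [div_lt_one (by linarith)]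
  linarith

/-- complex lines -/
theorem tubes_lines (hn : 2 ≤ n) {N : ℕ} {p : EuclideanSpace ℂ (Fin n) → ℂ}
    (hp : DifferentiableOn ℂ p (ball 0 1))
    (hp1 : ∀ z ∈ ball (0 : EuclideanSpace ℂ (Fin n)) 1, ‖p z‖ < 1) :
    OffTubes N (Alg (ClassOf (Lines n) ∪ Comp p)) (Lines n) := by
  rintro f ⟨hf, δ, hδ, hfδ⟩ J 𝓣 R hJ h𝓣 h𝓣f ⟨δ', hδ', hJδ⟩
  rw [class_eq' lines_family] at hJ
  obtain ⟨h1, h2⟩ := family_aff lines_family.plane h𝓣f
  obtain ⟨h3, h4⟩ := h2 h𝓣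
  obtain ⟨C, h, h5, h6, h7⟩ := Pool.Agent.MPca0fc2.SP.tubes_map hn
    (fun S hS => ⟨(dim_eq hS).1.le, (dim_eq hS).2⟩) hp hp1 hf hδ hfδ h1 h3 (radius R).1
    (radius R).2 (part_eq J f) (part_approx hJ) hδ' fun z hz hz' => by
      rw [part_sum]
      refine hJδ z hz fun S hS => ?_
      obtain ⟨S', hS', rfl⟩ := h4 S hS
      exact tube_iff (mem_ball_zero_iff.1 hz) (hz' S' hS')
  exact ⟨h, fun j => ⟨h5 j, C, h6 j⟩, h7⟩

/-- families of subspaces -/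
theorem tubes_family (hn : 2 ≤ n) {N k : ℕ} (hN : 1 ≤ N)
    {𝓕 : Set (Set (EuclideanSpace ℂ (Fin n)))} (h𝓕 : Family k 𝓕) (hQ : Q1Upto N k) :
    OffTubes N (Alg (ClassOf 𝓕)) 𝓕 := by
  rintro f ⟨hf, δ, hδ, hfδ⟩ J 𝓣 R hJ h𝓣 h𝓣f ⟨δ', hδ', hJδ⟩
  rw [class_eq' h𝓕] at hJ
  obtain ⟨h1, h2⟩ := family_aff h𝓕.plane h𝓣f
  obtain ⟨h3, h4⟩ := h2 h𝓣
  obtain ⟨C, h, h5, h6, h7⟩ := Pool.Agent.MPca0fc2.SP.tubes_family hn hN (family_iff h𝓕)
    (q1_iff.1 hQ) hf hδ hfδ h1 h3 (radius R).1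
    (radius R).2 (part_eq J f) (part_approx hJ) hδ' fun z hz hz' => by
      rw [part_sum]
      refine hJδ z hz fun S hS => ?_
      obtain ⟨S', hS', rfl⟩ := h4 S hS
      exact tube_iff (mem_ball_zero_iff.1 hz) (hz' S' hS')
  exact ⟨h, fun j => ⟨h5 j, C, h6 j⟩, h7⟩

theorem corona_of_tubes {N : ℕ} {𝓐 : Set (EuclideanSpace ℂ (Fin n) → ℂ)}
    {𝓕 : Set (Set (EuclideanSpace ℂ (Fin n)))} (h : OffTubes N 𝓐 𝓕) : Corona N 𝓐 :=
  fun f hf hi => h f hf Finset.univ ∅ 0 (fun j _ => hi j) (empty_subset _) finite_empty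
    (hf.2.imp fun _ hδ => ⟨hδ.1, fun z hz _ => hδ.2 z hz⟩)

/-! ### Localization -/

theorem solvableOn_iff {N : ℕ} {D : Set (EuclideanSpace ℂ (Fin n))}
    {f : Fin N → EuclideanSpace ℂ (Fin n) → ℂ} : Solvable D f ↔ ∃ C, SolvableOn f D C := by
  constructor
  · rintro ⟨h, h1, h2⟩
    choose hd C hC using h1
    exact ⟨∑ j, |C j|, h, hd, fun j z hz => (hC j z hz).trans ((le_abs_self _).trans
      (Finset.single_le_sum (f := fun j => |C j|) (fun _ _ => abs_nonneg _)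
        (Finset.mem_univ j))), h2⟩
  · rintro ⟨C, h, h1, h2, h3⟩
    exact ⟨h, fun j => ⟨h1 j, C, h2 j⟩, h3⟩

theorem locally_of_solvable {N : ℕ} {𝓐 : Set (EuclideanSpace ℂ (Fin n) → ℂ)}
    {f : Fin N → EuclideanSpace ℂ (Fin n) → ℂ} (h : Solvable (ball 0 1) f) :
    Locally 𝓐 f := by
  refine ⟨0, fun i => i.elim0, 1, fun i => i.elim0, one_pos, fun c => ?_⟩
  have e : Cell (fun i : Fin 0 => (i.elim0 : EuclideanSpace ℂ (Fin n) → ℂ)) c 1 = ball 0 1 := by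
    ext z
    exact ⟨fun hz => hz.1, fun hz => ⟨hz, fun i => i.elim0⟩⟩
  rw [e]
  exact h

theorem local_of_locOn {N : ℕ} {𝓐 : Set (EuclideanSpace ℂ (Fin n) → ℂ)}
    (hA : Pool.Agent.MPca0fc2.CXS.LocOn (ball (0 : EuclideanSpace ℂ (Fin n)) 1) 𝓐)
    (hAH : ∀ u ∈ 𝓐, IsHinf (ball 0 1) u) : IsLocal N 𝓐 := by
  refine fun f hf => ⟨?_, locally_of_solvable⟩
  rintro ⟨m, u, ε, hu, hε, H⟩
  rw [solvableOn_iff]
  exact Pool.Agent.MPca0fc2.SP.cells_of_locOn hA hAH hf hu hε fun c => solvableOn_iff.1 (H c)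

theorem pair_of_local {N : ℕ} {𝓐 : Set (EuclideanSpace ℂ (Fin n) → ℂ)} (h : IsLocal N 𝓐)
    (h0 : (fun _ => 0) ∈ 𝓐) : PairFree N 𝓐 := by
  classical
  rintro f ⟨hf, δ, hδ, hfδ⟩ H
  obtain ⟨m, P, k, hP, hPA⟩ := Pool.Agent.MPca0fc2.LP.pair_polys h0 H
  obtain ⟨ε, hε, hcell⟩ := Pool.Agent.MPca0fc2.LP.poly_cells hf hδ hfδ (k := k) hP
  refine (h f hf).1 ⟨m, fun i z => if i = k then 0 else MvPolynomial.eval (fun j => f j z) (P i),
    ε, fun i => ?_, hε, fun c => hcell c _ (fun z hz => hz.1) fun z hz i hi => ?_⟩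
  · by_cases hi : i = k
    · simp only [hi, if_true]
      exact h0
    · simp only [hi, if_false]
      exact hPA i hi
  · have h1 := hz.2 i
    simpa only [hi, if_false] using h1

theorem locOn_lines (hn : 2 ≤ n) :
    Pool.Agent.MPca0fc2.CXS.LocOn (ball (0 : EuclideanSpace ℂ (Fin n)) 1)
      (Alg (ClassOf (Lines n))) := by
  rw [class_eq' lines_family]
  exact Pool.Agent.MPca0fc2.SP.locOn_lines hn fun S hS => ⟨(dim_eq hS).1.le, (dim_eq hS).2⟩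

theorem zero_alg {𝓐 : Set (EuclideanSpace ℂ (Fin n) → ℂ)} : (fun _ => 0) ∈ Alg 𝓐 :=
  ⟨⟨differentiableOn_const _, 0, fun z _ => by simp⟩, fun ε hε => ⟨0, zero_mem _, fun z _ => by
    simpa using hε.le⟩⟩

/-- families of subspaces of any dimension: all data -/
theorem data_family (hn : 2 ≤ n) {N k : ℕ} {𝓕 : Set (Set (EuclideanSpace ℂ (Fin n)))}
    (h𝓕 : Family k 𝓕) {f : Fin N → EuclideanSpace ℂ (Fin n) → ℂ}
    (hf : ∀ j, IsHinf (ball 0 1) (f j)) : Solvable (ball 0 1) f ↔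
      Locally (Alg (ClassOf 𝓕)) f ∧ ∀ S ∈ 𝓕, Solvable (S ∩ ball 0 1) f := by
  constructor
  · intro h
    refine ⟨locally_of_solvable h, fun S _ => ?_⟩
    obtain ⟨g, h1, h2⟩ := h
    exact ⟨g, fun j => ⟨(h1 j).1.mono inter_subset_right, (h1 j).2.choose,
      fun z hz => (h1 j).2.choose_spec z hz.2⟩, fun z hz => h2 z hz.2⟩
  · rintro ⟨⟨m, u, ε, hu, hε, H⟩, hS⟩
    rw [class_eq' h𝓕] at hu
    rw [solvableOn_iff]
    refine Pool.Agent.MPca0fc2.SP.cells_data hn (family_iff h𝓕) hf (fun S hSS _ => ?_)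
      (F := fun _ _ => 0) (fun _ => Or.inr rfl)
      (fun _ ε hε => ⟨0, zero_mem _, fun z _ => by simpa using hε.le⟩) (fun i => (hu i).1)
      (fun i => (hu i).2) hε fun c => Or.inl (solvableOn_iff.1 (H c))
    obtain ⟨C, h, h1, h2, h3⟩ := solvableOn_iff.1 (hS _ hSS)
    exact ⟨h, C, h1, fun z hz hz1 => ⟨h3 z ⟨hz, mem_ball_zero_iff.2 hz1⟩,
      fun j => h2 j z ⟨hz, mem_ball_zero_iff.2 hz1⟩⟩⟩

theorem local_family (hn : 2 ≤ n) {N k : ℕ} {𝓕 : Set (Set (EuclideanSpace ℂ (Fin n)))}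
    (h𝓕 : Family k 𝓕) (hQ : Q1Upto N k) : IsLocal N (Alg (ClassOf 𝓕)) := by
  refine fun f hf => ⟨?_, locally_of_solvable⟩
  rintro ⟨m, u, ε, hu, hε, H⟩
  rw [class_eq' h𝓕] at hu
  rw [solvableOn_iff]
  exact Pool.Agent.MPca0fc2.SP.cells_family hn (family_iff h𝓕) (q1_iff.1 hQ) hf
    (F := fun _ _ => 0) (fun _ => Or.inr rfl)
    (fun _ ε hε => ⟨0, zero_mem _, fun z _ => by simpa using hε.le⟩) (fun i => (hu i).1)
    (fun i => (hu i).2) hε fun c => Or.inl (solvableOn_iff.1 (H c))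

/-! ### Necessity -/

theorem adjoin_subset {𝓐 : Set (EuclideanSpace ℂ (Fin n) → ℂ)}
    {u : EuclideanSpace ℂ (Fin n) → ℂ} (h : IsHinf (ball 0 1) u)
    (hu : u ∈ 𝓐) : u ∈ Alg 𝓐 :=
  ⟨h, fun ε hε => ⟨u, Algebra.subset_adjoin hu, fun z _ => by
    rw [sub_self, norm_zero]; exact hε.le⟩⟩

theorem q1_of_corona {N : ℕ} (hN : 1 ≤ N) {S : AffineSubspace ℂ (EuclideanSpace ℂ (Fin n))}
    (hS : 2 ≤ Module.finrank ℂ S.direction) {x₀ : EuclideanSpace ℂ (Fin n)} (hx₀ : x₀ ∈ S)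
    (hx1 : ‖x₀‖ < 1) {𝓐 : Set (EuclideanSpace ℂ (Fin n) → ℂ)}
    (hSA : Cl (Calm (S : Set (EuclideanSpace ℂ (Fin n)))) ⊆ 𝓐) (hC : Corona N 𝓐) :
    Q1Upto N (Module.finrank ℂ S.direction) := by
  rw [q1_ball hS hN]
  rintro F hF ⟨δ, hδ, hFδ⟩
  obtain ⟨a, ha, haS⟩ := Pool.Agent.MPca0fc2.VK.affine_aut hx₀ hx1
  have ha' : ‖-a‖ < 1 := by rwa [norm_neg]
  obtain ⟨ι⟩ : Nonempty (EuclideanSpace ℂ (Fin (Module.finrank ℂ S.direction)) ≃ₗᵢ[ℂ] S.direction) :=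
    ⟨(stdOrthonormalBasis ℂ S.direction).repr.symm⟩
  obtain ⟨J, hJ⟩ : ∃ J : EuclideanSpace ℂ (Fin (Module.finrank ℂ S.direction)) →L[ℂ]
      EuclideanSpace ℂ (Fin n), J = S.direction.subtypeL.comp (ι.toContinuousLinearEquiv :
      EuclideanSpace ℂ (Fin (Module.finrank ℂ S.direction)) →L[ℂ] S.direction) := ⟨_, rfl⟩
  have hJe : ∀ x, J x = ((ι x : S.direction) : EuclideanSpace ℂ (Fin n)) := fun x => by
    rw [hJ]; rfl
  have hJb : ∀ x ∈ ball (0 : EuclideanSpace ℂ (Fin (Module.finrank ℂ S.direction))) 1,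
      J x ∈ ball (0 : EuclideanSpace ℂ (Fin n)) 1 := by
    intro x hx
    rw [mem_ball_zero_iff] at hx ⊢
    have e : ‖J x‖ = ‖ι x‖ := by rw [hJe]; rfl
    rw [e, LinearIsometryEquiv.norm_map]
    exact hx
  obtain ⟨L, hL⟩ : ∃ L : EuclideanSpace ℂ (Fin n) →L[ℂ]
      EuclideanSpace ℂ (Fin (Module.finrank ℂ S.direction)),
      L = (ι.symm.toContinuousLinearEquiv :
        S.direction →L[ℂ] EuclideanSpace ℂ (Fin (Module.finrank ℂ S.direction))).comp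
          S.direction.orthogonalProjectionOnto := ⟨_, rfl⟩
  have hLe : ∀ z, L z = ι.symm (S.direction.orthogonalProjectionOnto z) := by
    intro z
    rw [hL]
    rfl
  have hLb : ∀ z ∈ ball (0 : EuclideanSpace ℂ (Fin n)) 1,
      L z ∈ ball (0 : EuclideanSpace ℂ (Fin (Module.finrank ℂ S.direction))) 1 := by
    intro z hz
    rw [mem_ball_zero_iff] at hz ⊢
    rw [hLe, LinearIsometryEquiv.norm_map]
    exact (S.direction.norm_orthogonalProjectionOnto_apply_le z).trans_lt hz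
  have hLJ : ∀ x, L (J x) = x := by
    intro x
    rw [hLe, hJe]
    have e : S.direction.orthogonalProjectionOnto
        ((ι x : S.direction) : EuclideanSpace ℂ (Fin n)) = ι x :=
      Submodule.orthogonalProjectionOnto_mem_subspace_eq_self _
    rw [e, ι.symm_apply_apply]
  have hLP : ∀ z, L (S.direction.starProjection z) = L z := by
    intro z
    rw [hLe, hLe]
    congr 1
    exact Submodule.orthogonalProjectionOnto_mem_subspace_eq_self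
      (S.direction.orthogonalProjectionOnto z)
  have hfI : ∀ j, IsHinf (ball 0 1) fun z => F j (L z) := fun j => by
    obtain ⟨h1, C, h2⟩ := hF j
    exact ⟨h1.comp L.differentiable.differentiableOn hLb, C, fun z hz => h2 _ (hLb z hz)⟩
  -- the functions `F j ∘ L` are in the class of the direction of `S`
  have hAS : ∀ j, Pool.Agent.MPca0fc2.SP.CalmCl
      (S.direction : Set (EuclideanSpace ℂ (Fin n))) fun z => F j (L z) := fun j => by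
    refine (Pool.Agent.MPca0fc2.SP.calmCl_iff_AS S.direction _).2
      ⟨(hfI j).1, (hfI j).2, fun ε hε => ⟨0, one_pos, fun r _ _ z _ => ?_⟩⟩
    have e : L (S.direction.starProjection z + (r : ℂ) • (z - S.direction.starProjection z)) =
        L z := by
      rw [map_add, map_smul, map_sub, hLP, sub_self, smul_zero, add_zero]
    show ‖F j (L z) -
      F j (L (S.direction.starProjection z + (r : ℂ) • (z - S.direction.starProjection z)))‖ ≤ ε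
    rw [e, sub_self, norm_zero]
    exact hε.le
  have hmap := Pool.Agent.MPca0fc2.TE.gg_maps (E := EuclideanSpace ℂ (Fin n)) ha'
  have hmapa := Pool.Agent.MPca0fc2.TE.gg_maps (E := EuclideanSpace ℂ (Fin n)) ha
  have hclass : ∀ j, (fun z => F j (L (Pool.Agent.MPca0fc2.PT.gg (-a) z))) ∈
      Cl (Calm (S : Set (EuclideanSpace ℂ (Fin n)))) := by
    intro j
    rw [closure_iff]
    obtain ⟨M, hM⟩ : ∃ M : Set (EuclideanSpace ℂ (Fin n)),
      M = {b | b ∈ S.direction ∧ ‖b‖ < 1} := ⟨_, rfl⟩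
    have h1 : Pool.Agent.MPca0fc2.SP.CalmCl M fun z => F j (L z) := by
      refine ⟨(hAS j).1, (hAS j).2.1, fun ε hε => ?_⟩
      obtain ⟨w, ⟨h1, h2, W, hW, h3⟩, h4⟩ := (hAS j).2.2 ε hε
      refine ⟨w, ⟨h1, h2, W, hW, fun k z hz hb => h3 k z hz fun b hb1 hb2 => hb b ?_ hb2⟩, h4⟩
      rw [hM]
      exact ⟨hb1, hb2⟩
    have h2 := Pool.Agent.MPca0fc2.SP.calmCl_gg ha' h1
    rw [neg_neg] at h2
    refine ⟨h2.1, h2.2.1, fun ε hε => ?_⟩
    obtain ⟨w, ⟨e1, e2, W, hW, e3⟩, e4⟩ := h2.2.2 ε hε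
    refine ⟨w, ⟨e1, e2, W, hW, fun k z hz hb => e3 k z hz fun b hb1 hb2 => hb b ?_ hb2⟩, e4⟩
    obtain ⟨b', hb', rfl⟩ := hb1
    rw [hM] at hb'
    refine (haS _ hb2.le).2 ?_
    rw [Pool.Agent.MPca0fc2.PT.gg_neg_gg ha hb'.2.le]
    exact hb'.1
  obtain ⟨h, h1, h2⟩ := hC (fun j z => F j (L (Pool.Agent.MPca0fc2.PT.gg (-a) z)))
    ⟨fun j => (hclass j).1, δ, hδ, fun z hz => hFδ _ (hLb _ (hmap hz))⟩
    fun j => hSA (hclass j)
  refine ⟨fun j x => h j (Pool.Agent.MPca0fc2.PT.gg a (J x)), fun j => ?_, fun x hx => ?_⟩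
  · obtain ⟨h3, C, h4⟩ := h1 j
    exact ⟨h3.comp ((Pool.Agent.MPca0fc2.TE.gg_holo ha).comp J.differentiable.differentiableOn hJb)
      fun x hx => hmapa (hJb x hx), C, fun x hx => h4 _ (hmapa (hJb x hx))⟩
  · have h5 := h2 _ (hmapa (hJb x hx))
    have h6 : Pool.Agent.MPca0fc2.PT.gg (-a) (Pool.Agent.MPca0fc2.PT.gg a (J x)) = J x :=
      Pool.Agent.MPca0fc2.PT.gg_neg_gg ha (mem_ball_zero_iff.1 (hJb x hx)).le
    simp only [h6, hLJ] at h5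
    exact h5

/-! ### The classes of linear subspaces -/

theorem class_linear (S : Submodule ℂ (EuclideanSpace ℂ (Fin n))) :
    Cl (Calm (S : Set (EuclideanSpace ℂ (Fin n)))) = Along S := by
  ext u
  rw [closure_iff, along_iff]
  exact Pool.Agent.MPca0fc2.SP.calmCl_iff_AS S u

theorem poly_form {e : OrthonormalBasis (Fin n) ℂ (EuclideanSpace ℂ (Fin n))} {i : Fin n}
    {u : EuclideanSpace ℂ (Fin n) → ℂ} (hu : IsHinf (ball 0 1) u) (h : Sums e i u) :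
    u ∈ Along (Submodule.span ℂ {e i}) := by
  classical
  obtain ⟨T, c, -, h1⟩ := h
  obtain ⟨d, hd⟩ : ∃ d : ℕ, ∀ a ∈ T, ∑ j ∈ Finset.univ.erase i, a j ≤ d :=
    ⟨T.sup fun a => ∑ j ∈ Finset.univ.erase i, a j, fun a ha =>
      Finset.le_sup (f := fun a => ∑ j ∈ Finset.univ.erase i, a j) ha⟩
  refine along_iff.2 (Pool.Agent.MPca0fc2.SP.AS.of_poly (Pool.Agent.MPca0fc2.SP.prj_star _) hu.1 hu.2
    (d := d) fun z hz => ?_)
  obtain ⟨P, hP⟩ : ∃ P : EuclideanSpace ℂ (Fin n) →L[ℂ] EuclideanSpace ℂ (Fin n),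
      P = (Submodule.span ℂ {e i}).starProjection := ⟨_, rfl⟩
  have hPe : ∀ z, P z = ⟪e i, z⟫_ℂ • e i := by
    intro z
    rw [hP]
    exact Submodule.starProjection_unit_singleton ℂ (e.orthonormal.1 i) z
  have hPj : Pool.Agent.MPca0fc2.TE.Prj P := by
    rw [hP]; exact Pool.Agent.MPca0fc2.SP.prj_star _
  have hnorm : ∀ t : ℂ, ‖t‖ ≤ 1 → P z + t • (z - P z) ∈ ball (0 : EuclideanSpace ℂ (Fin n)) 1 := by
    intro t ht
    have e1 : ‖P z + t • (z - P z)‖ ^ 2 = ‖P z‖ ^ 2 + ‖t‖ ^ 2 * ‖z - P z‖ ^ 2 := by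
      rw [norm_add_sq (𝕜 := ℂ), inner_smul_right]
      have e2 : ⟪P z, z - P z⟫_ℂ = 0 := by
        rw [hPj.sa, map_sub, hPj.idem, sub_self, inner_zero_right]
      rw [e2, mul_zero, map_zero, norm_smul]
      ring
    have hpy := Pool.Agent.MPca0fc2.TE.pyth hPj z
    have e3 : ‖t‖ ^ 2 ≤ 1 := pow_le_one₀ (norm_nonneg _) ht
    have e4 : ‖P z + t • (z - P z)‖ ^ 2 ≤ ‖z‖ ^ 2 := by
      rw [e1, hpy]
      nlinarith [sq_nonneg ‖z - P z‖]
    rw [mem_ball_zero_iff]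
    exact (le_of_sq_le_sq e4 (norm_nonneg _)).trans_lt (mem_ball_zero_iff.1 hz)
  have hi : ∀ t : ℂ, ⟪e i, P z + t • (z - P z)⟫_ℂ = ⟪e i, z⟫_ℂ := by
    intro t
    rw [hPe, inner_add_right, inner_smul_right, inner_smul_right, inner_sub_right,
      inner_smul_right, inner_self_eq_norm_sq_to_K, e.orthonormal.1 i]
    simp
  have hj : ∀ t : ℂ, ∀ j ∈ Finset.univ.erase i,
      ⟪e j, P z + t • (z - P z)⟫_ℂ = t * ⟪e j, z⟫_ℂ := by
    intro t j hj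
    have h2 : ⟪e j, e i⟫_ℂ = 0 := e.orthonormal.2 (Finset.ne_of_mem_erase hj)
    rw [hPe, inner_add_right, inner_smul_right, inner_smul_right, inner_sub_right,
      inner_smul_right, h2]
    simp
  refine ⟨fun k => ∑ a ∈ T.filter (fun a => ∑ j ∈ Finset.univ.erase i, a j = (k : ℕ)),
    c a ⟪e i, z⟫_ℂ * ∏ j ∈ Finset.univ.erase i, ⟪e j, z⟫_ℂ ^ a j, fun t ht => ?_⟩
  rw [← hP, h1 _ (hnorm t ht)]
  have e1 : ∀ a ∈ T, c a ⟪e i, P z + t • (z - P z)⟫_ℂ *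
      ∏ j ∈ Finset.univ.erase i, ⟪e j, P z + t • (z - P z)⟫_ℂ ^ a j =
      (c a ⟪e i, z⟫_ℂ * ∏ j ∈ Finset.univ.erase i, ⟪e j, z⟫_ℂ ^ a j) *
        t ^ (∑ j ∈ Finset.univ.erase i, a j) := by
    intro a _
    have e2 : ∏ j ∈ Finset.univ.erase i, ⟪e j, P z + t • (z - P z)⟫_ℂ ^ a j =
        ∏ j ∈ Finset.univ.erase i, (t ^ a j * ⟪e j, z⟫_ℂ ^ a j) :=
      Finset.prod_congr rfl fun j hj' => by rw [hj t j hj', mul_pow]
    rw [hi, e2, Finset.prod_mul_distrib, Finset.prod_pow_eq_pow_sum]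
    ring
  rw [Finset.sum_congr rfl e1]
  rw [← Finset.sum_fiberwise_of_maps_to (s := T) (t := Finset.range (d + 1))
    (g := fun a => ∑ j ∈ Finset.univ.erase i, a j)
    (fun a ha => Finset.mem_range.2 (Nat.lt_succ_of_le (hd a ha)))]
  rw [Finset.sum_range]
  refine Finset.sum_congr rfl fun k _ => ?_
  rw [Finset.sum_mul]
  refine Finset.sum_congr rfl fun a ha => ?_
  rw [(Finset.mem_filter.1 ha).2]

/-! ### The theorem -/

/-- **The corona problem is local over the functions which are tame off complex lines; arbitrary data with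
tame products; any number of arbitrary functions in the tubes around complex lines; subspaces of any
dimension.** -/
theorem result {n N : ℕ} (hn : 2 ≤ n) (hN : 1 ≤ N) :
    -- (A) all complex lines which meet the ball
    IsLocal N (Alg (ClassOf (Lines n))) ∧
    PairFree N (Alg (ClassOf (Lines n))) ∧
    (∀ (e : OrthonormalBasis (Fin n) ℂ (EuclideanSpace ℂ (Fin n))) (i : Fin n)
      (u : EuclideanSpace ℂ (Fin n) → ℂ), IsHinf (ball 0 1) u → Sums e i u →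
      u ∈ Alg (ClassOf (Lines n))) ∧
    -- (B) any number of arbitrary functions in the tubes, and all the functions of one map
    (∀ p : EuclideanSpace ℂ (Fin n) → ℂ, DifferentiableOn ℂ p (ball 0 1) →
      (∀ z ∈ ball (0 : EuclideanSpace ℂ (Fin n)) 1, ‖p z‖ < 1) →
      OffTubes N (Alg (ClassOf (Lines n) ∪ Comp p)) (Lines n)) ∧
    -- (C) families of complex affine subspaces
    ∀ (𝓕 : Set (Set (EuclideanSpace ℂ (Fin n)))) (k : ℕ), Family k 𝓕 →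
      (∀ f : Fin N → EuclideanSpace ℂ (Fin n) → ℂ, (∀ j, IsHinf (ball 0 1) (f j)) →
        (Solvable (ball 0 1) f ↔
          Locally (Alg (ClassOf 𝓕)) f ∧ ∀ S ∈ 𝓕, Solvable (S ∩ ball 0 1) f)) ∧
      (2 ≤ k → (∃ S ∈ 𝓕, IsPlane k S) → List.TFAE [
        IsLocal N (Alg (ClassOf 𝓕)),
        PairFree N (Alg (ClassOf 𝓕)),
        OffTubes N (Alg (ClassOf 𝓕)) 𝓕,
        Corona N (Alg (ClassOf 𝓕)),
        Q1Upto N k]) := by
  have hloc : IsLocal N (Alg (ClassOf (Lines n))) :=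
    local_of_locOn (locOn_lines hn) fun u hu => hu.1
  refine ⟨hloc, pair_of_local hloc zero_alg, fun e i u hu h => ?_,
    fun p hp hp1 => tubes_lines hn hp hp1,
    fun 𝓕 k h𝓕 => ⟨fun f hf => data_family hn h𝓕 hf, fun hk hS => ?_⟩⟩
  · have h1 := poly_form hu h
    rw [← class_linear] at h1
    refine adjoin_subset hu ⟨_, ⟨Submodule.span ℂ {e i}, 0, ?_, by simp, ?_⟩, h1⟩
    · have hne : e i ≠ 0 := fun h0 => by
        have := e.orthonormal.1 i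
        rw [h0, norm_zero] at this
        exact zero_ne_one this
      exact finrank_span_singleton hne
    · simp
  · obtain ⟨S', hSF, hSk'⟩ := hS
    obtain ⟨S, rfl, hSk, x₀, hx₀, hx1⟩ := plane_iff.1 hSk'
    have hsub : Cl (Calm (S : Set (EuclideanSpace ℂ (Fin n)))) ⊆
        Alg (ClassOf 𝓕) := fun u hu => adjoin_subset hu.1 ⟨S, hSF, hu⟩
    tfae_have 1 → 2 := fun h => pair_of_local h zero_alg
    tfae_have 2 → 4 := fun h f hf hi => h f hf fun j _ _ => Or.inl (hi j)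
    tfae_have 3 → 4 := corona_of_tubes
    tfae_have 4 → 5 := fun h => by
      have h1 := q1_of_corona hN (by omega) hx₀ hx1 hsub h
      rwa [hSk] at h1
    tfae_have 5 → 1 := fun h => local_family hn h𝓕 h
    tfae_have 5 → 3 := fun h => tubes_family hn hN h𝓕 h
    tfae_finish

end Pool.Agent.Results.MP_ca0fc2_an.AlongSubspaces
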