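import Pool.Agent.Lib.MP_ca0fc2_an.CE.G1
import Pool.Agent.Lib.MP_ca0fc2_an.CE.G3
import Pool.Agent.Lib.MP_ca0fc2_an.CE.G5
import Pool.Agent.Lib.MP_ca0fc2_an.CE.K5
import Pool.Agent.Lib.MP_ca0fc2_an.CE.K6
import Pool.Agent.Lib.MP_ca0fc2_an.DADefs
import Pool.Agent.Lib.MP_ca0fc2_an.CGCor
import Pool.Agent.Lib.MP_ca0fc2_an.SH.ST

/-!
# The corona theorem for data with one-dimensional Carleson energy

`OneDim` is the algebra of the bounded holomorphic functions `u` on the unit ball whose invariant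
gradient satisfies `|Du|^q ≤ L E`, for some `q > 0` and the energy `E` of some measure of linear
growth with respect to the nonisotropic distance. One-dimensional: on the unit disc all bounded
holomorphic functions belong to the corresponding class.
-/

set_option autoImplicit false

open Metric Set Filter Topology MeasureTheory
open scoped InnerProductSpace
open Pool.Agent.Lib.MP_ca0fc2_an

namespace Pool.Agent.Results.MP_ca0fc2_an.CarlesonEnergy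

/-- the square of the invariant gradient -/
noncomputable def invGrad {n : ℕ} (u : EuclideanSpace ℂ (Fin n) → ℂ)
    (z : EuclideanSpace ℂ (Fin n)) : ℝ :=
  (1 - ‖z‖ ^ 2) * (‖fderiv ℂ u z‖ ^ 2 - ‖fderiv ℂ u z z‖ ^ 2)

/-- the nonisotropic distance -/
noncomputable def dd {n : ℕ} (x z : EuclideanSpace ℂ (Fin n)) : ℝ := ‖1 - ⟪x, z⟫_ℂ‖

/-- measures on the ball with `ν {x | |1 - <x, ζ>| < r} ≤ ω r` for all unit vectors `ζ` -/
structure Growth {n : ℕ} (ω : ℝ → ℝ) (ν : Measure (EuclideanSpace ℂ (Fin n))) : Prop where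
  supp : ν (ball (0 : EuclideanSpace ℂ (Fin n)) 1)ᶜ = 0
  box : ∀ ζ : EuclideanSpace ℂ (Fin n), ‖ζ‖ = 1 → ∀ r : ℝ, 0 < r → r ≤ 2 →
    ν {x | dd x ζ < r} ≤ ENNReal.ofReal (ω r)

/-- the energy of the measure `ν` -/
noncomputable def energy {n : ℕ} (s : ℝ) (ν : Measure (EuclideanSpace ℂ (Fin n)))
    (z : EuclideanSpace ℂ (Fin n)) : ℝ :=
  ∫ x, ((1 - ‖z‖ ^ 2) / dd x z) ^ s * ((1 - ‖x‖ ^ 2) / dd x z) ^ 2 / dd x z ∂ν

/-- the bounded holomorphic functions on the ball with `|Du|^q ≤ L E`, where `E` is the energy of a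
measure of growth `ω` -/
def Class {n : ℕ} (q : ℝ) (ω : ℝ → ℝ) : Set (EuclideanSpace ℂ (Fin n) → ℂ) :=
  {u | IsHinf (ball 0 1) u ∧ ∃ (s L : ℝ) (ν : Measure (EuclideanSpace ℂ (Fin n))), 0 < s ∧
    Growth ω ν ∧ ∀ z ∈ ball (0 : EuclideanSpace ℂ (Fin n)) 1,
      invGrad u z ^ (q / 2) ≤ L * energy s ν z}

/-- `ω` is positive and `ω r / r` is decreasing on `(0, 2]` -/
def Reg (ω : ℝ → ℝ) : Prop :=
  (∀ r ∈ Ioc (0 : ℝ) 2, 0 < ω r) ∧ AntitoneOn (fun r => ω r / r) (Ioc 0 2)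

/-- linear growth -/
def Linear (ω : ℝ → ℝ) : Prop := ∃ A : ℝ, ∀ r ∈ Ioc (0 : ℝ) 2, ω r ≤ A * r

/-- the functions with one-dimensional energy: `|Du|^q ≤ L E` for some `q > 0` -/
def OneDim {n : ℕ} : Set (EuclideanSpace ℂ (Fin n) → ℂ) := {u | ∃ q > 0, u ∈ Class q fun r => r}

/-- the functions in `H^∞` of the ball which are uniform limits of functions in `A` -/
def Cl {n : ℕ} (A : Set (EuclideanSpace ℂ (Fin n) → ℂ)) : Set (EuclideanSpace ℂ (Fin n) → ℂ) :=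
  {u | IsHinf (ball 0 1) u ∧
    ∀ ε > 0, ∃ v ∈ A, ∀ z ∈ ball (0 : EuclideanSpace ℂ (Fin n)) 1, ‖u z - v z‖ ≤ ε}

/-- all the functions `g ∘ π`, `g` bounded and holomorphic on the unit disc -/
def Comp {n : ℕ} (π : EuclideanSpace ℂ (Fin n) → ℂ) : Set (EuclideanSpace ℂ (Fin n) → ℂ) :=
  {u | ∃ g : ℂ → ℂ, DifferentiableOn ℂ g (ball 0 1) ∧ (∃ M : ℝ, ∀ x ∈ ball (0 : ℂ) 1, ‖g x‖ ≤ M) ∧
    ∀ z, u z = g (π z)}

/-- `∑ f_j h_j = 1` has a bounded holomorphic solution on the ball -/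
def Solvable {n N : ℕ} (f : Fin N → EuclideanSpace ℂ (Fin n) → ℂ) : Prop :=
  ∃ h : Fin N → EuclideanSpace ℂ (Fin n) → ℂ, (∀ j, IsHinf (ball 0 1) (h j)) ∧
    ∀ z ∈ ball (0 : EuclideanSpace ℂ (Fin n)) 1, ∑ j, f j z * h j z = 1

/-- all corona data `f_1, …, f_N` in `A` are solvable -/
def Corona {n : ℕ} (N : ℕ) (A : Set (EuclideanSpace ℂ (Fin n) → ℂ)) : Prop :=
  ∀ f : Fin N → EuclideanSpace ℂ (Fin n) → ℂ, (∀ j, f j ∈ A) →
    (∃ δ > 0, ∀ z ∈ ball (0 : EuclideanSpace ℂ (Fin n)) 1, δ ≤ ∑ j, ‖f j z‖ ^ 2) → Solvable f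

/-- Q1 for `N` functions on all strictly pseudoconvex domains in `ℂᵐ`, `2 ≤ m ≤ k` -/
def Q1Upto (N k : ℕ) : Prop :=
  ∀ m, 2 ≤ m → m ≤ k → ∀ D : Set (EuclideanSpace ℂ (Fin m)), IsStrictlyPscDomain D →
    ∀ f : Fin N → EuclideanSpace ℂ (Fin m) → ℂ, (∀ j, IsHinf D (f j)) →
      (∃ δ > 0, ∀ z ∈ D, δ ≤ ∑ j, ‖f j z‖ ^ 2) →
      ∃ h : Fin N → EuclideanSpace ℂ (Fin m) → ℂ, (∀ j, IsHinf D (h j)) ∧
        ∀ z ∈ D, ∑ j, f j z * h j z = 1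

/-- the nonisotropic distance of `z` from `K` -/
noncomputable def ndist {n : ℕ} (K : Set (EuclideanSpace ℂ (Fin n)))
    (z : EuclideanSpace ℂ (Fin n)) : ℝ :=
  sInf ((fun ζ => dd z ζ) '' K)

/-- homogeneous sets of dimension `β` with respect to `|1 - <x, y>|` -/
def Homogeneous {n : ℕ} (β : ℝ) (K : Set (EuclideanSpace ℂ (Fin n))) : Prop :=
  ∃ C : ℝ, ∀ x₀ ∈ K, ∀ r R : ℝ, 0 < r → r ≤ R → ∀ S : Finset (EuclideanSpace ℂ (Fin n)),
    (S : Set (EuclideanSpace ℂ (Fin n))) ⊆ K → (∀ x ∈ S, dd x x₀ < R) →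
    (∀ x ∈ S, ∀ y ∈ S, x ≠ y → r ≤ dd x y) → (S.card : ℝ) ≤ C * (R / r) ^ β

/-- data with one-dimensional energy, one function arbitrary, have solutions with uniform bounds -/
def Uniform (n N : ℕ) : Prop :=
  ∀ δ q s L : ℝ, 0 < δ → 0 < q → 0 < s → 0 < L → ∃ C : ℝ, 0 < C ∧
    ∀ f : Fin N → EuclideanSpace ℂ (Fin n) → ℂ, (∀ j, DifferentiableOn ℂ (f j) (ball 0 1)) →
      (∀ z ∈ ball (0 : EuclideanSpace ℂ (Fin n)) 1,
        δ ≤ ∑ j, ‖f j z‖ ^ 2 ∧ ∑ j, ‖f j z‖ ^ 2 ≤ 1) →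
      ∀ ν : Measure (EuclideanSpace ℂ (Fin n)), Growth (fun r => r) ν → ∀ j₀ : Fin N,
      (∀ z ∈ ball (0 : EuclideanSpace ℂ (Fin n)) 1, ∀ j, j ≠ j₀ →
        invGrad (f j) z ^ (q / 2) ≤ L * energy s ν z) →
      ∃ h : Fin N → EuclideanSpace ℂ (Fin n) → ℂ, (∀ j, DifferentiableOn ℂ (h j) (ball 0 1)) ∧
        ∀ z ∈ ball (0 : EuclideanSpace ℂ (Fin n)) 1, ∑ j, f j z * h j z = 1 ∧
          ∀ j, ‖h j z‖ ≤ C

/-- the bounded holomorphic functions which are Hölder continuous off `K` -/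
def HolderOff {n : ℕ} (K : Set (EuclideanSpace ℂ (Fin n))) :
    Set (EuclideanSpace ℂ (Fin n) → ℂ) :=
  {u | IsHinf (ball 0 1) u ∧ ∃ L s : ℝ, 0 < s ∧ ∀ z ∈ ball (0 : EuclideanSpace ℂ (Fin n)) 1,
    invGrad u z ≤ L * ((1 - ‖z‖ ^ 2) / ndist K z) ^ s}

/-- the multipliers of the Drury-Arveson space -/
def Mult {n : ℕ} : Set (EuclideanSpace ℂ (Fin n) → ℂ) := {u | ∃ M, DAMultiplier M u}

/-- closed under sums and products -/
def Algebraic {n : ℕ} (A : Set (EuclideanSpace ℂ (Fin n) → ℂ)) : Prop :=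
  ∀ u ∈ A, ∀ v ∈ A, (fun z => u z + v z) ∈ A ∧ (fun z => u z * v z) ∈ A

/-- the algebra of functions generated by `S` -/
def Alg {n : ℕ} (S : Set (EuclideanSpace ℂ (Fin n) → ℂ)) : Set (EuclideanSpace ℂ (Fin n) → ℂ) :=
  {u | u ∈ Algebra.adjoin ℂ S}

open Pool.Agent.MPca0fc2.CE
open Pool.Agent.MPca0fc2.PT (IG2)

variable {n N : ℕ}

theorem invGrad_eq (u : EuclideanSpace ℂ (Fin n) → ℂ) (z : EuclideanSpace ℂ (Fin n)) :
    invGrad u z = IG2 u z := rfl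

theorem energy_eq (s : ℝ) (ν : Measure (EuclideanSpace ℂ (Fin n))) (z : EuclideanSpace ℂ (Fin n)) :
    energy s ν z = Tc s 2 ν z := rfl

theorem exists_unit (hn : 2 ≤ n) : ∃ ζ : EuclideanSpace ℂ (Fin n), ‖ζ‖ = 1 :=
  ⟨EuclideanSpace.single ⟨0, by omega⟩ 1, by simp⟩

theorem growth_car {ν : Measure (EuclideanSpace ℂ (Fin n))} (h : Growth (fun r => r) ν) :
    Car ν := by
  refine ⟨h.supp, fun ζ hζ r hr => ?_⟩
  rcases le_or_gt r 2 with h2 | h2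
  · exact h.box ζ hζ r hr h2
  · calc ν {u | ‖1 - ⟪u, ζ⟫_ℂ‖ < r} ≤ ν ({u | ‖1 - ⟪u, ζ⟫_ℂ‖ < 2} ∪
          (ball (0 : EuclideanSpace ℂ (Fin n)) 1)ᶜ) := by
          refine measure_mono fun u _ => ?_
          by_cases hu : u ∈ ball (0 : EuclideanSpace ℂ (Fin n)) 1
          · left
            have h3 : ‖u‖ < 1 := mem_ball_zero_iff.1 hu
            have h4 : ‖⟪u, ζ⟫_ℂ‖ ≤ ‖u‖ * ‖ζ‖ := norm_inner_le_norm _ _
            rw [hζ, mul_one] at h4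
            show ‖1 - ⟪u, ζ⟫_ℂ‖ < 2
            calc ‖1 - ⟪u, ζ⟫_ℂ‖ ≤ ‖(1 : ℂ)‖ + ‖⟪u, ζ⟫_ℂ‖ := norm_sub_le _ _
              _ < 2 := by rw [norm_one]; linarith
          · exact Or.inr hu
      _ ≤ ν {u | ‖1 - ⟪u, ζ⟫_ℂ‖ < 2} + ν (ball (0 : EuclideanSpace ℂ (Fin n)) 1)ᶜ :=
          measure_union_le _ _
      _ ≤ ENNReal.ofReal 2 + 0 := add_le_add (h.box ζ hζ 2 (by norm_num) le_rfl) h.supp.le
      _ ≤ ENNReal.ofReal r := by
          rw [add_zero]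
          exact ENNReal.ofReal_le_ofReal h2.le

theorem car_growth {ν : Measure (EuclideanSpace ℂ (Fin n))} (h : Car ν) :
    Growth (fun r => r) ν := ⟨h.sub, fun ζ hζ r hr _ => h.car ζ hζ r hr⟩

/-- the classes of growth `A r` -/
theorem class_acl (hn : 2 ≤ n) {q : ℝ} (hq : 0 < q) {ω : ℝ → ℝ} {A : ℝ} (hA : 0 ≤ A)
    (h : ∀ r ∈ Ioc (0 : ℝ) 2, ω r ≤ A * r) {u : EuclideanSpace ℂ (Fin n) → ℂ}
    (hu : u ∈ Class q ω) : ∃ κ : ℕ, 1 ≤ κ ∧ u ∈ Acl κ (EuclideanSpace ℂ (Fin n)) := by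
  obtain ⟨⟨h1, h2⟩, s, L, ν, hs, hν, hL⟩ := hu
  obtain ⟨s', L', ν', hs', hs'1, hL', hν', hT⟩ := carW_bdd (exists_unit hn) hA h hs
    (ν := ν) ⟨hν.supp, hν.box⟩
  obtain ⟨κ, hκ⟩ := exists_nat_ge (max q 1)
  have h1κ : (1 : ℝ) ≤ κ := (le_max_right _ _).trans hκ
  refine ⟨κ, by exact_mod_cast h1κ, Acl_of_rpow (exists_unit hn) h1 h2 hq hs' hν'
    (L := |L| * L') (fun z hz => ?_) ((le_max_left _ _).trans hκ)⟩
  have h3 := hL z hz
  rw [invGrad_eq, energy_eq] at h3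
  have hz1 := mem_ball_zero_iff.1 hz
  have h7 : 0 ≤ Tc s 2 ν z := by
    unfold Tc
    refine integral_nonneg_of_ae ?_
    have hae : ∀ᵐ u ∂ν, u ∈ ball (0 : EuclideanSpace ℂ (Fin n)) 1 := by
      rw [ae_iff]
      exact hν.supp
    filter_upwards [hae] with x hx
    exact kc_nonneg (mem_ball_zero_iff.1 hx).le hz1.le
  calc IG2 u z ^ (q / 2) ≤ L * Tc s 2 ν z := h3
    _ ≤ |L| * (L' * Tc s' 2 ν' z) :=
        (mul_le_mul_of_nonneg_right (le_abs_self L) h7).trans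
          (mul_le_mul_of_nonneg_left (hT z hz) (abs_nonneg _))
    _ = |L| * L' * Tc s' 2 ν' z := by ring

theorem acl_one {κ : ℕ} (hκ : 1 ≤ κ) {u : EuclideanSpace ℂ (Fin n) → ℂ}
    (hu : u ∈ Acl κ (EuclideanSpace ℂ (Fin n))) : u ∈ OneDim := by
  obtain ⟨s, L, ν, hs, -, hν, h⟩ := Acl_rpow hu
  exact ⟨κ, by exact_mod_cast hκ, ⟨hu.1, hu.2.1⟩, s, L, ν, hs, car_growth hν, h⟩

theorem one_acl (hn : 2 ≤ n) {u : EuclideanSpace ℂ (Fin n) → ℂ} (hu : u ∈ OneDim) :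
    ∃ κ : ℕ, 1 ≤ κ ∧ u ∈ Acl κ (EuclideanSpace ℂ (Fin n)) := by
  obtain ⟨q, hq, hu⟩ := hu
  exact class_acl hn hq zero_le_one (fun r _ => by rw [one_mul]) hu

theorem algebraic (hn : 2 ≤ n) : Algebraic (OneDim (n := n)) := by
  intro u hu v hv
  obtain ⟨κ, hκ, hu'⟩ := one_acl hn hu
  obtain ⟨κ', hκ', hv'⟩ := one_acl hn hv
  have h1 := Acl_up (le_max_left κ κ') hu'
  have h2 := Acl_up (le_max_right κ κ') hv'
  have h3 : 1 ≤ max κ κ' := hκ.trans (le_max_left _ _)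
  exact ⟨acl_one h3 (Acl_add' (exists_unit hn) h1 h2), acl_one h3 (Acl_mul' (exists_unit hn) h1 h2)⟩

theorem uniform (hn : 2 ≤ n) : Uniform n N := by
  intro δ q s L hδ hq hs hL
  obtain ⟨p, A, hp, hcg⟩ := cg_of_energy (exists_unit hn) hq hs hL
  obtain ⟨C, hC⟩ := Pool.Agent.MPca0fc2.CGCor.all_but_one_carleson n hn N 1 δ p A hδ (by linarith)
  refine ⟨|C| + 1, by positivity, fun f hf hfδ ν hν j₀ hE => ?_⟩
  have hb : ∀ j, ∀ z ∈ ball (0 : EuclideanSpace ℂ (Fin n)) 1, ‖f j z‖ ≤ 1 := by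
    intro j z hz
    have h5 := (hfδ z hz).2
    have h6 : ‖f j z‖ ^ 2 ≤ ∑ j, ‖f j z‖ ^ 2 :=
      Finset.single_le_sum (f := fun j => ‖f j z‖ ^ 2) (fun _ _ => sq_nonneg _)
        (Finset.mem_univ j)
    nlinarith [norm_nonneg (f j z)]
  obtain ⟨h, h1, h2, h3⟩ := hC f hf hb (fun z hz => (hfδ z hz).1)
    ⟨j₀, fun j hj => hcg (f j) ν (growth_car hν) fun z hz => hE z hz j hj⟩
  exact ⟨h, h1, fun z hz => ⟨h3 z hz, fun j => (h2 j z hz).trans (by linarith [le_abs_self C])⟩⟩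

theorem of_solvableOn {f : Fin N → EuclideanSpace ℂ (Fin n) → ℂ}
    (h : ∃ C, SolvableOn f (ball 0 1) C) : Solvable f := by
  obtain ⟨C, h, h1, h2, h3⟩ := h
  exact ⟨h, fun j => ⟨h1 j, C, fun z hz => h2 j z hz⟩, h3⟩

theorem corona_alg (hn : 2 ≤ n) {π : EuclideanSpace ℂ (Fin n) → ℂ}
    (hπ : DifferentiableOn ℂ π (ball 0 1))
    (hπ1 : ∀ z ∈ ball (0 : EuclideanSpace ℂ (Fin n)) 1, ‖π z‖ < 1) :
    Corona N (Cl (Alg (OneDim ∪ Comp π))) := by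
  rintro f hf ⟨δ, hδ, hfδ⟩
  refine of_solvableOn (solve_alg hn hπ hπ1 (fun j => (hf j).1) (fun j ε hε => ?_) hδ hfδ)
  obtain ⟨v, hv, hv1⟩ := (hf j).2 ε hε
  exact ⟨v, Algebra.adjoin_mono (union_subset_union_left _ fun u hu => one_acl hn hu) hv, hv1⟩

theorem corona_mono {A A' : Set (EuclideanSpace ℂ (Fin n) → ℂ)} (h : A ⊆ A')
    (hc : Corona N (Cl A')) : Corona N (Cl A) := by
  intro f hf hδ
  refine hc f (fun j => ⟨(hf j).1, fun ε hε => ?_⟩) hδ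
  obtain ⟨v, hv, hv1⟩ := (hf j).2 ε hε
  exact ⟨v, h hv, hv1⟩

/-- the threshold for one point -/
theorem lam_q1 (hn : 2 ≤ n) (hN : 1 ≤ N) {lam : ℝ → ℝ}
    (h1 : AntitoneOn lam (Ioi 0)) (h2 : ∀ a, 0 < a → 1 ≤ lam a)
    (h3 : ¬ BddAbove (lam '' Ioi 0)) {p : EuclideanSpace ℂ (Fin n)} (hp : ‖p‖ = 1)
    (hS : ∀ f : Fin N → EuclideanSpace ℂ (Fin n) → ℂ, (∀ j, IsHinf (ball 0 1) (f j)) →
      (∃ δ > 0, ∀ z ∈ ball (0 : EuclideanSpace ℂ (Fin n)) 1, δ ≤ ∑ j, ‖f j z‖ ^ 2) →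
      (∀ z ∈ ball (0 : EuclideanSpace ℂ (Fin n)) 1, ∀ j,
        invGrad (f j) z ≤ lam ‖1 - ⟪z, p⟫_ℂ‖ ^ 2 * ((1 - ‖z‖ ^ 2) / ‖1 - ⟪z, p⟫_ℂ‖)) →
      Solvable f) : Q1Upto N n := by
  have hR : ¬ BddAbove ((fun t : ℝ => 1 / (1 - t)) '' Ico 0 1) := by
    rw [not_bddAbove_iff]
    intro x
    refine ⟨_, ⟨1 - 1 / (|x| + 2), ⟨?_, ?_⟩, rfl⟩, ?_⟩
    · have : 1 / (|x| + 2) ≤ 1 := by
        rw [div_le_one (by positivity)]
        linarith [abs_nonneg x]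
      linarith
    · have : 0 < 1 / (|x| + 2) := by positivity
      linarith
    · show x < 1 / (1 - (1 - 1 / (|x| + 2)))
      rw [sub_sub_cancel, one_div_one_div]
      linarith [le_abs_self x]
  refine (((Pool.Agent.MPca0fc2ST.result (n := n) (N := N) hn).2 lam
    (fun t => 1 / (1 - t)) p h1 h2 hp).2 hN h3 hR).1 ?_
  intro δ hδ f hf
  obtain ⟨h, hh, hs⟩ := hS f (fun j => ⟨hf.holo j, 1, fun z hz => by
    have h5 := (hf.bd z hz).2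
    have h6 : ‖f j z‖ ^ 2 ≤ ∑ j, ‖f j z‖ ^ 2 :=
      Finset.single_le_sum (f := fun j => ‖f j z‖ ^ 2) (fun _ _ => sq_nonneg _)
        (Finset.mem_univ j)
    nlinarith [norm_nonneg (f j z)]⟩) ⟨δ, hδ, fun z hz => (hf.bd z hz).1⟩
    (fun z hz j => hf.grad z hz j)
  choose hd M hM using hh
  have hsub : Pool.Agent.MPca0fc2ST.tube (fun t => 1 / (1 - t)) p ⊆ ball 0 1 :=
    Pool.Agent.MPca0fc2ST.tube_sub
  refine ⟨∑ j, |M j|, h, fun j => (hd j).mono hsub, fun z hz =>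
    ⟨hs z (hsub hz), fun j => ?_⟩⟩
  exact (hM j z (hsub hz)).trans ((le_abs_self _).trans
    (Finset.single_le_sum (f := fun j => |M j|) (fun _ _ => abs_nonneg _)
      (Finset.mem_univ j)))

theorem threshold (hn : 2 ≤ n) (hN : 1 ≤ N) {q : ℝ} (hq : 0 < q) {ω : ℝ → ℝ}
    (h1 : ∀ r ∈ Ioc (0 : ℝ) 2, 0 < ω r) (h2 : AntitoneOn (fun r => ω r / r) (Ioc 0 2)) :
    Corona N (Cl (Class (n := n) q ω)) ↔ Linear ω ∨ Q1Upto N n := by
  constructor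
  · intro hC
    by_contra hcon
    obtain ⟨hb', hQ⟩ := not_or.1 hcon
    have hb : ¬ BddAbove ((fun r => ω r / r) '' Ioc 0 2) := by
      rintro ⟨A, hA⟩
      refine hb' ⟨A, fun r hr => ?_⟩
      have h3 : ω r / r ≤ A := hA (mem_image_of_mem _ hr)
      rwa [div_le_iff₀ hr.1] at h3
    obtain ⟨s, hs⟩ : ∃ s, s = min (q / 2) 1 := ⟨_, rfl⟩
    have hs0 : 0 < s := by rw [hs]; exact lt_min (by positivity) one_pos
    have hs1 : s ≤ 1 := by rw [hs]; exact min_le_right _ _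
    have hsq : s ≤ q / 2 := by rw [hs]; exact min_le_left _ _
    obtain ⟨lam, g1, g2, g3, g4⟩ := thr_pow (E := EuclideanSpace ℂ (Fin n)) hs0 hs1 h1 h2 hb
    obtain ⟨p, hp⟩ := exists_unit hn
    obtain ⟨L, ν, hL, hν, hν1⟩ := g4 p hp
    refine hQ (lam_q1 hn hN g1 g2 g3 hp fun f hf hδ hg => hC f (fun j => ?_) hδ)
    obtain ⟨C, hC'⟩ := (hf j).2
    obtain ⟨K, hK, hKf⟩ := IG_bdd (hf j).1 hC'
    refine ⟨hf j, fun ε hε => ⟨f j, ⟨hf j, s, (K ^ 2) ^ (q / 2 - s) * L, ν, hs0,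
      ⟨hν.sub, hν.car⟩, fun z hz => ?_⟩, fun z _ => by rw [sub_self, norm_zero]; exact hε.le⟩⟩
    have hz1 := mem_ball_zero_iff.1 hz
    have i0 : 0 ≤ invGrad (f j) z := Pool.Agent.MPca0fc2.PT.gd_IG_nonneg hz1
    have i1 : invGrad (f j) z ≤ K ^ 2 := by
      rw [← Real.sqrt_le_left (by positivity)]
      exact hKf z hz
    have i2 : invGrad (f j) z ^ (q / 2) =
        invGrad (f j) z ^ (q / 2 - s) * invGrad (f j) z ^ s := by
      rw [← Real.rpow_add_of_nonneg i0 (by linarith) hs0.le]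
      congr 1
      ring
    obtain ⟨a, ha⟩ : ∃ a, a = ‖1 - ⟪z, p⟫_ℂ‖ := ⟨_, rfl⟩
    have ha0 : 0 < a := by
      rw [ha, ← Complex.norm_conj, map_sub, map_one, inner_conj_symm]
      exact (a_pos (by rw [hp]) hz1).1
    have hh : 0 ≤ (1 - ‖z‖ ^ 2) / a := by
      have : 0 ≤ 1 - ‖z‖ ^ 2 := by nlinarith [norm_nonneg z]
      positivity
    have i3 := hg z hz j
    have i4 := hν1 z hz
    rw [← ha] at i3 i4
    have hl := g2 a ha0
    rw [i2, mul_assoc]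
    refine mul_le_mul (Real.rpow_le_rpow i0 i1 (by linarith)) ?_ (Real.rpow_nonneg i0 _)
      (by positivity)
    calc invGrad (f j) z ^ s ≤ (lam a ^ 2 * ((1 - ‖z‖ ^ 2) / a)) ^ s :=
          Real.rpow_le_rpow i0 i3 hs0.le
      _ = (lam a ^ 2) ^ s * ((1 - ‖z‖ ^ 2) / a) ^ s := Real.mul_rpow (by positivity) hh
      _ ≤ lam a ^ 2 * ((1 - ‖z‖ ^ 2) / a) ^ s := by
          refine mul_le_mul_of_nonneg_right ?_ (Real.rpow_nonneg hh _)
          conv_rhs => rw [← Real.rpow_one (lam a ^ 2)]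
          exact Real.rpow_le_rpow_of_exponent_le (by nlinarith) hs1
      _ ≤ L * energy s ν z := i4
  · rintro (⟨A, hA⟩ | hQ)
    · refine corona_mono (fun u hu => ?_) (corona_alg hn (π := fun _ => 0)
        (differentiableOn_const _) fun z _ => by rw [norm_zero]; exact one_pos)
      obtain ⟨κ, hκ, hu'⟩ := class_acl hn hq (abs_nonneg A)
        (fun r hr => (hA r hr).trans (mul_le_mul_of_nonneg_right (le_abs_self A) hr.1.le)) hu
      exact Algebra.subset_adjoin (Or.inl (acl_one hκ hu'))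
    · exact fun f hf hδ => hQ n hn le_rfl (ball 0 1)
        Pool.Agent.MPca0fc2.TB.isStrictlyPscDomain_ball f (fun j => (hf j).1) hδ

theorem ndist_eq (K : Set (EuclideanSpace ℂ (Fin n))) (z : EuclideanSpace ℂ (Fin n)) :
    ndist K z = Pool.Agent.MPca0fc2.VK.dk K z := by
  unfold ndist Pool.Agent.MPca0fc2.VK.dk
  congr 1
  refine Set.image_congr fun ζ _ => ?_
  rw [← Complex.norm_conj, map_sub, map_one, inner_conj_symm]
  rfl

theorem thin (hn : 2 ≤ n) {K : Set (EuclideanSpace ℂ (Fin n))} (hKs : K ⊆ sphere 0 1)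
    (hne : K.Nonempty) {β : ℝ} (hβ0 : 0 ≤ β) (hβ1 : β < 1) (hK : Homogeneous β K) :
    HolderOff K ⊆ OneDim (n := n) := by
  rintro u ⟨hu, L, s, hs, h⟩
  obtain ⟨C, hC⟩ := hK
  obtain ⟨L', hL', hL⟩ := thin_car (exists_unit hn) hβ0 hβ1 hs (C₀ := max C 1) (by positivity)
  obtain ⟨ν, hν, hν1⟩ := hL K hKs hne fun x₀ hx₀ r R hr hrR S hS1 hS2 hS3 =>
    (hC x₀ hx₀ r R hr hrR S hS1 hS2 hS3).trans (mul_le_mul_of_nonneg_right (le_max_left _ _)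
      (Real.rpow_nonneg (div_nonneg (hr.le.trans hrR) hr.le) _))
  refine ⟨2, two_pos, hu, s, |L| * L', ν, hs, car_growth hν, fun z hz => ?_⟩
  rw [div_self two_ne_zero, Real.rpow_one, energy_eq]
  have h1 := h z hz
  rw [ndist_eq] at h1
  have h2 : 0 ≤ ((1 - ‖z‖ ^ 2) / Pool.Agent.MPca0fc2.VK.dk K z) ^ s := by
    have hz1 := mem_ball_zero_iff.1 hz
    have h3 : 0 ≤ 1 - ‖z‖ ^ 2 := by nlinarith [norm_nonneg z]
    refine Real.rpow_nonneg (div_nonneg h3 (Real.sInf_nonneg ?_)) _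
    rintro _ ⟨_, -, rfl⟩
    exact norm_nonneg _
  calc invGrad u z ≤ L * ((1 - ‖z‖ ^ 2) / Pool.Agent.MPca0fc2.VK.dk K z) ^ s := h1
    _ ≤ |L| * (L' * Tc s 2 ν z) :=
        (mul_le_mul_of_nonneg_right (le_abs_self L) h2).trans
          (mul_le_mul_of_nonneg_left (hν1 z hz) (abs_nonneg _))
    _ = |L| * L' * Tc s 2 ν z := by ring

theorem result (hn : 2 ≤ n) (hN : 1 ≤ N) :
    -- (A) data with one-dimensional energy, one function arbitrary: uniform bounds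
    Uniform n N ∧
    -- (B) data in the closed algebra generated by the functions with one-dimensional energy and by
    -- all the functions `g ∘ π`
    (∀ π : EuclideanSpace ℂ (Fin n) → ℂ, DifferentiableOn ℂ π (ball 0 1) →
      (∀ z ∈ ball (0 : EuclideanSpace ℂ (Fin n)) 1, ‖π z‖ < 1) →
      Corona N (Cl (Alg (OneDim ∪ Comp π)))) ∧
    -- (C) the functions with one-dimensional energy: an algebra, examples
    (Algebraic (OneDim (n := n)) ∧ Mult ⊆ OneDim (n := n) ∧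
      (∀ a : EuclideanSpace ℂ (Fin n), ‖a‖ = 1 → Comp (fun z => ⟪a, z⟫_ℂ) ⊆ OneDim) ∧
      ∀ (β : ℝ) (K : Set (EuclideanSpace ℂ (Fin n))), 0 ≤ β → β < 1 → K ⊆ sphere 0 1 →
        K.Nonempty → Homogeneous β K → HolderOff K ⊆ OneDim) ∧
    -- (D) the threshold
    ∀ (q : ℝ) (ω : ℝ → ℝ), 0 < q → Reg ω →
      (Corona N (Cl (Class (n := n) q ω)) ↔ Linear ω ∨ Q1Upto N n) := by
  refine ⟨uniform hn, fun π hπ hπ1 => corona_alg hn hπ hπ1, ⟨algebraic hn, ?_, ?_, ?_⟩,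
    fun q ω hq h => threshold hn hN hq h.1 h.2⟩
  · rintro u ⟨M, hM⟩
    obtain ⟨κ, hκ, h⟩ := Acl_mult hn hM
    exact acl_one hκ h
  · rintro a ha u ⟨g, hg, ⟨M, hM⟩, hu⟩
    have h1 : u = fun z => g ⟪a, z⟫_ℂ := funext hu
    rw [h1]
    exact acl_one one_le_two (Acl_disc (exists_unit hn) ha hg hM)
  · exact fun β K hβ0 hβ1 hKs hne hK => thin hn hKs hne hβ0 hβ1 hK

end Pool.Agent.Results.MP_ca0fc2_an.CarlesonEnergy
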