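import Mathlib
import Pool.Agent.Lib.MP_ca0fc2_an.XC.AD
import Pool.Agent.Lib.MP_ca0fc2_an.XC.X14
import Pool.Agent.Lib.MP_ca0fc2_an.XC.X15
import Pool.Agent.Lib.MP_ca0fc2_an.XC.X16
import Pool.Agent.Lib.MP_ca0fc2_an.XC.X17

/-!
# The corona problem on the ball: sets of boundary points at which solutions can be bounded

Let `n ≥ 2` and let `f_1, ..., f_N` be corona data on the unit ball `B` of `ℂⁿ`. For every sequence of
pairwise disjoint compact sets `K_k` of the sphere, each of which lies in some complex line, there is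
one holomorphic solution on `B` which is bounded on the Koranyi regions of every aperture with vertices
in `K_k`, for every `k`. The corona theorem holds for `N` functions on all strictly pseudoconvex domains
in `ℂᵐ`, `2 ≤ m ≤ n`, if and only if all data on `B` (or the data of a non meager set) have a holomorphic
solution on `B` which is bounded along a sequence of radii at a non meager set of boundary points.
-/

set_option autoImplicit false

open Metric Set Filter Topology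
open scoped InnerProductSpace
open Pool.Agent.Lib.MP_ca0fc2_an
open Pool.Agent.Lib.MP_ca0fc2_an.ZL

namespace Pool.Agent.Results.MP_ca0fc2_an.ExceptionalSets

/-- `f` are corona data on `D`: bounded holomorphic functions with `∑ |f_j|² ≥ δ > 0` -/
def IsData {n N : ℕ} (D : Set (EuclideanSpace ℂ (Fin n)))
    (f : Fin N → EuclideanSpace ℂ (Fin n) → ℂ) : Prop :=
  (∀ j, IsHinf D (f j)) ∧ ∃ δ > 0, ∀ z ∈ D, δ ≤ ∑ j, ‖f j z‖ ^ 2

/-- `h` is a holomorphic solution on the unit ball, bounded or not -/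
def IsSol {n N : ℕ} (f h : Fin N → EuclideanSpace ℂ (Fin n) → ℂ) : Prop :=
  (∀ j, DifferentiableOn ℂ (h j) (ball 0 1)) ∧
    ∀ z ∈ ball (0 : EuclideanSpace ℂ (Fin n)) 1, ∑ j, f j z * h j z = 1

/-- the union of the Koranyi regions of aperture `R` with vertices in `K` -/
def koranyi {n : ℕ} (K : Set (EuclideanSpace ℂ (Fin n))) (R : ℝ) :
    Set (EuclideanSpace ℂ (Fin n)) :=
  {z | ‖z‖ < 1 ∧ ∃ ζ ∈ K, ‖1 - ⟪z, ζ⟫_ℂ‖ ≤ R * (1 - ‖z‖ ^ 2)}

/-- the boundary points `p` at which `h` is bounded along the sequence `r_i p` -/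
def bddAt {n N : ℕ} (r : ℕ → ℝ) (h : Fin N → EuclideanSpace ℂ (Fin n) → ℂ) :
    Set (sphere (0 : EuclideanSpace ℂ (Fin n)) 1) :=
  {p | ∃ C : ℝ, ∀ i j, ‖h j ((r i : ℂ) • (p : EuclideanSpace ℂ (Fin n)))‖ ≤ C}

/-- `f` has a holomorphic solution on the unit ball which is bounded, along some sequence of radii with
limit `1`, at a non meager set of boundary points -/
def NonMeagerSol {n N : ℕ} (f : Fin N → EuclideanSpace ℂ (Fin n) → ℂ) : Prop :=
  ∃ h, IsSol f h ∧ ∃ r : ℕ → ℝ, (∀ i, 0 ≤ r i ∧ r i < 1) ∧ Tendsto r atTop (𝓝 1) ∧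
    ¬ IsMeagre (bddAt r h)

theorem normalize {n N : ℕ} {f : Fin N → EuclideanSpace ℂ (Fin n) → ℂ}
    (hf : IsData (ball 0 1) f) : ∃ K : ℝ, 0 < K ∧ ∃ δ > 0,
      (∀ j, DifferentiableOn ℂ (fun z => (K : ℂ)⁻¹ * f j z) (ball 0 1)) ∧
      ∀ z ∈ ball (0 : EuclideanSpace ℂ (Fin n)) 1,
        δ ≤ ∑ j, ‖(K : ℂ)⁻¹ * f j z‖ ^ 2 ∧ ∑ j, ‖(K : ℂ)⁻¹ * f j z‖ ^ 2 ≤ 1 := by
  obtain ⟨hf, δ, hδ, hfδ⟩ := hf
  choose hfd M hM using hf
  set K : ℝ := 1 + ∑ j, |M j| with hK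
  have hs0 : 0 ≤ ∑ j, |M j| := Finset.sum_nonneg fun j _ => abs_nonneg _
  have hK0 : 0 < K := by linarith
  have hup : ∀ z ∈ ball (0 : EuclideanSpace ℂ (Fin n)) 1, ∑ j, ‖f j z‖ ^ 2 ≤ K ^ 2 := by
    intro z hz
    calc ∑ j, ‖f j z‖ ^ 2 ≤ ∑ j, |M j| ^ 2 := Finset.sum_le_sum fun j _ =>
          pow_le_pow_left₀ (norm_nonneg _) ((hM j z hz).trans (le_abs_self _)) 2
      _ ≤ (∑ j, |M j|) ^ 2 := Finset.sum_sq_le_sq_sum_of_nonneg fun j _ => abs_nonneg _
      _ ≤ K ^ 2 := pow_le_pow_left₀ hs0 (by linarith) 2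
  have hng : ∀ j z, ‖((K : ℂ)⁻¹) * f j z‖ ^ 2 = ‖f j z‖ ^ 2 / K ^ 2 := by
    intro j z
    rw [norm_mul, norm_inv, Complex.norm_real, Real.norm_of_nonneg hK0.le]
    field_simp
  refine ⟨K, hK0, δ / K ^ 2, by positivity, fun j => (hfd j).const_mul _, fun z hz => ?_⟩
  simp only [hng]
  rw [← Finset.sum_div]
  constructor
  · exact div_le_div_of_nonneg_right (hfδ z hz) (by positivity)
  · rw [div_le_one (by positivity)]
    exact hup z hz

theorem lines {n N : ℕ} (hn : 2 ≤ n) {f : Fin N → EuclideanSpace ℂ (Fin n) → ℂ}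
    (hf : IsData (ball 0 1) f) {K : ℕ → Set (EuclideanSpace ℂ (Fin n))}
    (hK : ∀ k, IsCompact (K k) ∧ K k ⊆ sphere 0 1 ∧
      ∃ a v : EuclideanSpace ℂ (Fin n), ∀ ζ ∈ K k, ∃ c : ℂ, ζ = a + c • v)
    (hd : ∀ i k, i ≠ k → Disjoint (K i) (K k)) :
    ∃ h, IsSol f h ∧ ∀ (k : ℕ) (R : ℝ), ∃ C : ℝ, ∀ z ∈ koranyi (K k) R, ∀ j, ‖h j z‖ ≤ C := by
  obtain ⟨m, rfl⟩ : ∃ m, n = m + 1 := ⟨n - 1, by omega⟩
  have hdim : Module.finrank ℂ (EuclideanSpace ℂ (Fin (m + 1))) = m + 1 := by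
    rw [finrank_euclideanSpace_fin]
  obtain ⟨A, hA, δ, hδ, hF, hFb⟩ := normalize hf
  have hF1 : ∀ j, ∀ z ∈ ball (0 : EuclideanSpace ℂ (Fin (m + 1))) 1,
      ‖(A : ℂ)⁻¹ * f j z‖ ≤ 1 := by
    intro j z hz
    have h2 := (hFb z hz).2
    have h3 : ‖(A : ℂ)⁻¹ * f j z‖ ^ 2 ≤ ∑ j, ‖(A : ℂ)⁻¹ * f j z‖ ^ 2 :=
      Finset.single_le_sum (f := fun j => ‖(A : ℂ)⁻¹ * f j z‖ ^ 2) (fun _ _ => sq_nonneg _)
        (Finset.mem_univ j)
    nlinarith [norm_nonneg ((A : ℂ)⁻¹ * f j z)]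
  obtain ⟨h, h1, h2, h3⟩ := Pool.Agent.MPca0fc2.XC.induct
    (f := fun j z => (A : ℂ)⁻¹ * f j z) (K := K) (fun k => (hK k).2.1) (fun k => (hK k).1) hd
    (fun k => Pool.Agent.MPca0fc2.XC.line_KBd hn hδ hF hFb (hK k).2.1 (hK k).2.2)
    (fun L hL h g hh hg hgL ε hε => Pool.Agent.MPca0fc2.XC.step MeasureTheory.volume
      (by omega) hdim hF hF1 hL hh hg hgL hε)
  refine ⟨fun j z => (A : ℂ)⁻¹ * h j z, ⟨fun j => (h1 j).const_mul _, fun z hz => ?_⟩,
    fun k R => ?_⟩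
  · rw [← h2 z hz]
    exact Finset.sum_congr rfl fun j _ => by ring
  · obtain ⟨C, hC⟩ := h3 k R
    refine ⟨A⁻¹ * C, fun z hz j => ?_⟩
    rw [norm_mul, norm_inv, Complex.norm_real, Real.norm_of_nonneg hA.le]
    exact mul_le_mul_of_nonneg_left (hC z hz j) (inv_nonneg.2 hA.le)

theorem sphere_nonmeager {n : ℕ} (hn : 1 ≤ n) :
    ¬ IsMeagre (univ : Set (sphere (0 : EuclideanSpace ℂ (Fin n)) 1)) := by
  have hp : (EuclideanSpace.single ⟨0, hn⟩ 1 : EuclideanSpace ℂ (Fin n)) ∈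
      sphere (0 : EuclideanSpace ℂ (Fin n)) 1 := by
    rw [mem_sphere_zero_iff_norm]
    simp
  have : Nonempty (sphere (0 : EuclideanSpace ℂ (Fin n)) 1) := ⟨⟨_, hp⟩⟩
  intro h
  have h2 : (univ : Set (sphere (0 : EuclideanSpace ℂ (Fin n)) 1))ᶜ ∈ residual _ := h
  rw [compl_univ] at h2
  exact (dense_of_mem_residual h2).nonempty.ne_empty rfl

theorem somewhere_of {n N : ℕ} (hn : 2 ≤ n) {δ : ℝ} (f : Data n N δ)
    (h : NonMeagerSol fun j z => ext f.1 z j) :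
    Pool.Agent.MPca0fc2AD.SomewhereSolvable f.1 := by
  obtain ⟨h, ⟨h1, h2⟩, r, hr, hr1, hm⟩ := h
  obtain ⟨p, hp, s, hs, M, hM⟩ := Pool.Agent.MPca0fc2.XC.baire_bd hn h1 hr hr1 hm
  refine ⟨p, mem_sphere_zero_iff_norm.2 hp, s, hs, (N + 1) * |M|, ?_⟩
  rw [Pool.Agent.MPca0fc2AD.hasSolution_iff]
  refine ⟨fun z => WithLp.toLp 2 fun j => h j z, ?_, fun z hz => ?_, fun z hz => h2 z hz.1⟩
  · intro z hz
    rw [differentiableWithinAt_euclidean]
    intro j
    exact ((h1 j) z hz.1).mono inter_subset_left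
  · have hz1 : ‖z‖ < 1 := mem_ball_zero_iff.1 hz.1
    have hz2 : ‖z - p‖ < s := by rw [← dist_eq_norm]; exact hz.2
    have h3 : ∀ j, ‖h j z‖ ≤ |M| := fun j => (hM z hz1 hz2 j).trans (le_abs_self _)
    rw [EuclideanSpace.norm_eq]
    have h4 : √(∑ j, ‖(WithLp.toLp 2 fun j => h j z : EuclideanSpace ℂ (Fin N)) j‖ ^ 2) ≤
        √(∑ _j : Fin N, |M| ^ 2) :=
      Real.sqrt_le_sqrt (Finset.sum_le_sum fun j _ =>
        pow_le_pow_left₀ (norm_nonneg _) (h3 j) 2)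
    refine h4.trans ?_
    rw [Finset.sum_const, Finset.card_univ, Fintype.card_fin, nsmul_eq_mul,
      Real.sqrt_mul (by positivity), Real.sqrt_sq (abs_nonneg _)]
    refine mul_le_mul_of_nonneg_right ?_ (abs_nonneg _)
    rw [Real.sqrt_le_left (by positivity)]
    nlinarith [(Nat.cast_nonneg N : (0 : ℝ) ≤ N)]

theorem result {n N : ℕ} (hn : 2 ≤ n) :
    -- one solution for all data and all sequences of disjoint compact subsets of complex lines
    (∀ f : Fin N → EuclideanSpace ℂ (Fin n) → ℂ, IsData (ball 0 1) f →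
      ∀ K : ℕ → Set (EuclideanSpace ℂ (Fin n)), (∀ k, IsCompact (K k) ∧ K k ⊆ sphere 0 1 ∧
        ∃ a v : EuclideanSpace ℂ (Fin n), ∀ ζ ∈ K k, ∃ c : ℂ, ζ = a + c • v) →
      (∀ i k, i ≠ k → Disjoint (K i) (K k)) →
      ∃ h, IsSol f h ∧ ∀ (k : ℕ) (R : ℝ), ∃ C : ℝ, ∀ z ∈ koranyi (K k) R, ∀ j, ‖h j z‖ ≤ C) ∧
    (1 ≤ N → List.TFAE [
      -- (a) Q1 for `N` functions on all strictly pseudoconvex domains in `ℂᵐ`, `2 ≤ m ≤ n`
      ∀ m, 2 ≤ m → m ≤ n → ∀ D : Set (EuclideanSpace ℂ (Fin m)), IsStrictlyPscDomain D →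
        ∀ f : Fin N → EuclideanSpace ℂ (Fin m) → ℂ, IsData D f →
          ∃ h : Fin N → EuclideanSpace ℂ (Fin m) → ℂ, (∀ j, IsHinf D (h j)) ∧
            ∀ z ∈ D, ∑ j, f j z * h j z = 1,
      -- (b) all data on the ball have a solution which is bounded at a non meager set
      ∀ f : Fin N → EuclideanSpace ℂ (Fin n) → ℂ, IsData (ball 0 1) f → NonMeagerSol f,
      -- (c) the data with such a solution are not meager
      ∀ δ ∈ Ioo (0 : ℝ) 1, ¬ IsMeagre {f : Data n N δ | NonMeagerSol fun j z => ext f.1 z j}]) := by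
  refine ⟨fun f hf K hK hd => lines hn hf hK hd, fun hN => ?_⟩
  have hn1 : 1 ≤ n := by omega
  tfae_have 1 → 2 := by
    intro hQ f hf
    obtain ⟨h, h1, h2⟩ := hQ n hn le_rfl _ Pool.Agent.MPca0fc2.TB.isStrictlyPscDomain_ball f hf
    choose hd M hM using h1
    have hr : ∀ i : ℕ, 0 ≤ (i : ℝ) / (i + 1) ∧ (i : ℝ) / (i + 1) < 1 := fun i =>
      ⟨by positivity, by rw [div_lt_one (by positivity)]; linarith⟩
    refine ⟨h, ⟨hd, h2⟩, fun i => i / (i + 1), hr, tendsto_natCast_div_add_atTop 1, ?_⟩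
    have e : bddAt (fun i : ℕ => (i : ℝ) / (i + 1)) h = univ := by
      refine eq_univ_of_forall fun p => ⟨∑ j, |M j|, fun i j => ?_⟩
      refine (hM j _ ?_).trans ((le_abs_self _).trans (Finset.single_le_sum
        (f := fun j => |M j|) (fun _ _ => abs_nonneg _) (Finset.mem_univ j)))
      rw [mem_ball_zero_iff, norm_smul, Complex.norm_real, Real.norm_of_nonneg (hr i).1,
        mem_sphere_zero_iff_norm.1 p.2, mul_one]
      exact (hr i).2
    rw [e]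
    exact sphere_nonmeager hn1
  tfae_have 2 → 3 := by
    intro hb δ hδ hm
    have e : {f : Data n N δ | NonMeagerSol fun j z => ext f.1 z j} = univ := by
      refine eq_univ_of_forall fun f => hb _ ⟨fun j =>
        ⟨(EuclideanSpace.proj (𝕜 := ℂ) j).differentiable.comp_differentiableOn
          (Pool.Agent.MPca0fc2.ZL.data_bounds f).1,
          1, fun z hz => ((Pool.Agent.MPca0fc2.ZL.data_bounds f).2 z hz).1 j⟩,
        δ ^ 2, by have := hδ.1; positivity, fun z hz => by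
          rw [← EuclideanSpace.norm_sq_eq]
          exact pow_le_pow_left₀ hδ.1.le ((Pool.Agent.MPca0fc2.ZL.data_bounds f).2 z hz).2 2⟩
    rw [e] at hm
    have := Pool.Agent.MPca0fc2.ZL.baire_data (n := n) (N := N) δ
    have hne : Nonempty (Data n N δ) :=
      (Pool.Agent.MPca0fc2.ZL.data_nonempty hN hδ.2.le).to_subtype
    have h2 : (univ : Set (Data n N δ))ᶜ ∈ residual _ := hm
    rw [compl_univ] at h2
    exact (dense_of_mem_residual h2).nonempty.ne_empty rfl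
  tfae_have 3 → 1 := by
    intro hc m hm hmn D hD f hf
    have h1 := ((Pool.Agent.MPca0fc2AD.result (n := n) (N := N) hn hN).out 7 0).1
      (fun δ hδ h => hc δ hδ (IsMeagre.mono (fun f hf => somewhere_of hn f hf) h))
    exact h1 m hm hmn D hD f hf.1 hf.2
  tfae_finish

end Pool.Agent.Results.MP_ca0fc2_an.ExceptionalSets
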