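import Pool.Agent.Lib.MP_ca0fc2_an.XC.SE
import Pool.Agent.Lib.MP_ca0fc2_an.XC.X14
import Pool.Agent.Lib.MP_ca0fc2_an.XC.X15
import Pool.Agent.Lib.MP_ca0fc2_an.CE.A1
import Pool.Agent.Lib.MP_ca0fc2_an.XC.AD
import Pool.Agent.Lib.MP_ca0fc2_an.CGInv
import Pool.Agent.Lib.MP_ca0fc2_an.DACls
import Pool.Agent.Lib.MP_ca0fc2_an.TK.K8
import Pool.Agent.Lib.MP_ca0fc2_an.Mg.G128
import Pool.Agent.Lib.MP_ca0fc2_an.TQ.W9

/-!
# Sets on which all corona problems of the ball have bounded solutions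
-/

set_option autoImplicit false

open Metric Set Filter Topology MeasureTheory
open scoped InnerProductSpace
open Pool.Agent.Lib.MP_ca0fc2_an
open Pool.Agent.Lib.MP_ca0fc2_an.ZL

namespace Pool.Agent.Results.MP_ca0fc2_an.GeodesicTubes

/-- corona data on `D` -/
def IsData {n N : ℕ} (D : Set (EuclideanSpace ℂ (Fin n)))
    (f : Fin N → EuclideanSpace ℂ (Fin n) → ℂ) : Prop :=
  (∀ j, IsHinf D (f j)) ∧ ∃ δ > 0, ∀ z ∈ D, δ ≤ ∑ j, ‖f j z‖ ^ 2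

/-- Q1 for `N` functions on all strictly pseudoconvex domains in `ℂᵐ`, `2 ≤ m ≤ k` -/
def Q1Upto (N k : ℕ) : Prop :=
  ∀ m, 2 ≤ m → m ≤ k → ∀ D : Set (EuclideanSpace ℂ (Fin m)), IsStrictlyPscDomain D →
    ∀ f : Fin N → EuclideanSpace ℂ (Fin m) → ℂ, IsData D f →
      ∃ h : Fin N → EuclideanSpace ℂ (Fin m) → ℂ, (∀ j, IsHinf D (h j)) ∧
        ∀ z ∈ D, ∑ j, f j z * h j z = 1

/-- the square of `cosh (d (z, w))`, where `d` is the hyperbolic distance -/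
noncomputable def ch {n : ℕ} (z w : EuclideanSpace ℂ (Fin n)) : ℝ :=
  ‖1 - ⟪z, w⟫_ℂ‖ ^ 2 / ((1 - ‖z‖ ^ 2) * (1 - ‖w‖ ^ 2))

/-- totally geodesic holomorphic embeddings of the ball of `ℂᵏ` in the ball of `ℂⁿ` -/
def GeodMap {n k : ℕ} (Φ : EuclideanSpace ℂ (Fin k) → EuclideanSpace ℂ (Fin n)) : Prop :=
  ∃ φ ψ : EuclideanSpace ℂ (Fin n) → EuclideanSpace ℂ (Fin n), IsBallAut φ ψ ∧
    ∃ ι : EuclideanSpace ℂ (Fin k) →ₗᵢ[ℂ] EuclideanSpace ℂ (Fin n), ∀ v, Φ v = φ (ι v)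

/-- complex totally geodesic submanifolds of the ball of dimension `k` -/
def ComplexGeod {n : ℕ} (k : ℕ) (L : Set (EuclideanSpace ℂ (Fin n))) : Prop :=
  ∃ Φ : EuclideanSpace ℂ (Fin k) → EuclideanSpace ℂ (Fin n), GeodMap Φ ∧ L = Φ '' ball 0 1

/-- homogeneous sets of dimension `β` with respect to `|1 - <x, y>|` (the exponents `β` for which this
holds, for some `C`, are those above the Assouad dimension) -/
def Homogeneous {n : ℕ} (β C : ℝ) (K : Set (EuclideanSpace ℂ (Fin n))) : Prop :=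
  ∀ x₀ ∈ K, ∀ r R : ℝ, 0 < r → r ≤ R → ∀ S : Finset (EuclideanSpace ℂ (Fin n)),
    (S : Set (EuclideanSpace ℂ (Fin n))) ⊆ K → (∀ x ∈ S, ‖1 - ⟪x, x₀⟫_ℂ‖ < R) →
    (∀ x ∈ S, ∀ y ∈ S, x ≠ y → r ≤ ‖1 - ⟪x, y⟫_ℂ‖) → (S.card : ℝ) ≤ C * (R / r) ^ β

/-- the union of the radii with end points in `K` -/
def cone {n : ℕ} (K : Set (EuclideanSpace ℂ (Fin n))) : Set (EuclideanSpace ℂ (Fin n)) :=
  {z | ∃ t : ℝ, 0 ≤ t ∧ t < 1 ∧ ∃ ζ ∈ K, z = (t : ℂ) • ζ}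

/-- totally real totally geodesic submanifolds of the ball (of any dimension), and images under
automorphisms of the ball of cones over homogeneous subsets of the sphere -/
def Thin {n : ℕ} (β C : ℝ) (M : Set (EuclideanSpace ℂ (Fin n))) : Prop :=
  ∃ φ ψ : EuclideanSpace ℂ (Fin n) → EuclideanSpace ℂ (Fin n), IsBallAut φ ψ ∧
    ((∃ (k : ℕ) (e : Fin k → EuclideanSpace ℂ (Fin n)), Orthonormal ℂ e ∧
      M = φ '' {x | ‖x‖ < 1 ∧ ∃ t : Fin k → ℝ, x = ∑ j, ((t j : ℝ) : ℂ) • e j}) ∨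
    ∃ K : Set (EuclideanSpace ℂ (Fin n)), K ⊆ sphere 0 1 ∧ Homogeneous β C K ∧ M = φ '' cone K)

/-- `h` is a holomorphic solution on the ball which grows at most like the distance from `L`, and at
most like `log k` plus the distance from `M k` -/
structure Grows {n N : ℕ} (C : ℝ) (L : Set (EuclideanSpace ℂ (Fin n)))
    (M : ℕ → Set (EuclideanSpace ℂ (Fin n)))
    (f h : Fin N → EuclideanSpace ℂ (Fin n) → ℂ) : Prop where
  holo : ∀ j, DifferentiableOn ℂ (h j) (ball 0 1)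
  sol : ∀ z ∈ ball (0 : EuclideanSpace ℂ (Fin n)) 1, ∑ j, f j z * h j z = 1
  dist : ∀ z ∈ ball (0 : EuclideanSpace ℂ (Fin n)) 1, ∀ w ∈ L, ∀ j,
    ‖h j z‖ ≤ C * (1 + Real.log (ch z w))
  seq : ∀ z ∈ ball (0 : EuclideanSpace ℂ (Fin n)) 1, ∀ k, ∀ w ∈ M k, ∀ j,
    ‖h j z‖ ≤ C * (1 + Real.log (k + 1) + Real.log (ch z w))

/-- For each `δ > 0` there is `C` such that for all data with `δ ≤ ∑ |f_j|² ≤ 1` on the ball, all `L` of
the class and all sequences of thin sets `M k`, in arbitrary position, there is one solution which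
grows at most like the distance from `L`, and at most like `log k` plus the distance from `M k`. -/
def UniformGrowth {n : ℕ} (N : ℕ) (β C₀ : ℝ) (𝓛 : Set (Set (EuclideanSpace ℂ (Fin n)))) : Prop :=
  ∀ δ > 0, ∃ C : ℝ, 0 < C ∧ ∀ f : Fin N → EuclideanSpace ℂ (Fin n) → ℂ,
    (∀ j, DifferentiableOn ℂ (f j) (ball 0 1)) →
    (∀ z ∈ ball (0 : EuclideanSpace ℂ (Fin n)) 1, δ ≤ ∑ j, ‖f j z‖ ^ 2 ∧ ∑ j, ‖f j z‖ ^ 2 ≤ 1) →
    ∀ L ∈ 𝓛, ∀ M : ℕ → Set (EuclideanSpace ℂ (Fin n)), (∀ k, Thin β C₀ (M k)) →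
      ∃ h, Grows C L M f h

/-- All bounded solutions `g` on complex totally geodesic submanifolds `L` (of any dimension) extend
to solutions with the same growth. -/
def UniformExtension (n N : ℕ) (β C₀ : ℝ) : Prop :=
  ∀ δ > 0, ∀ A > 0, ∃ C : ℝ, 0 < C ∧ ∀ f : Fin N → EuclideanSpace ℂ (Fin n) → ℂ,
    (∀ j, DifferentiableOn ℂ (f j) (ball 0 1)) →
    (∀ z ∈ ball (0 : EuclideanSpace ℂ (Fin n)) 1, δ ≤ ∑ j, ‖f j z‖ ^ 2 ∧ ∑ j, ‖f j z‖ ^ 2 ≤ 1) →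
    ∀ (k : ℕ) (Φ : EuclideanSpace ℂ (Fin k) → EuclideanSpace ℂ (Fin n)), GeodMap Φ →
    ∀ g : Fin N → EuclideanSpace ℂ (Fin k) → ℂ, (∀ j, DifferentiableOn ℂ (g j) (ball 0 1)) →
    (∀ v ∈ ball (0 : EuclideanSpace ℂ (Fin k)) 1,
      ∑ j, f j (Φ v) * g j v = 1 ∧ ∑ j, ‖g j v‖ ^ 2 ≤ A ^ 2) →
    ∀ M : ℕ → Set (EuclideanSpace ℂ (Fin n)), (∀ k, Thin β C₀ (M k)) →
      ∃ h, Grows C (Φ '' ball 0 1) M f h ∧
        ∀ v ∈ ball (0 : EuclideanSpace ℂ (Fin k)) 1, ∀ j, h j (Φ v) = g j v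

/-- all data on the ball have holomorphic solutions on the ball which are bounded on `M` -/
def SomeBounded {n : ℕ} (N : ℕ) (M : Set (EuclideanSpace ℂ (Fin n))) : Prop :=
  ∀ f : Fin N → EuclideanSpace ℂ (Fin n) → ℂ, IsData (ball 0 1) f →
    ∃ h : Fin N → EuclideanSpace ℂ (Fin n) → ℂ, (∀ j, DifferentiableOn ℂ (h j) (ball 0 1)) ∧
      (∀ z ∈ ball (0 : EuclideanSpace ℂ (Fin n)) 1, ∑ j, f j z * h j z = 1) ∧
      ∃ A : ℝ, ∀ z ∈ M, ∀ j, ‖h j z‖ ≤ A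

/-- `Ω` contains hyperbolic balls of every radius -/
def Thick {n : ℕ} (Ω : Set (EuclideanSpace ℂ (Fin n))) : Prop :=
  ∀ R : ℝ, ∃ a ∈ ball (0 : EuclideanSpace ℂ (Fin n)) 1,
    ∀ z ∈ ball (0 : EuclideanSpace ℂ (Fin n)) 1, ch z a < R → z ∈ Ω

/-- all data on the ball have solutions which are holomorphic and bounded on `Ω` -/
def SolvableOn {n : ℕ} (N : ℕ) (Ω : Set (EuclideanSpace ℂ (Fin n))) : Prop :=
  ∀ f : Fin N → EuclideanSpace ℂ (Fin n) → ℂ, IsData (ball 0 1) f →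
    ∃ h : Fin N → EuclideanSpace ℂ (Fin n) → ℂ, (∀ j, IsHinf Ω (h j)) ∧
      ∀ z ∈ Ω, ∑ j, f j z * h j z = 1

/-- for all data there is one holomorphic solution on the ball which is bounded on every tube
`{z | ch z w ≤ R for some w ∈ M i}` around every `M i` -/
def Simultaneous {n : ℕ} {ι : Type} (N : ℕ) (M : ι → Set (EuclideanSpace ℂ (Fin n))) : Prop :=
  ∀ f : Fin N → EuclideanSpace ℂ (Fin n) → ℂ, IsData (ball 0 1) f →
    ∃ h : Fin N → EuclideanSpace ℂ (Fin n) → ℂ, (∀ j, DifferentiableOn ℂ (h j) (ball 0 1)) ∧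
      (∀ z ∈ ball (0 : EuclideanSpace ℂ (Fin n)) 1, ∑ j, f j z * h j z = 1) ∧
      ∀ (i : ι) (R : ℝ), ∃ A : ℝ, ∀ z ∈ ball (0 : EuclideanSpace ℂ (Fin n)) 1, ∀ w ∈ M i,
        ch z w ≤ R → ∀ j, ‖h j z‖ ≤ A

/-- the ball -/
theorem q1_ball {n N : ℕ} (hn : 2 ≤ n) (hN : 1 ≤ N) :
    Q1Upto N n ↔ Pool.Agent.MPca0fc2AD.Q1On N (ball (0 : EuclideanSpace ℂ (Fin n)) 1) := by
  have h := Pool.Agent.MPca0fc2AD.result (n := n) (N := N) hn hN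
  have h1 := h.out 0 2
  constructor
  · intro hQ
    exact h1.1 fun m hm hmn D hD f hf hδ => hQ m hm hmn D hD f ⟨hf, hδ⟩
  · intro hQ m hm hmn D hD f hf
    exact h1.2 hQ m hm hmn D hD f hf.1 hf.2

theorem ch_pos {n : ℕ} {z w : EuclideanSpace ℂ (Fin n)} (hz : ‖z‖ < 1) (hw : ‖w‖ < 1) :
    1 ≤ ch z w := by
  have h1 : 0 < 1 - ‖z‖ ^ 2 := by nlinarith [norm_nonneg z]
  have h2 : 0 < 1 - ‖w‖ ^ 2 := by nlinarith [norm_nonneg w]
  unfold ch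
  rw [one_le_div (by positivity)]
  have h3 : ‖⟪z, w⟫_ℂ‖ ≤ ‖z‖ * ‖w‖ := norm_inner_le_norm z w
  have h4 : 1 - ‖z‖ * ‖w‖ ≤ ‖1 - ⟪z, w⟫_ℂ‖ := by
    have h5 := norm_sub_norm_le (1 : ℂ) ⟪z, w⟫_ℂ
    rw [norm_one] at h5
    linarith
  have h6 : 0 ≤ 1 - ‖z‖ * ‖w‖ := by nlinarith [norm_nonneg z, norm_nonneg w]
  have h7 : (1 - ‖z‖ * ‖w‖) ^ 2 ≤ ‖1 - ⟪z, w⟫_ℂ‖ ^ 2 := pow_le_pow_left₀ h6 h4 2
  nlinarith [sq_nonneg (‖z‖ - ‖w‖)]

theorem ch_eq {n : ℕ} (z w : EuclideanSpace ℂ (Fin n)) :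
    ch z w = (Pool.Agent.MPca0fc2.PT.HH z w)⁻¹ := by
  unfold ch Pool.Agent.MPca0fc2.PT.HH
  rw [inv_div]

theorem ch_aut {n : ℕ} {φ ψ : EuclideanSpace ℂ (Fin n) → EuclideanSpace ℂ (Fin n)}
    (h : IsBallAut φ ψ) {z w : EuclideanSpace ℂ (Fin n)} (hz : ‖z‖ < 1) (hw : ‖w‖ < 1) :
    ch (φ z) (φ w) = ch z w := by
  rw [ch_eq, ch_eq, Pool.Agent.MPca0fc2.CG.HH_aut h hz hw]

theorem ch_gg {n : ℕ} {a x : EuclideanSpace ℂ (Fin n)} (ha : ‖a‖ < 1) (hx : ‖x‖ < 1) :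
    ch (Pool.Agent.MPca0fc2.PT.gg a x) a = 1 / (1 - ‖x‖ ^ 2) := by
  have h := ch_aut (Pool.Agent.MPca0fc2.DA.gg_isAut ha) hx (w := 0) (by simp)
  rw [Pool.Agent.MPca0fc2.PT.gg_zero] at h
  rw [h]
  unfold ch
  simp

/-- open sets which contain arbitrarily large hyperbolic balls -/
theorem thick_iff {n N : ℕ} (hn : 2 ≤ n) (hN : 1 ≤ N) {Ω : Set (EuclideanSpace ℂ (Fin n))}
    (hΩo : IsOpen Ω) (hΩ1 : Ω ⊆ ball 0 1)
    (hΩ : ∀ R : ℝ, ∃ a ∈ ball (0 : EuclideanSpace ℂ (Fin n)) 1,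
      ∀ z ∈ ball (0 : EuclideanSpace ℂ (Fin n)) 1, ch z a < R → z ∈ Ω) :
    SolvableOn N Ω ↔ Q1Upto N n := by
  have hn1 : 1 ≤ n := by omega
  constructor
  · intro hS
    rw [q1_ball hn hN]
    have hfe := (Pool.Agent.MPca0fc2AD.result (n := n) (N := N) hn hN).out 2 3
    refine hfe.2 ?_
    rcases hN.eq_or_lt with h1 | h1
    · subst h1
      exact Pool.Agent.MPca0fc2AD.uniform_one
    have hgg : ∀ k : ℝ, k < 1 → ∃ a : EuclideanSpace ℂ (Fin n), ‖a‖ < 1 ∧ ∀ x, ‖x‖ < k →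
        Pool.Agent.MPca0fc2.PT.gg a x ∈ Ω := by
      intro k hk
      obtain ⟨a, ha, hz⟩ := hΩ (1 / (1 - (max k 0) ^ 2))
      rw [mem_ball_zero_iff] at ha
      refine ⟨a, ha, fun x hx => ?_⟩
      have hx1 : ‖x‖ < 1 := hx.trans hk
      have hk0 : k = max k 0 := (max_eq_left ((norm_nonneg x).trans hx.le)).symm
      refine hz _ (mem_ball_zero_iff.2 (Pool.Agent.MPca0fc2.PT.gg_lt ha hx1)) ?_
      rw [ch_gg ha hx1, ← hk0]
      have hk1 : 0 ≤ k := (norm_nonneg x).trans hx.le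
      have h2 : 0 < 1 - k ^ 2 := by nlinarith
      have h3 : 1 - k ^ 2 < 1 - ‖x‖ ^ 2 := by nlinarith [norm_nonneg x]
      exact one_div_lt_one_div_of_lt h2 h3
    intro δ₀ hδ₀
    have hδ : min δ₀ (1 / 2) ∈ Ioo (0 : ℝ) 1 :=
      ⟨lt_min hδ₀ (by norm_num), (min_le_right _ _).trans_lt (by norm_num)⟩
    have hres := Pool.Agent.MPca0fc2.TK.gen_thick hn1 h1 hδ.1 hδ.2 hΩo hgg
    have hb := Pool.Agent.MPca0fc2.ZL.baire_data (n := n) (N := N) (min δ₀ (1 / 2))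
    have hne : Nonempty (Data n N (min δ₀ (1 / 2))) :=
      (Pool.Agent.MPca0fc2.ZL.data_nonempty hN hδ.2.le).to_subtype
    obtain ⟨f, hf⟩ := (dense_of_mem_residual hres).nonempty
    obtain ⟨h, hh, hsol⟩ := hS (fun j z => ext f.1 z j)
      ⟨fun j => ⟨(EuclideanSpace.proj (𝕜 := ℂ) j).differentiable.comp_differentiableOn
        (Pool.Agent.MPca0fc2.ZL.data_bounds f).1,
        1, fun z hz => ((Pool.Agent.MPca0fc2.ZL.data_bounds f).2 z hz).1 j⟩,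
      (min δ₀ (1 / 2)) ^ 2, pow_pos hδ.1 2, fun z hz => by
        rw [← EuclideanSpace.norm_sq_eq]
        exact pow_le_pow_left₀ hδ.1.le ((Pool.Agent.MPca0fc2.ZL.data_bounds f).2 z hz).2 2⟩
    choose hd A hA using hh
    have hsv : Pool.Agent.MPca0fc2.TB.Solv (ext f.1) (ball 0 1 ∩ Ω) (∑ j, |A j|) := by
      refine ⟨fun z => WithLp.toLp 2 fun j => h j z, ?_, fun z hz => ?_,
        fun z hz => hsol z hz.2⟩
      · intro z hz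
        rw [differentiableWithinAt_euclidean]
        intro j
        exact ((hd j) z hz.2).mono inter_subset_right
      · have h1 : ∀ j, ‖h j z‖ ≤ |A j| := fun j => (hA j z hz.2).trans (le_abs_self _)
        have h0 : 0 ≤ ∑ j, |A j| := Finset.sum_nonneg fun j _ => abs_nonneg _
        rw [EuclideanSpace.norm_eq, Real.sqrt_le_left h0]
        exact (Finset.sum_le_sum fun j _ => pow_le_pow_left₀ (norm_nonneg _) (h1 j) 2).trans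
          (Finset.sum_sq_le_sq_sum_of_nonneg fun j _ => abs_nonneg _)
    have h2 := Pool.Agent.MPca0fc2AD.uniform_of_data hδ.1 (hf _ hsv)
    refine ⟨|(∑ j, |A j|)|, fun g hg hgb => h2 g hg fun z hz =>
      ⟨(pow_le_pow_left₀ hδ.1.le (min_le_left _ _) 2).trans (hgb z hz).1, (hgb z hz).2⟩⟩
  · intro hQ f hf
    obtain ⟨h, h1, h2⟩ := (q1_ball hn hN).1 hQ f hf.1 hf.2
    exact ⟨h, fun j => ⟨(h1 j).1.mono hΩ1, (h1 j).2.imp fun A hA z hz => hA z (hΩ1 hz)⟩,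
      fun z hz => h2 z (hΩ1 hz)⟩

theorem den_le {n : ℕ} {w z : EuclideanSpace ℂ (Fin n)} (hw : ‖w‖ < 1) (hz : ‖z‖ < 1) :
    ‖1 - ⟪w, z⟫_ℂ‖ ≤ 2 * ch z w * (1 - ‖z‖ ^ 2) := by
  have h1 : 0 < 1 - ‖z‖ ^ 2 := by nlinarith [norm_nonneg z]
  have h2 : 0 < 1 - ‖w‖ ^ 2 := by nlinarith [norm_nonneg w]
  have hs : ‖1 - ⟪z, w⟫_ℂ‖ = ‖1 - ⟪w, z⟫_ℂ‖ := by
    rw [← Complex.norm_conj, map_sub, map_one, inner_conj_symm]
  have h3 : ‖⟪w, z⟫_ℂ‖ ≤ ‖w‖ * ‖z‖ := norm_inner_le_norm w z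
  have h4 := norm_sub_norm_le (1 : ℂ) ⟪w, z⟫_ℂ
  rw [norm_one] at h4
  have h5 : 1 - ‖w‖ ≤ ‖1 - ⟪w, z⟫_ℂ‖ := by nlinarith [norm_nonneg w]
  obtain ⟨D, hD⟩ : ∃ D, D = ‖1 - ⟪w, z⟫_ℂ‖ := ⟨_, rfl⟩
  have h6 : 1 - ‖w‖ ^ 2 ≤ 2 * D := by rw [hD]; nlinarith [norm_nonneg w]
  have hD0 : 0 ≤ D := by rw [hD]; exact norm_nonneg _
  have e : 2 * ch z w * (1 - ‖z‖ ^ 2) = 2 * D ^ 2 / (1 - ‖w‖ ^ 2) := by
    unfold ch
    rw [hs, ← hD]
    field_simp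
  rw [e, ← hD, le_div_iff₀ h2]
  nlinarith

theorem Thin.cls {n : ℕ} {β C : ℝ} {M : Set (EuclideanSpace ℂ (Fin n))} (h : Thin β C M) :
    Pool.Agent.MPca0fc2.TQ.Cls β C M := by
  obtain ⟨φ, ψ, hφ, ⟨k, e, he, hM⟩ | ⟨K, hK, hK1, hM⟩⟩ := h
  · exact ⟨φ, ψ, hφ, Or.inl ⟨k, e, he, hM⟩⟩
  · exact ⟨φ, ψ, hφ, Or.inr ⟨K, hK1, hK, hM⟩⟩

theorem aut_id {n : ℕ} :
    IsBallAut (id : EuclideanSpace ℂ (Fin n) → EuclideanSpace ℂ (Fin n)) id :=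
  ⟨differentiableOn_id, differentiableOn_id, fun _ h => h, fun _ h => h,
    fun _ _ => rfl, fun _ _ => rfl⟩

/-- the origin -/
theorem thin_zero {n : ℕ} (β C : ℝ) : ∃ M : Set (EuclideanSpace ℂ (Fin n)), Thin β C M ∧
    (0 : EuclideanSpace ℂ (Fin n)) ∈ M :=
  ⟨_, ⟨id, id, aut_id, Or.inl ⟨0, fun j => Fin.elim0 j,
    ⟨fun j => Fin.elim0 j, fun j => Fin.elim0 j⟩, rfl⟩⟩, 0, ⟨by simp, 0, by simp⟩, rfl⟩

theorem ch_self {n : ℕ} {z : EuclideanSpace ℂ (Fin n)} (hz1 : ‖z‖ < 1) : ch z z = 1 := by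
  unfold ch
  have h6 : 0 < 1 - ‖z‖ ^ 2 := by nlinarith [norm_nonneg z]
  have h7 : (1 : ℂ) - ⟪z, z⟫_ℂ = ((1 - ‖z‖ ^ 2 : ℝ) : ℂ) := by
    rw [inner_self_eq_norm_sq_to_K]
    push_cast
    rfl
  rw [h7, Complex.norm_real, Real.norm_of_nonneg h6.le]
  field_simp

/-- the slices -/
theorem range_ball {n k : ℕ} (ι : EuclideanSpace ℂ (Fin k) →ₗᵢ[ℂ] EuclideanSpace ℂ (Fin n)) :
    ι '' ball 0 1 = {x | ‖x‖ < 1 ∧ x ∈ LinearMap.range ι.toLinearMap} := by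
  ext x
  constructor
  · rintro ⟨v, hv, rfl⟩
    rw [mem_ball_zero_iff] at hv
    exact ⟨by rw [ι.norm_map]; exact hv, v, rfl⟩
  · rintro ⟨hx, v, rfl⟩
    have hx' : ‖ι v‖ < 1 := hx
    rw [ι.norm_map] at hx'
    exact ⟨v, mem_ball_zero_iff.2 hx', rfl⟩

theorem geod_iff {n k : ℕ} {M : Set (EuclideanSpace ℂ (Fin n))} : ComplexGeod k M ↔
    ∃ φ ψ : EuclideanSpace ℂ (Fin n) → EuclideanSpace ℂ (Fin n), IsBallAut φ ψ ∧
      ∃ V : Submodule ℂ (EuclideanSpace ℂ (Fin n)), Module.finrank ℂ V = k ∧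
        M = φ '' {x | ‖x‖ < 1 ∧ x ∈ V} := by
  constructor
  · rintro ⟨Φ, ⟨φ, ψ, hφ, ι, hΦ⟩, rfl⟩
    refine ⟨φ, ψ, hφ, LinearMap.range ι.toLinearMap, ?_, ?_⟩
    · rw [LinearMap.finrank_range_of_inj ι.injective, finrank_euclideanSpace_fin]
    · rw [← range_ball, image_image]
      exact image_congr fun v _ => hΦ v
  · rintro ⟨φ, ψ, hφ, V, hV, rfl⟩
    have e : EuclideanSpace ℂ (Fin k) ≃ₗᵢ[ℂ] V :=
      ((stdOrthonormalBasis ℂ V).reindex (finCongr hV)).repr.symm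
    obtain ⟨ι, hι⟩ : ∃ ι : EuclideanSpace ℂ (Fin k) →ₗᵢ[ℂ] EuclideanSpace ℂ (Fin n),
        ι = V.subtypeₗᵢ.comp e.toLinearIsometry := ⟨_, rfl⟩
    have hr : LinearMap.range ι.toLinearMap = V := by
      ext x
      constructor
      · rintro ⟨v, rfl⟩
        rw [hι]
        exact (e v).2
      · intro hx
        refine ⟨e.symm ⟨x, hx⟩, ?_⟩
        rw [hι]
        show ((e (e.symm ⟨x, hx⟩) : V) : EuclideanSpace ℂ (Fin n)) = x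
        rw [e.apply_symm_apply]
    refine ⟨fun v => φ (ι v), ⟨φ, ψ, hφ, ι, fun _ => rfl⟩, ?_⟩
    conv_lhs => rw [← hr, ← range_ball, image_image]

/-- complex lines and points -/
theorem low_growth {n : ℕ} (N : ℕ) (hn : 2 ≤ n) {β C₀ : ℝ} (hβ0 : 0 ≤ β) (hβ1 : β < 1) :
    UniformGrowth N β C₀ {L : Set (EuclideanSpace ℂ (Fin n)) | ∃ k ≤ 1, ComplexGeod k L} := by
  intro δ hδ
  obtain ⟨C, hC, h1⟩ := Pool.Agent.MPca0fc2.TQ.line_seq (C₀ := C₀) hn N hβ0 hβ1 hδ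
  refine ⟨C, hC, fun f hf hb L hL M hM => ?_⟩
  obtain ⟨k, hk, hL⟩ := hL
  obtain ⟨φ, ψ, hφ, V, hV, rfl⟩ := geod_iff.1 hL
  obtain ⟨h, h2, h3, h4⟩ := h1 f hf hb φ ψ hφ V (by omega) M fun i => (hM i).cls
  refine ⟨h, h2, h3, ?_, fun z hz => (h4 z hz).2⟩
  rintro z hz _ ⟨x, ⟨hx, hxV⟩, rfl⟩ j
  exact (h4 z hz).1 ⟨x, hxV⟩ (mem_ball_zero_iff.2 hx) j

theorem extension {n : ℕ} (N : ℕ) (hn : 2 ≤ n) {β C₀ : ℝ} (hβ0 : 0 ≤ β) (hβ1 : β < 1) :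
    UniformExtension n N β C₀ := by
  intro δ hδ A hA
  obtain ⟨C, hC, h1⟩ := Pool.Agent.MPca0fc2.TQ.ext_seq (C₀ := C₀) hn N hβ0 hβ1 hδ hA
  refine ⟨C, hC, fun f hf hb k Φ hΦ g hg hgs M hM => ?_⟩
  obtain ⟨φ, ψ, hφ, ι, hι⟩ := hΦ
  have hsub : ∀ v : LinearMap.range ι.toLinearMap, v ∈ ball (0 : LinearMap.range ι.toLinearMap) 1 →
      ι.equivRange.symm v ∈ ball (0 : EuclideanSpace ℂ (Fin k)) 1 := by
    intro v hv
    rw [mem_ball_zero_iff] at hv ⊢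
    rw [LinearIsometryEquiv.norm_map]
    exact hv
  have hΦv : ∀ v : LinearMap.range ι.toLinearMap,
      Φ (ι.equivRange.symm v) = φ (v : EuclideanSpace ℂ (Fin n)) := by
    intro v
    rw [hι]
    congr 1
    have h2 := ι.equivRange.apply_symm_apply v
    exact congrArg Subtype.val h2
  obtain ⟨h, h2, h3, h4, h5⟩ := h1 f hf hb φ ψ hφ (LinearMap.range ι.toLinearMap)
    (fun j v => g j (ι.equivRange.symm v)) (fun j => (hg j).comp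
      (ι.equivRange.symm.toContinuousLinearEquiv.differentiable).differentiableOn hsub)
    (fun v hv => by
      have h6 := hgs _ (hsub v hv)
      rw [hΦv] at h6
      exact h6) M fun i => (hM i).cls
  refine ⟨h, ⟨h2, h3, ?_, fun z hz => (h5 z hz).2⟩, fun v hv j => ?_⟩
  · rintro z hz _ ⟨v, hv, rfl⟩ j
    have h6 := (h5 z hz).1 (ι.equivRange v) (by
      rw [mem_ball_zero_iff] at hv ⊢
      rw [LinearIsometryEquiv.norm_map]
      exact hv) j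
    rw [← hΦv, ι.equivRange.symm_apply_apply] at h6
    exact h6
  · have h6 := h4 (ι.equivRange v) (by
      rw [mem_ball_zero_iff] at hv ⊢
      rw [LinearIsometryEquiv.norm_map]
      exact hv) j
    rw [← hΦv, ι.equivRange.symm_apply_apply] at h6
    exact h6

theorem normalize {n N : ℕ} {f : Fin N → EuclideanSpace ℂ (Fin n) → ℂ}
    (hf : IsData (ball 0 1) f) : ∃ K : ℝ, 0 < K ∧ ∃ δ > 0,
      (∀ j, DifferentiableOn ℂ (fun z => (K : ℂ)⁻¹ * f j z) (ball 0 1)) ∧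
      ∀ z ∈ ball (0 : EuclideanSpace ℂ (Fin n)) 1,
        δ ≤ ∑ j, ‖(K : ℂ)⁻¹ * f j z‖ ^ 2 ∧ ∑ j, ‖(K : ℂ)⁻¹ * f j z‖ ^ 2 ≤ 1 := by
  obtain ⟨hf, δ, hδ, hfδ⟩ := hf
  choose hfd M hM using hf
  set K : ℝ := 1 + ∑ j, |M j| with hK
  have hs0 : 0 ≤ ∑ j, |M j| := Finset.sum_nonneg fun j _ => abs_nonneg _
  have hK0 : 0 < K := by linarith
  have hup : ∀ z ∈ ball (0 : EuclideanSpace ℂ (Fin n)) 1, ∑ j, ‖f j z‖ ^ 2 ≤ K ^ 2 := by
    intro z hz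
    calc ∑ j, ‖f j z‖ ^ 2 ≤ ∑ j, |M j| ^ 2 := Finset.sum_le_sum fun j _ =>
          pow_le_pow_left₀ (norm_nonneg _) ((hM j z hz).trans (le_abs_self _)) 2
      _ ≤ (∑ j, |M j|) ^ 2 := Finset.sum_sq_le_sq_sum_of_nonneg fun j _ => abs_nonneg _
      _ ≤ K ^ 2 := pow_le_pow_left₀ hs0 (by linarith) 2
  have hng : ∀ j z, ‖((K : ℂ)⁻¹) * f j z‖ ^ 2 = ‖f j z‖ ^ 2 / K ^ 2 := by
    intro j z
    rw [norm_mul, norm_inv, Complex.norm_real, Real.norm_of_nonneg hK0.le]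
    field_simp
  refine ⟨K, hK0, δ / K ^ 2, by positivity, fun j => (hfd j).const_mul _, fun z hz => ?_⟩
  simp only [hng]
  rw [← Finset.sum_div]
  constructor
  · exact div_le_div_of_nonneg_right (hfδ z hz) (by positivity)
  · rw [div_le_one (by positivity)]
    exact hup z hz

theorem sol_bd {n N : ℕ} {β C₀ : ℝ} {𝓛 : Set (Set (EuclideanSpace ℂ (Fin n)))}
    (hU : UniformGrowth N β C₀ 𝓛) {L : Set (EuclideanSpace ℂ (Fin n))} (hL : L ∈ 𝓛)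
    (hLb : L ⊆ ball 0 1) : SomeBounded N L := by
  intro f hf
  obtain ⟨K, hK, δ, hδ, h1, h2⟩ := normalize hf
  obtain ⟨C, hC, h3⟩ := hU δ hδ
  obtain ⟨M, hM, -⟩ := thin_zero (n := n) β C₀
  obtain ⟨h, hh⟩ := h3 _ h1 h2 L hL (fun _ => M) fun _ => hM
  refine ⟨fun j z => (K : ℂ)⁻¹ * h j z, fun j => (hh.holo j).const_mul _, fun z hz => ?_,
    K⁻¹ * C, fun z hz j => ?_⟩
  · rw [← hh.sol z hz]
    exact Finset.sum_congr rfl fun j _ => by ring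
  · have hz1 := mem_ball_zero_iff.1 (hLb hz)
    have h4 := hh.dist z (hLb hz) z hz j
    rw [ch_self hz1, Real.log_one, add_zero, mul_one] at h4
    rw [norm_mul, norm_inv, Complex.norm_real, Real.norm_of_nonneg hK.le]
    exact mul_le_mul_of_nonneg_left h4 (by positivity)

theorem geod_sub {n k : ℕ} {M : Set (EuclideanSpace ℂ (Fin n))} (h : ComplexGeod k M) :
    M ⊆ ball 0 1 := by
  obtain ⟨φ, ψ, hφ, V, hV, rfl⟩ := geod_iff.1 h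
  rintro _ ⟨x, hx, rfl⟩
  exact hφ.map x (mem_ball_zero_iff.2 hx.1)

/-- complex submanifolds of higher dimension -/
theorem complex_tfae {n N k : ℕ} (hN : 1 ≤ N) (hn : 2 ≤ n) (hk : 2 ≤ k) (hkn : k ≤ n)
    {β C₀ : ℝ} (hβ0 : 0 ≤ β) (hβ1 : β < 1) :
    List.TFAE [
      UniformGrowth N β C₀ {L : Set (EuclideanSpace ℂ (Fin n)) | ComplexGeod k L},
      ∃ L : Set (EuclideanSpace ℂ (Fin n)), ComplexGeod k L ∧ SomeBounded N L,
      Q1Upto N k] := by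
  tfae_have 1 → 2 := by
    intro hU
    obtain ⟨v, hv⟩ : ∃ v : Fin k → EuclideanSpace ℂ (Fin n), Orthonormal ℂ v := by
      refine ⟨fun i => EuclideanSpace.single (Fin.castLE hkn i) 1, ?_⟩
      exact (EuclideanSpace.orthonormal_single).comp _ (Fin.castLE_injective hkn)
    have hM : ComplexGeod k (id '' {x : EuclideanSpace ℂ (Fin n) | ‖x‖ < 1 ∧
        x ∈ Submodule.span ℂ (range v)}) :=
      geod_iff.2 ⟨id, id, aut_id, Submodule.span ℂ (range v), by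
          rw [finrank_span_eq_card hv.linearIndependent, Fintype.card_fin], rfl⟩
    exact ⟨_, hM, sol_bd hU hM (geod_sub hM)⟩
  tfae_have 2 → 3 := by
    rintro ⟨M, hM', hM⟩
    obtain ⟨φ, ψ, hφ, V, hV, rfl⟩ := geod_iff.1 hM'
    rw [q1_ball hk hN]
    intro F hF hFδ
    obtain ⟨ι⟩ : Nonempty (EuclideanSpace ℂ (Fin k) ≃ₗᵢ[ℂ] V) := by
      refine ⟨((stdOrthonormalBasis ℂ V).reindex (finCongr hV)).repr.symm⟩
    obtain ⟨L, hL⟩ : ∃ L : EuclideanSpace ℂ (Fin n) →L[ℂ] EuclideanSpace ℂ (Fin k),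
        L = (ι.symm.toContinuousLinearEquiv : V →L[ℂ] EuclideanSpace ℂ (Fin k)).comp
          V.orthogonalProjectionOnto := ⟨_, rfl⟩
    have hLn : ∀ z, ‖L z‖ ≤ ‖z‖ := by
      intro z
      have e : L z = ι.symm (V.orthogonalProjectionOnto z) := by rw [hL]; rfl
      rw [e, LinearIsometryEquiv.norm_map]
      exact V.norm_orthogonalProjectionOnto_apply_le z
    have hLι : ∀ x : EuclideanSpace ℂ (Fin k), L (ι x : EuclideanSpace ℂ (Fin n)) = x := by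
      intro x
      have e : L (ι x : EuclideanSpace ℂ (Fin n)) =
        ι.symm (V.orthogonalProjectionOnto (ι x : EuclideanSpace ℂ (Fin n))) := by rw [hL]; rfl
      rw [e, Submodule.orthogonalProjectionOnto_mem_subspace_eq_self, ι.symm_apply_apply]
    have hmap : ∀ z ∈ ball (0 : EuclideanSpace ℂ (Fin n)) 1,
        L (ψ z) ∈ ball (0 : EuclideanSpace ℂ (Fin k)) 1 := fun z hz =>
      mem_ball_zero_iff.2 ((hLn _).trans_lt (mem_ball_zero_iff.1 (hφ.map' z hz)))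
    obtain ⟨h, h1, h2, A, h3⟩ := hM (fun j z => F j (L (ψ z)))
      ⟨fun j => ⟨(hF j).1.comp (L.differentiable.comp_differentiableOn hφ.hol') hmap,
        (hF j).2.imp fun A hA z hz => hA _ (hmap z hz)⟩,
        hFδ.imp fun δ hδ => ⟨hδ.1, fun z hz => hδ.2 _ (hmap z hz)⟩⟩
    have hι : ∀ x ∈ ball (0 : EuclideanSpace ℂ (Fin k)) 1,
        ((ι x : V) : EuclideanSpace ℂ (Fin n)) ∈ ball (0 : EuclideanSpace ℂ (Fin n)) 1 := by
      intro x hx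
      rw [mem_ball_zero_iff] at hx ⊢
      have e : ‖((ι x : V) : EuclideanSpace ℂ (Fin n))‖ = ‖ι x‖ := rfl
      rw [e, LinearIsometryEquiv.norm_map]
      exact hx
    refine ⟨fun j x => h j (φ (ι x)), fun j => ⟨?_, A, fun x hx => ?_⟩, fun x hx => ?_⟩
    · refine (h1 j).comp (hφ.hol.comp ?_ hι) fun x hx => hφ.map _ (hι x hx)
      exact ((V.subtypeL.comp (ι.toContinuousLinearEquiv :
        EuclideanSpace ℂ (Fin k) →L[ℂ] V)).differentiable).differentiableOn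
    · exact h3 _ ⟨_, ⟨mem_ball_zero_iff.1 (hι x hx), (ι x).2⟩, rfl⟩ j
    · have h4 := h2 _ (hφ.map _ (hι x hx))
      simp only [hφ.left _ (hι x hx), hLι] at h4
      exact h4
  tfae_have 3 → 1 := by
    intro hQ δ hδ
    have h1 := (Pool.Agent.MPca0fc2AD.result (n := k) (N := N) hk hN).out 0 3
    have h2 := h1.1 fun m hm hmn D hD f hf hδ => hQ m hm hmn D hD f ⟨hf, hδ⟩
    obtain ⟨A, hA⟩ := h2 (√δ) (Real.sqrt_pos.2 hδ)
    obtain ⟨C, hC, h3⟩ := extension (n := n) (C₀ := C₀) N hn hβ0 hβ1 δ hδ (|A| + 1) (by positivity)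
    refine ⟨C, hC, fun f hf hb L hL M hM => ?_⟩
    obtain ⟨Φ, hΦ, rfl⟩ := hL
    obtain ⟨φ, ψ, hφ, ι, hι⟩ := id hΦ
    have hι1 : ∀ x ∈ ball (0 : EuclideanSpace ℂ (Fin k)) 1,
        ι x ∈ ball (0 : EuclideanSpace ℂ (Fin n)) 1 := by
      intro x hx
      rw [mem_ball_zero_iff] at hx ⊢
      rw [ι.norm_map]
      exact hx
    have hF : ∀ j, DifferentiableOn ℂ (fun x => f j (Φ x)) (ball 0 1) := by
      intro j
      have e : (fun x => f j (Φ x)) = fun x => f j (φ (ι x)) := by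
        funext x
        rw [hι]
      rw [e]
      exact ((hf j).comp hφ.hol fun z hz => hφ.map z hz).comp
        (ι.toContinuousLinearMap.differentiable).differentiableOn hι1
    obtain ⟨g, hg, hgs⟩ := hA (fun j x => f j (Φ x)) hF (fun x hx => by
      rw [Real.sq_sqrt hδ.le, hι]
      exact hb _ (hφ.map _ (hι1 x hx)))
    obtain ⟨h, hh, -⟩ := h3 f hf hb k Φ hΦ g hg (fun v hv => by
      obtain ⟨s1, s2⟩ := hgs _ hv
      refine ⟨s1, s2.trans ?_⟩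
      rw [← sq_abs A]
      exact pow_le_pow_left₀ (abs_nonneg _) (by linarith) 2) M hM
    exact ⟨h, hh⟩
  tfae_finish

theorem dd_symm {n : ℕ} (x y : EuclideanSpace ℂ (Fin n)) :
    ‖1 - ⟪x, y⟫_ℂ‖ = ‖1 - ⟪y, x⟫_ℂ‖ := by
  rw [← Complex.norm_conj, map_sub, map_one, inner_conj_symm]

/-- the structure of the sets `M` near the sphere -/
structure Ray {n : ℕ} (C : ℝ) (M : Set (EuclideanSpace ℂ (Fin n))) : Prop where
  sub : M ⊆ ball 0 1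
  inn : ∀ w ∈ M, ∀ a : ℝ, 1 - ‖w‖ ^ 2 ≤ a → a ≤ 1 →
    ∃ u ∈ M, ‖1 - ⟪w, u⟫_ℂ‖ ≤ C * a ∧ a ≤ C * (1 - ‖u‖ ^ 2)
  out : (∃ r < 1, ∀ w ∈ M, ‖w‖ ≤ r) ∨
    ∀ w ∈ M, ∃ p ∈ closure M ∩ sphere (0 : EuclideanSpace ℂ (Fin n)) 1,
      ‖1 - ⟪w, p⟫_ℂ‖ ≤ C * (1 - ‖w‖ ^ 2)

theorem Ray.kor_sub {n : ℕ} {C : ℝ} (hC : 0 < C) {M : Set (EuclideanSpace ℂ (Fin n))}
    (h : Ray C M) (R : ℝ) : ∃ R' : ℝ,
      ∀ z ∈ Pool.Agent.MPca0fc2.XC.kor (closure M ∩ sphere 0 1) R, ∃ u ∈ M, ch z u ≤ R' := by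
  refine ⟨C * (2 * (|R| + 1) + 4 * C) ^ 2, ?_⟩
  rintro z ⟨hz1, ζ, ⟨hζ, hζ1⟩, hζR⟩
  rw [mem_sphere_zero_iff_norm] at hζ1
  obtain ⟨a, ha⟩ : ∃ a : ℝ, a = 1 - ‖z‖ ^ 2 := ⟨_, rfl⟩
  have ha0 : 0 < a := by rw [ha]; nlinarith [norm_nonneg z]
  have ha1 : a ≤ 1 := by rw [ha]; nlinarith [norm_nonneg z]
  obtain ⟨w, hw, hwd⟩ := Metric.mem_closure_iff.1 hζ (a / 2) (by positivity)
  rw [dist_eq_norm] at hwd
  have hw1 := mem_ball_zero_iff.1 (h.sub hw)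
  have h1 : 1 - ‖w‖ ≤ ‖ζ - w‖ := by
    have := norm_sub_norm_le ζ w
    rw [hζ1] at this
    exact this
  obtain ⟨u, hu, hu1, hu2⟩ := h.inn w hw a (by nlinarith [norm_nonneg w]) ha1
  have hub := mem_ball_zero_iff.1 (h.sub hu)
  have h2 : ‖1 - ⟪z, w⟫_ℂ‖ ≤ (|R| + 1) * a := by
    have e : 1 - ⟪z, w⟫_ℂ = (1 - ⟪z, ζ⟫_ℂ) + ⟪z, ζ - w⟫_ℂ := by
      rw [inner_sub_right]
      ring
    rw [e]
    refine (norm_add_le _ _).trans ?_
    have h3 : ‖⟪z, ζ - w⟫_ℂ‖ ≤ ‖z‖ * ‖ζ - w‖ := norm_inner_le_norm _ _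
    have h4 : ‖z‖ * ‖ζ - w‖ ≤ a / 2 := by nlinarith [norm_nonneg z, norm_nonneg (ζ - w)]
    have h5 : ‖1 - ⟪z, ζ⟫_ℂ‖ ≤ |R| * a := by
      rw [ha]
      refine hζR.trans (mul_le_mul_of_nonneg_right (le_abs_self R) ?_)
      rw [← ha]
      exact ha0.le
    linarith
  have h3 := Pool.Agent.MPca0fc2.CE.a_cmp (u := z) (x := w) (y := u) hz1.le hw1.le hub.le
  have h4 : ‖1 - ⟪z, u⟫_ℂ‖ ≤ (2 * (|R| + 1) + 4 * C) * a := by nlinarith
  refine ⟨u, hu, ?_⟩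
  have hu0 : 0 < 1 - ‖u‖ ^ 2 := by nlinarith [norm_nonneg u]
  unfold ch
  rw [← ha, div_le_iff₀ (by positivity)]
  have h5 : ‖1 - ⟪z, u⟫_ℂ‖ ^ 2 ≤ ((2 * (|R| + 1) + 4 * C) * a) ^ 2 :=
    pow_le_pow_left₀ (norm_nonneg _) h4 2
  refine h5.trans ?_
  have h6 : (2 * (|R| + 1) + 4 * C) ^ 2 * a * a ≤
      (2 * (|R| + 1) + 4 * C) ^ 2 * a * (C * (1 - ‖u‖ ^ 2)) :=
    mul_le_mul_of_nonneg_left hu2 (by positivity)
  nlinarith

theorem Ray.tube {n : ℕ} {C : ℝ} (hC : 0 < C) {M : Set (EuclideanSpace ℂ (Fin n))}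
    (h : Ray C M) (R : ℝ) : ∃ R' r' : ℝ, r' < 1 ∧
      ∀ z ∈ ball (0 : EuclideanSpace ℂ (Fin n)) 1, ∀ w ∈ M, ch z w ≤ R →
        z ∈ Pool.Agent.MPca0fc2.XC.kor (closure M ∩ sphere 0 1) R' ∨ ‖z‖ ≤ r' := by
  rcases h.out with ⟨r, hr, hrM⟩ | hout
  · obtain ⟨q, hq⟩ : ∃ q : ℝ, q = (1 - max r 0) ^ 2 / max R 1 := ⟨_, rfl⟩
    have hr1 : max r 0 < 1 := max_lt hr one_pos
    have hr0 : 0 ≤ max r 0 := le_max_right _ _
    have hR1 : 1 ≤ max R 1 := le_max_right _ _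
    have hq0 : 0 < q := by
      rw [hq]
      have : 0 < 1 - max r 0 := by linarith
      positivity
    refine ⟨0, 1 - q / 2, by linarith, fun z hz w hw hzw => Or.inr ?_⟩
    have hz1 := mem_ball_zero_iff.1 hz
    have hw1 := mem_ball_zero_iff.1 (h.sub hw)
    have hz0 : 0 < 1 - ‖z‖ ^ 2 := by nlinarith [norm_nonneg z]
    have hw0 : 0 < 1 - ‖w‖ ^ 2 := by nlinarith [norm_nonneg w]
    have h1 : ‖1 - ⟪z, w⟫_ℂ‖ ^ 2 ≤ max R 1 * ((1 - ‖z‖ ^ 2) * (1 - ‖w‖ ^ 2)) := by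
      have h2 : ch z w ≤ max R 1 := hzw.trans (le_max_left _ _)
      unfold ch at h2
      rwa [div_le_iff₀ (by positivity)] at h2
    have h2 : 1 - max r 0 ≤ ‖1 - ⟪z, w⟫_ℂ‖ := by
      have h3 : ‖⟪z, w⟫_ℂ‖ ≤ ‖z‖ * ‖w‖ := norm_inner_le_norm z w
      have h4 := norm_sub_norm_le (1 : ℂ) ⟪z, w⟫_ℂ
      rw [norm_one] at h4
      have h5 : ‖w‖ ≤ max r 0 := (hrM w hw).trans (le_max_left _ _)
      nlinarith [norm_nonneg z, norm_nonneg w]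
    have h3 : (1 - max r 0) ^ 2 ≤ max R 1 * (1 - ‖z‖ ^ 2) := by
      refine (pow_le_pow_left₀ (by linarith) h2 2).trans (h1.trans ?_)
      have h4 : (1 - ‖z‖ ^ 2) * (1 - ‖w‖ ^ 2) ≤ 1 - ‖z‖ ^ 2 := by nlinarith [norm_nonneg w]
      exact mul_le_mul_of_nonneg_left h4 (by linarith)
    have h4 : q ≤ 1 - ‖z‖ ^ 2 := by
      rw [hq, div_le_iff₀ (by linarith)]
      linarith
    have h5 : q ≤ 1 := by nlinarith [norm_nonneg z]
    nlinarith [norm_nonneg z]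
  · refine ⟨4 * |R| + 16 * |R| * C, 0, one_pos, fun z hz w hw hzw => Or.inl ?_⟩
    have hz1 := mem_ball_zero_iff.1 hz
    have hw1 := mem_ball_zero_iff.1 (h.sub hw)
    have hz0 : 0 < 1 - ‖z‖ ^ 2 := by nlinarith [norm_nonneg z]
    have hR : ch z w ≤ |R| := hzw.trans (le_abs_self R)
    have h1 := den_le hw1 hz1
    have h2 : ‖1 - ⟪w, z⟫_ℂ‖ ≤ 2 * |R| * (1 - ‖z‖ ^ 2) :=
      h1.trans (mul_le_mul_of_nonneg_right (by linarith) hz0.le)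
    have h3 := (Pool.Agent.MPca0fc2.CE.a_pos' hw1 hz1.le).2.1
    have h4 : 1 - ‖w‖ ^ 2 ≤ 4 * |R| * (1 - ‖z‖ ^ 2) := by linarith
    obtain ⟨p, ⟨hp, hp1⟩, hpw⟩ := hout w hw
    have hp2 := mem_sphere_zero_iff_norm.1 hp1
    refine ⟨hz1, p, ⟨hp, hp1⟩, ?_⟩
    have h5 := Pool.Agent.MPca0fc2.CE.a_cmp (u := z) (x := w) (y := p) hz1.le hw1.le hp2.le
    rw [dd_symm z w] at h5
    have h6 : C * (1 - ‖w‖ ^ 2) ≤ C * (4 * |R| * (1 - ‖z‖ ^ 2)) :=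
      mul_le_mul_of_nonneg_left h4 hC.le
    nlinarith

theorem ch_zero {n : ℕ} (x : EuclideanSpace ℂ (Fin n)) : ch x 0 = 1 / (1 - ‖x‖ ^ 2) := by
  unfold ch
  simp

/-- images of cones under automorphisms of the ball -/
theorem ray_image {n : ℕ} {φ ψ : EuclideanSpace ℂ (Fin n) → EuclideanSpace ℂ (Fin n)}
    (hφ : IsBallAut φ ψ) {V : Set (EuclideanSpace ℂ (Fin n))}
    (hV : ∀ x ∈ V, ∀ t : ℝ, 0 ≤ t → (t : ℂ) • x ∈ V) :
    ∃ C : ℝ, 0 < C ∧ Ray C (φ '' {x | ‖x‖ < 1 ∧ x ∈ V}) := by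
  have ho : ‖φ 0‖ < 1 := mem_ball_zero_iff.1 (hφ.map 0 (by simp))
  obtain ⟨o, hoe⟩ : ∃ o, o = φ 0 := ⟨_, rfl⟩
  rw [← hoe] at ho
  have hao : 0 < 1 - ‖o‖ ^ 2 := by nlinarith [norm_nonneg o]
  obtain ⟨c, hc⟩ : ∃ c : ℝ, c = (1 - ‖o‖) ^ 2 := ⟨_, rfl⟩
  obtain ⟨D, hD⟩ : ∃ D : ℝ, D = 4 / (1 - ‖o‖ ^ 2) := ⟨_, rfl⟩
  have hc0 : 0 < c := by
    rw [hc]
    have : 0 < 1 - ‖o‖ := by linarith
    positivity
  have hc1 : c ≤ 1 := by rw [hc]; nlinarith [norm_nonneg o]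
  have hD0 : 0 < D := by rw [hD]; positivity
  have hb : ∀ x : EuclideanSpace ℂ (Fin n), ‖x‖ < 1 → ‖φ x‖ < 1 := fun x hx =>
    mem_ball_zero_iff.1 (hφ.map x (mem_ball_zero_iff.2 hx))
  -- the depth
  have hdep : ∀ x : EuclideanSpace ℂ (Fin n), ‖x‖ < 1 →
      c * (1 - ‖x‖ ^ 2) ≤ 1 - ‖φ x‖ ^ 2 ∧ 1 - ‖φ x‖ ^ 2 ≤ D * (1 - ‖x‖ ^ 2) := by
    intro x hx
    have h1 := ch_aut hφ hx (w := 0) (by simp)
    rw [ch_zero, ← hoe] at h1
    unfold ch at h1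
    have h2 : 0 < 1 - ‖x‖ ^ 2 := by nlinarith [norm_nonneg x]
    have hx1 := hb x hx
    have h3 : 0 < 1 - ‖φ x‖ ^ 2 := by nlinarith [norm_nonneg (φ x)]
    rw [div_eq_div_iff (by positivity) (by positivity), one_mul] at h1
    have h4 := Pool.Agent.MPca0fc2.CE.a_pos hx1.le ho
    have h5 : 1 - ‖o‖ ≤ ‖1 - ⟪φ x, o⟫_ℂ‖ := by
      have h3 : ‖⟪φ x, o⟫_ℂ‖ ≤ ‖φ x‖ * ‖o‖ := norm_inner_le_norm _ _
      have h4 := norm_sub_norm_le (1 : ℂ) ⟪φ x, o⟫_ℂ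
      rw [norm_one] at h4
      nlinarith [norm_nonneg (φ x), norm_nonneg o]
    obtain ⟨d, hd⟩ : ∃ d : ℝ, d = ‖1 - ⟪φ x, o⟫_ℂ‖ := ⟨_, rfl⟩
    rw [← hd] at h1 h4 h5
    have h6 : c ≤ d ^ 2 := by
      rw [hc]
      exact pow_le_pow_left₀ (by linarith) h5 2
    have h7 : d ^ 2 ≤ 4 := by nlinarith [h4.1, h4.2.2]
    constructor
    · calc c * (1 - ‖x‖ ^ 2) ≤ d ^ 2 * (1 - ‖x‖ ^ 2) := mul_le_mul_of_nonneg_right h6 h2.le
        _ = (1 - ‖φ x‖ ^ 2) * (1 - ‖o‖ ^ 2) := h1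
        _ ≤ 1 - ‖φ x‖ ^ 2 := by nlinarith [norm_nonneg o]
    · rw [hD, div_mul_eq_mul_div, le_div_iff₀ hao, ← h1]
      exact mul_le_mul_of_nonneg_right h7 h2.le
  -- the distances
  have hdist : ∀ x y : EuclideanSpace ℂ (Fin n), ‖x‖ < 1 → ‖y‖ < 1 →
      ‖1 - ⟪φ x, φ y⟫_ℂ‖ ≤ D * ‖1 - ⟪x, y⟫_ℂ‖ := by
    intro x y hx hy
    have h1 := ch_aut hφ hx hy
    unfold ch at h1
    have h2 : 0 < 1 - ‖x‖ ^ 2 := by nlinarith [norm_nonneg x]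
    have h2' : 0 < 1 - ‖y‖ ^ 2 := by nlinarith [norm_nonneg y]
    have hx1 := hb x hx
    have hy1 := hb y hy
    have h3 : 0 < 1 - ‖φ x‖ ^ 2 := by nlinarith [norm_nonneg (φ x)]
    have h3' : 0 < 1 - ‖φ y‖ ^ 2 := by nlinarith [norm_nonneg (φ y)]
    rw [div_eq_div_iff (by positivity) (by positivity)] at h1
    have h4 := (hdep x hx).2
    have h4' := (hdep y hy).2
    have h5 : (1 - ‖φ x‖ ^ 2) * (1 - ‖φ y‖ ^ 2) ≤ D ^ 2 * ((1 - ‖x‖ ^ 2) * (1 - ‖y‖ ^ 2)) := by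
      calc (1 - ‖φ x‖ ^ 2) * (1 - ‖φ y‖ ^ 2) ≤ (D * (1 - ‖x‖ ^ 2)) * (D * (1 - ‖y‖ ^ 2)) :=
            mul_le_mul h4 h4' h3'.le (by positivity)
        _ = _ := by ring
    have h6 : ‖1 - ⟪φ x, φ y⟫_ℂ‖ ^ 2 * ((1 - ‖x‖ ^ 2) * (1 - ‖y‖ ^ 2)) ≤
        (D * ‖1 - ⟪x, y⟫_ℂ‖) ^ 2 * ((1 - ‖x‖ ^ 2) * (1 - ‖y‖ ^ 2)) := by
      rw [h1]
      calc ‖1 - ⟪x, y⟫_ℂ‖ ^ 2 * ((1 - ‖φ x‖ ^ 2) * (1 - ‖φ y‖ ^ 2)) ≤
          ‖1 - ⟪x, y⟫_ℂ‖ ^ 2 * (D ^ 2 * ((1 - ‖x‖ ^ 2) * (1 - ‖y‖ ^ 2))) :=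
            mul_le_mul_of_nonneg_left h5 (sq_nonneg _)
        _ = _ := by ring
    have h7 := le_of_mul_le_mul_right h6 (by positivity)
    exact (pow_le_pow_iff_left₀ (norm_nonneg _) (by positivity) two_ne_zero).1 h7
  have hinn : ∀ (x : EuclideanSpace ℂ (Fin n)) (t : ℝ), ⟪x, (t : ℂ) • x⟫_ℂ = ((t * ‖x‖ ^ 2 : ℝ) : ℂ) := by
    intro x t
    rw [inner_smul_right, inner_self_eq_norm_sq_to_K]
    push_cast
    rfl
  refine ⟨(2 * D + 1) / c, by positivity, ?_, ?_, ?_⟩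
  · rintro _ ⟨x, hx, rfl⟩
    exact hφ.map x (mem_ball_zero_iff.2 hx.1)
  · rintro _ ⟨x, ⟨hx, hxV⟩, rfl⟩ a ha ha1
    have h1 := (hdep x hx).1
    have hx0 : 0 < 1 - ‖x‖ ^ 2 := by nlinarith [norm_nonneg x]
    have ha0 : 0 < a := lt_of_lt_of_le (lt_of_lt_of_le (by positivity) h1) ha
    obtain ⟨b, hbb⟩ : ∃ b : ℝ, b = min 1 (a / c) := ⟨_, rfl⟩
    have hac : 0 < a / c := by positivity
    have hb0 : 0 < b := by rw [hbb]; exact lt_min one_pos hac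
    have hb1 : b ≤ 1 := by rw [hbb]; exact min_le_left _ _
    have hb2 : b ≤ a / c := by rw [hbb]; exact min_le_right _ _
    have hb3 : a ≤ b := by
      rw [hbb]
      refine le_min ha1 ?_
      rw [le_div_iff₀ hc0]
      nlinarith
    have hxa : 1 - ‖x‖ ^ 2 ≤ a / c := by
      rw [le_div_iff₀ hc0]
      linarith
    have hnt : ‖((1 - b : ℝ) : ℂ) • x‖ = (1 - b) * ‖x‖ := by
      rw [norm_smul, Complex.norm_real, Real.norm_of_nonneg (by linarith)]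
    have hn1 : ‖((1 - b : ℝ) : ℂ) • x‖ < 1 := by
      rw [hnt]
      nlinarith [norm_nonneg x]
    refine ⟨φ (((1 - b : ℝ) : ℂ) • x), ⟨_, ⟨hn1, hV x hxV _ (by linarith)⟩, rfl⟩, ?_, ?_⟩
    · refine (hdist x _ hx hn1).trans ?_
      rw [hinn, ← Complex.ofReal_one, ← Complex.ofReal_sub, Complex.norm_real, Real.norm_eq_abs,
        abs_of_nonneg (by nlinarith [sq_nonneg ‖x‖])]
      have h2 : 1 - (1 - b) * ‖x‖ ^ 2 ≤ 2 * (a / c) := by nlinarith [sq_nonneg ‖x‖]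
      calc D * (1 - (1 - b) * ‖x‖ ^ 2) ≤ D * (2 * (a / c)) := mul_le_mul_of_nonneg_left h2 hD0.le
        _ ≤ (2 * D + 1) / c * a := by
          have h3 : (2 * D + 1) / c * a = D * (2 * (a / c)) + a / c := by
            field_simp
          rw [h3]
          linarith
    · have h2 := (hdep _ hn1).1
      rw [hnt] at h2
      have h3 : b ≤ 1 - ((1 - b) * ‖x‖) ^ 2 := by
        have h4 : ((1 - b) * ‖x‖) ^ 2 ≤ (1 - b) ^ 2 := by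
          rw [mul_pow]
          have h5 : ‖x‖ ^ 2 ≤ 1 := by linarith
          nlinarith [sq_nonneg (1 - b)]
        nlinarith
      have h4 : a ≤ 1 - ‖φ (((1 - b : ℝ) : ℂ) • x)‖ ^ 2 + (1 - c) * b := by nlinarith
      have h5 : c * a ≤ 1 - ‖φ (((1 - b : ℝ) : ℂ) • x)‖ ^ 2 := by nlinarith
      have h6 : 0 < 1 - ‖φ (((1 - b : ℝ) : ℂ) • x)‖ ^ 2 := by nlinarith
      rw [div_mul_eq_mul_div, le_div_iff₀ hc0]
      nlinarith
  · by_cases hz : ∀ x ∈ V, x = 0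
    · left
      refine ⟨‖o‖, ho, ?_⟩
      rintro _ ⟨x, ⟨-, hxV⟩, rfl⟩
      rw [hz x hxV, hoe]
    · right
      push Not at hz
      obtain ⟨v, hv, hv0⟩ := hz
      rintro _ ⟨x, ⟨hx, hxV⟩, rfl⟩
      have hx0 : 0 < 1 - ‖x‖ ^ 2 := by nlinarith [norm_nonneg x]
      obtain ⟨e, he, hxe, heV⟩ : ∃ e : EuclideanSpace ℂ (Fin n), ‖e‖ = 1 ∧
          x = ((‖x‖ : ℝ) : ℂ) • e ∧ ∀ t : ℝ, 0 ≤ t → (t : ℂ) • e ∈ V := by
        rcases eq_or_ne x 0 with rfl | hx2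
        · have hvn : 0 < ‖v‖ := norm_pos_iff.2 hv0
          refine ⟨((‖v‖⁻¹ : ℝ) : ℂ) • v, ?_, by simp, fun t ht => ?_⟩
          · rw [norm_smul, Complex.norm_real, Real.norm_of_nonneg (by positivity)]
            field_simp
          · exact hV _ (hV v hv _ (by positivity)) t ht
        · have hvn : 0 < ‖x‖ := norm_pos_iff.2 hx2
          refine ⟨((‖x‖⁻¹ : ℝ) : ℂ) • x, ?_, ?_, fun t ht => ?_⟩
          · rw [norm_smul, Complex.norm_real, Real.norm_of_nonneg (by positivity)]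
            field_simp
          · rw [smul_smul, ← Complex.ofReal_mul, mul_inv_cancel₀ hvn.ne', Complex.ofReal_one,
              one_smul]
          · exact hV _ (hV x hxV _ (by positivity)) t ht
      obtain ⟨t, ht⟩ : ∃ t : ℕ → ℝ, t = fun i : ℕ => (i : ℝ) / (i + 1) := ⟨_, rfl⟩
      have ht01 : ∀ i, 0 ≤ t i ∧ t i < 1 := by
        intro i
        rw [ht]
        exact ⟨by positivity, by
          show (i : ℝ) / (i + 1) < 1
          rw [div_lt_one (by positivity)]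
          linarith⟩
      have htl : Tendsto t atTop (𝓝 1) := by
        rw [ht]
        exact tendsto_natCast_div_add_atTop 1
      have hte : ∀ i, ‖((t i : ℝ) : ℂ) • e‖ = t i := by
        intro i
        rw [norm_smul, he, Complex.norm_real, Real.norm_of_nonneg (ht01 i).1, mul_one]
      have hte1 : ∀ i, ‖((t i : ℝ) : ℂ) • e‖ < 1 := fun i => by rw [hte]; exact (ht01 i).2
      obtain ⟨p, hp, g, hg, hgl⟩ := (isCompact_closedBall (0 : EuclideanSpace ℂ (Fin n)) 1).tendsto_subseq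
        (x := fun i => φ (((t i : ℝ) : ℂ) • e)) fun i => by
          rw [mem_closedBall_zero_iff]
          exact (hb _ (hte1 i)).le
      have hgt : Tendsto (fun i => t (g i)) atTop (𝓝 1) := htl.comp hg.tendsto_atTop
      have hp1 : ‖p‖ = 1 := by
        refine le_antisymm (mem_closedBall_zero_iff.1 hp) ?_
        have h1 : Tendsto (fun i => 1 - ‖φ (((t (g i) : ℝ) : ℂ) • e)‖ ^ 2) atTop
            (𝓝 (1 - ‖p‖ ^ 2)) := tendsto_const_nhds.sub (hgl.norm.pow 2)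
        have h2 : Tendsto (fun i => D * (1 - (t (g i)) ^ 2)) atTop (𝓝 (D * (1 - 1 ^ 2))) :=
          (tendsto_const_nhds.sub (hgt.pow 2)).const_mul D
        have h3 := le_of_tendsto_of_tendsto' h1 h2 fun i => by
          have h4 := (hdep _ (hte1 (g i))).2
          rwa [hte] at h4
        nlinarith [norm_nonneg p]
      refine ⟨p, ⟨mem_closure_of_tendsto hgl (Filter.Eventually.of_forall fun i =>
        ⟨_, ⟨hte1 (g i), heV _ (ht01 _).1⟩, rfl⟩), mem_sphere_zero_iff_norm.2 hp1⟩, ?_⟩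
      have h1 : Tendsto (fun i => ‖1 - ⟪φ x, φ (((t (g i) : ℝ) : ℂ) • e)⟫_ℂ‖) atTop
          (𝓝 ‖1 - ⟪φ x, p⟫_ℂ‖) :=
        (tendsto_const_nhds.sub (tendsto_const_nhds.inner hgl)).norm
      have h2 : Tendsto (fun i => D * (1 - t (g i) * ‖x‖)) atTop (𝓝 (D * (1 - 1 * ‖x‖))) :=
        (tendsto_const_nhds.sub (hgt.mul_const _)).const_mul D
      have h3 := le_of_tendsto_of_tendsto' h1 h2 fun i => by
        refine (hdist x _ hx (hte1 (g i))).trans (le_of_eq ?_)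
        congr 1
        have h5 : ⟪x, ((t (g i) : ℝ) : ℂ) • e⟫_ℂ = ((t (g i) * ‖x‖ : ℝ) : ℂ) := by
          conv_lhs => rw [hxe]
          rw [inner_smul_left, inner_smul_right, inner_self_eq_norm_sq_to_K, he,
            Complex.conj_ofReal]
          push_cast
          ring
        rw [h5, ← Complex.ofReal_one, ← Complex.ofReal_sub, Complex.norm_real, Real.norm_eq_abs,
          abs_of_nonneg]
        have h6 := ht01 (g i)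
        nlinarith [norm_nonneg x]
      refine h3.trans ?_
      have h4 := (hdep x hx).1
      have h5 : 1 - 1 * ‖x‖ ≤ 1 - ‖x‖ ^ 2 := by nlinarith [norm_nonneg x]
      have h6 : 1 - ‖x‖ ^ 2 ≤ (1 - ‖φ x‖ ^ 2) / c := by
        rw [le_div_iff₀ hc0]
        linarith
      have h7 : 0 ≤ (1 - ‖φ x‖ ^ 2) / c := hx0.le.trans h6
      calc D * (1 - 1 * ‖x‖) ≤ D * ((1 - ‖φ x‖ ^ 2) / c) :=
            mul_le_mul_of_nonneg_left (h5.trans h6) hD0.le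
        _ ≤ (2 * D + 1) * ((1 - ‖φ x‖ ^ 2) / c) := mul_le_mul_of_nonneg_right (by linarith) h7
        _ = _ := by ring

/-- the solutions of the growth theorems -/
theorem grows_sol {n N : ℕ} {C C' : ℝ} (hC : 0 < C) (hC' : 0 < C')
    {M : Set (EuclideanSpace ℂ (Fin n))} (hM : Ray C' M) (hne : M.Nonempty)
    {f h : Fin N → EuclideanSpace ℂ (Fin n) → ℂ}
    (hh1 : ∀ j, DifferentiableOn ℂ (h j) (ball 0 1))
    (hh2 : ∀ z ∈ ball (0 : EuclideanSpace ℂ (Fin n)) 1, ∑ j, f j z * h j z = 1)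
    (hh3 : ∀ z ∈ ball (0 : EuclideanSpace ℂ (Fin n)) 1, ∀ w ∈ M, ∀ j,
      ‖h j z‖ ≤ C * (1 + Real.log (ch z w))) :
    Pool.Agent.MPca0fc2.XC.Sol f h ∧
      Pool.Agent.MPca0fc2.XC.KBd (closure M ∩ sphere 0 1) h := by
  obtain ⟨a, haM⟩ := hne
  have ha := mem_ball_zero_iff.1 (hM.sub haM)
  have ha2 : 0 < 1 - ‖a‖ ^ 2 := by nlinarith [norm_nonneg a]
  refine ⟨⟨hh1, hh2, ?_⟩, fun R => ?_⟩
  · refine ⟨C * (1 + 8 * (4 / (1 - ‖a‖ ^ 2)) ^ (1 / 8 : ℝ)), fun z hz j => ?_⟩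
    have h1 := hh3 z hz a haM j
    rw [mem_ball_zero_iff] at hz
    have hz2 : 0 < 1 - ‖z‖ ^ 2 := by nlinarith [norm_nonneg z]
    unfold ch at h1
    have h2 : ‖1 - ⟪z, a⟫_ℂ‖ ≤ 2 := (Pool.Agent.MPca0fc2.CE.a_pos hz.le ha).2.2
    have h5 : ‖1 - ⟪z, a⟫_ℂ‖ ^ 2 / ((1 - ‖z‖ ^ 2) * (1 - ‖a‖ ^ 2)) ≤
        4 / (1 - ‖a‖ ^ 2) * (1 - ‖z‖ ^ 2)⁻¹ := by
      have e : 4 / (1 - ‖a‖ ^ 2) * (1 - ‖z‖ ^ 2)⁻¹ = 4 / ((1 - ‖z‖ ^ 2) * (1 - ‖a‖ ^ 2)) := by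
        field_simp
      rw [e]
      apply div_le_div_of_nonneg_right _ (by positivity)
      nlinarith [norm_nonneg (1 - ⟪z, a⟫_ℂ)]
    have h6 : 0 ≤ ‖1 - ⟪z, a⟫_ℂ‖ ^ 2 / ((1 - ‖z‖ ^ 2) * (1 - ‖a‖ ^ 2)) := by positivity
    have h7 := Real.log_le_rpow_div h6 (show (0 : ℝ) < 1 / 8 by norm_num)
    have h8 : (‖1 - ⟪z, a⟫_ℂ‖ ^ 2 / ((1 - ‖z‖ ^ 2) * (1 - ‖a‖ ^ 2))) ^ (1 / 8 : ℝ) ≤
        (4 / (1 - ‖a‖ ^ 2)) ^ (1 / 8 : ℝ) * (1 - ‖z‖ ^ 2) ^ (-(1 / 8) : ℝ) := by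
      refine (Real.rpow_le_rpow h6 h5 (by norm_num)).trans (le_of_eq ?_)
      rw [Real.mul_rpow (by positivity) (by positivity), Real.inv_rpow hz2.le,
        Real.rpow_neg hz2.le]
    have h9 : 1 ≤ (1 - ‖z‖ ^ 2) ^ (-(1 / 8) : ℝ) := by
      apply Real.one_le_rpow_of_pos_of_le_one_of_nonpos hz2 (by nlinarith [norm_nonneg z])
        (by norm_num)
    refine h1.trans ?_
    rw [mul_assoc]
    apply mul_le_mul_of_nonneg_left _ hC.le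
    have h10 : (0:ℝ) ≤ (4 / (1 - ‖a‖ ^ 2)) ^ (1 / 8 : ℝ) := by positivity
    nlinarith
  · obtain ⟨R', hR'⟩ := hM.kor_sub hC' R
    refine ⟨C * (1 + Real.log R'), fun z hz j => ?_⟩
    obtain ⟨u, hu, huR⟩ := hR' z hz
    have hz1 : ‖z‖ < 1 := hz.1
    have h1 := ch_pos hz1 (mem_ball_zero_iff.1 (hM.sub hu))
    refine (hh3 z (mem_ball_zero_iff.2 hz1) u hu j).trans
      (mul_le_mul_of_nonneg_left ?_ hC.le)
    have h2 := Real.log_le_log (by linarith) huR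
    linarith

/-- one solution which is bounded on all the tubes -/
theorem simultaneous {n N : ℕ} (hn : 2 ≤ n) {M : ℕ → Set (EuclideanSpace ℂ (Fin n))}
    (hM : ∀ i, ComplexGeod 1 (M i) ∨ ∃ β C₀ : ℝ, 0 ≤ β ∧ β < 1 ∧ Thin β C₀ (M i))
    (hd : ∀ i k, i ≠ k → closure (M i) ∩ closure (M k) ⊆ ball 0 1) :
    Simultaneous N M := by
  obtain ⟨m, rfl⟩ : ∃ m, n = m + 1 := ⟨n - 1, by omega⟩
  have hdim : Module.finrank ℂ (EuclideanSpace ℂ (Fin (m + 1))) = m + 1 := by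
    rw [finrank_euclideanSpace_fin]
  intro f hf
  obtain ⟨A, hA, δ, hδ, hF, hFb⟩ := normalize hf
  have hF1 : ∀ j, ∀ z ∈ ball (0 : EuclideanSpace ℂ (Fin (m + 1))) 1,
      ‖(A : ℂ)⁻¹ * f j z‖ ≤ 1 := by
    intro j z hz
    have h2 := (hFb z hz).2
    have h3 : ‖(A : ℂ)⁻¹ * f j z‖ ^ 2 ≤ ∑ j, ‖(A : ℂ)⁻¹ * f j z‖ ^ 2 :=
      Finset.single_le_sum (f := fun j => ‖(A : ℂ)⁻¹ * f j z‖ ^ 2) (fun _ _ => sq_nonneg _)
        (Finset.mem_univ j)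
    nlinarith [norm_nonneg ((A : ℂ)⁻¹ * f j z)]
  -- the structure of the sets
  have hray : ∀ i, ∃ C : ℝ, 0 < C ∧ Ray C (M i) := by
    intro i
    rcases hM i with hL | ⟨β, C, -, -, φ, ψ, hφ, ⟨k, e, he, h⟩ | ⟨K, hK, -, h⟩⟩
    · obtain ⟨φ, ψ, hφ, V, hV, h⟩ := geod_iff.1 hL
      rw [h]
      exact ray_image hφ (V := (V : Set (EuclideanSpace ℂ (Fin (m + 1)))))
        fun x hx t _ => V.smul_mem _ hx
    · rw [h]
      refine ray_image hφ (V := {x | ∃ t : Fin k → ℝ, x = ∑ j, ((t j : ℝ) : ℂ) • e j}) ?_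
      rintro _ ⟨t, rfl⟩ s -
      refine ⟨fun j => s * t j, ?_⟩
      rw [Finset.smul_sum]
      refine Finset.sum_congr rfl fun j _ => ?_
      rw [smul_smul, Complex.ofReal_mul]
    · have e : cone K = {x | ‖x‖ < 1 ∧ x ∈ {x : EuclideanSpace ℂ (Fin (m + 1)) |
          ∃ t : ℝ, 0 ≤ t ∧ ∃ ζ ∈ K, x = (t : ℂ) • ζ}} := by
        have hn : ∀ (t : ℝ), 0 ≤ t → ∀ ζ ∈ K, ‖(t : ℂ) • ζ‖ = t := by
          intro t ht ζ hζ
          rw [norm_smul, Complex.norm_real, Real.norm_of_nonneg ht,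
            mem_sphere_zero_iff_norm.1 (hK hζ), mul_one]
        ext x
        constructor
        · rintro ⟨t, ht0, ht1, ζ, hζ, rfl⟩
          exact ⟨by rw [hn t ht0 ζ hζ]; exact ht1, t, ht0, ζ, hζ, rfl⟩
        · rintro ⟨hx, t, ht0, ζ, hζ, rfl⟩
          rw [hn t ht0 ζ hζ] at hx
          exact ⟨t, ht0, hx, ζ, hζ, rfl⟩
      rw [h, e]
      refine ray_image hφ ?_
      rintro _ ⟨t, ht, ζ, hζ, rfl⟩ s hs
      exact ⟨s * t, mul_nonneg hs ht, ζ, hζ, by rw [smul_smul, Complex.ofReal_mul]⟩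
  -- solutions for single sets
  have hgrow : ∀ i, ∃ (C : ℝ) (h : Fin N → EuclideanSpace ℂ (Fin (m + 1)) → ℂ), 0 < C ∧
      (∀ j, DifferentiableOn ℂ (h j) (ball 0 1)) ∧
      (∀ z ∈ ball (0 : EuclideanSpace ℂ (Fin (m + 1))) 1, ∑ j, ((A : ℂ)⁻¹ * f j z) * h j z = 1) ∧
      ∀ z ∈ ball (0 : EuclideanSpace ℂ (Fin (m + 1))) 1, ∀ w ∈ M i, ∀ j,
        ‖h j z‖ ≤ C * (1 + Real.log (ch z w)) := by
    intro i
    rcases hM i with h | ⟨β, C₀, hβ0, hβ1, h⟩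
    · obtain ⟨C, hC, h1⟩ := low_growth (n := m + 1) (C₀ := 1) N hn le_rfl one_pos δ hδ
      obtain ⟨M', hM', -⟩ := thin_zero (n := m + 1) 0 1
      obtain ⟨g, hg⟩ := h1 _ hF hFb _ ⟨1, le_rfl, h⟩ (fun _ => M') fun _ => hM'
      exact ⟨C, g, hC, hg.holo, hg.sol, hg.dist⟩
    · obtain ⟨C, hC, h1⟩ := low_growth (n := m + 1) (C₀ := C₀) N hn hβ0 hβ1 δ hδ
      obtain ⟨g, hg⟩ := h1 _ hF hFb (id '' {x | ‖x‖ < 1 ∧
        x ∈ (⊥ : Submodule ℂ (EuclideanSpace ℂ (Fin (m + 1))))})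
        ⟨0, zero_le_one, geod_iff.2 ⟨id, id, aut_id, ⊥, finrank_bot _ _, rfl⟩⟩ (fun _ => M i) fun _ => h
      refine ⟨C, g, hC, hg.holo, hg.sol, fun z hz w hw j => ?_⟩
      have h2 := hg.seq z hz 0 w hw j
      simpa using h2
  obtain ⟨g₀, hg₀⟩ : ∃ g, Pool.Agent.MPca0fc2.XC.Sol (fun j z => (A : ℂ)⁻¹ * f j z) g := by
    obtain ⟨C, hC, h1⟩ := low_growth (n := m + 1) (C₀ := 1) N hn le_rfl one_pos δ hδ
    obtain ⟨M', hM', -⟩ := thin_zero (n := m + 1) 0 1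
    obtain ⟨g, hg⟩ := h1 _ hF hFb (id '' {x | ‖x‖ < 1 ∧
      x ∈ (⊥ : Submodule ℂ (EuclideanSpace ℂ (Fin (m + 1))))})
      ⟨0, zero_le_one, geod_iff.2 ⟨id, id, aut_id, ⊥, finrank_bot _ _, rfl⟩⟩ (fun _ => M') fun _ => hM'
    obtain ⟨C', hC', hR⟩ := ray_image (n := m + 1) aut_id
      (V := ((⊥ : Submodule ℂ (EuclideanSpace ℂ (Fin (m + 1)))) : Set _))
      fun x hx t _ => Submodule.smul_mem _ _ hx
    exact ⟨g, (grows_sol hC hC' hR ⟨0, 0, ⟨by simp, by simp⟩, rfl⟩ hg.holo hg.sol hg.dist).1⟩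
  obtain ⟨h, h1, h2, h3⟩ := Pool.Agent.MPca0fc2.XC.induct
    (f := fun j z => (A : ℂ)⁻¹ * f j z) (K := fun i => closure (M i) ∩ sphere 0 1)
    (fun k => inter_subset_right)
    (fun k => (isCompact_sphere _ _).inter_left isClosed_closure)
    (fun i k hik => by
      rw [Set.disjoint_left]
      rintro x ⟨hx1, hx2⟩ ⟨hx3, -⟩
      have h4 := hd i k hik ⟨hx1, hx3⟩
      rw [mem_ball_zero_iff, mem_sphere_zero_iff_norm.1 hx2] at h4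
      exact lt_irrefl _ h4)
    (fun k => by
      obtain ⟨C', hC', hR⟩ := hray k
      rcases (M k).eq_empty_or_nonempty with he | hne
      · refine ⟨g₀, hg₀, ?_⟩
        intro R
        refine ⟨0, ?_⟩
        rintro z ⟨-, ζ, ⟨hζ, -⟩, -⟩
        rw [he, closure_empty] at hζ
        exact absurd hζ (Set.notMem_empty ζ)
      · obtain ⟨C, g, hC, hg1, hg2, hg3⟩ := hgrow k
        exact ⟨g, grows_sol hC hC' hR hne hg1 hg2 hg3⟩)
    (fun L hL h g hh hg hgL ε hε => Pool.Agent.MPca0fc2.XC.step MeasureTheory.volume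
      (by omega) hdim hF hF1 hL hh hg hgL hε)
  refine ⟨fun j z => (A : ℂ)⁻¹ * h j z, fun j => (h1 j).const_mul _, fun z hz => ?_,
    fun i R => ?_⟩
  · rw [← h2 z hz]
    exact Finset.sum_congr rfl fun j _ => by ring
  · obtain ⟨C', hC', hR⟩ := hray i
    obtain ⟨R', r', hr', htube⟩ := hR.tube hC' R
    obtain ⟨C, hC⟩ := h3 i R'
    have hcpt : ∃ D : ℝ, ∀ z ∈ closedBall (0 : EuclideanSpace ℂ (Fin (m + 1))) r', ∀ j,
        ‖h j z‖ ≤ D := by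
      have h4 : ∀ j, ∃ D : ℝ, ∀ z ∈ closedBall (0 : EuclideanSpace ℂ (Fin (m + 1))) r',
          ‖h j z‖ ≤ D := fun j =>
        (isCompact_closedBall (0 : EuclideanSpace ℂ (Fin (m + 1))) r').exists_bound_of_continuousOn
          ((h1 j).continuousOn.mono (closedBall_subset_ball hr'))
      choose D hD using h4
      exact ⟨∑ j, |D j|, fun z hz j => (hD j z hz).trans ((le_abs_self _).trans
        (Finset.single_le_sum (f := fun j => |D j|) (fun _ _ => abs_nonneg _)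
          (Finset.mem_univ j)))⟩
    obtain ⟨D, hD⟩ := hcpt
    refine ⟨A⁻¹ * max C D, fun z hz w hw hzw j => ?_⟩
    rw [norm_mul, norm_inv, Complex.norm_real, Real.norm_of_nonneg hA.le]
    refine mul_le_mul_of_nonneg_left ?_ (inv_nonneg.2 hA.le)
    rcases htube z hz w hw hzw with h4 | h4
    · exact (hC z h4 j).trans (le_max_left _ _)
    · exact (hD z (mem_closedBall_zero_iff.2 h4) j).trans (le_max_right _ _)

/-- countable sets -/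
theorem countable_iff {n N : ℕ} (hN : 1 ≤ N) (hn : 2 ≤ n) {β C₀ : ℝ} (hβ0 : 0 ≤ β)
    (hβ1 : β < 1) : UniformGrowth N β C₀ {L : Set (EuclideanSpace ℂ (Fin n)) |
      L.Countable ∧ L ⊆ ball 0 1} ↔ Q1Upto N n := by
  constructor
  · intro hU
    rw [q1_ball hn hN]
    intro f hf hδ
    obtain ⟨L, hLc, hLd⟩ := TopologicalSpace.exists_countable_dense
      (EuclideanSpace ℂ (Fin n))
    have hd : ball (0 : EuclideanSpace ℂ (Fin n)) 1 ⊆ closure (L ∩ ball 0 1) := by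
      rw [inter_comm]
      exact hLd.open_subset_closure_inter isOpen_ball
    obtain ⟨h, h1, h2, A, h3⟩ := sol_bd hU (L := L ∩ ball 0 1)
      ⟨hLc.mono inter_subset_left, inter_subset_right⟩ inter_subset_right f ⟨hf, hδ⟩
    refine ⟨h, fun j => ⟨h1 j, A, fun z hz => ?_⟩, h2⟩
    have hc : ContinuousWithinAt (fun z => ‖h j z‖) (L ∩ ball 0 1) z :=
      (((h1 j).continuousOn.norm) z hz).mono inter_subset_right
    exact hc.closure_le (hd hz) continuousWithinAt_const fun y hy => h3 y hy j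
  · intro hQ δ hδ
    have h1 := ((complex_tfae (C₀ := C₀) hN hn hn le_rfl hβ0 hβ1).out 0 2).2 hQ
    obtain ⟨C, hC, h2⟩ := h1 δ hδ
    refine ⟨C, hC, fun f hf hb L hL M hM => ?_⟩
    have hid : ComplexGeod n (ball (0 : EuclideanSpace ℂ (Fin n)) 1) :=
      ⟨id, ⟨id, id, aut_id, LinearIsometry.id, fun _ => rfl⟩, by rw [image_id]⟩
    obtain ⟨h, hh⟩ := h2 f hf hb _ hid M hM
    exact ⟨h, hh.holo, hh.sol, fun z hz w hw => hh.dist z hz w (hL.2 hw), hh.seq⟩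

theorem result {n N : ℕ} (hn : 2 ≤ n) (hN : 1 ≤ N) :
    -- (A) one complex line (or point) and a sequence of thin sets in arbitrary position
    (∀ β C₀ : ℝ, 0 ≤ β → β < 1 → UniformGrowth N β C₀
      {L : Set (EuclideanSpace ℂ (Fin n)) | ∃ k ≤ 1, ComplexGeod k L}) ∧
    -- (B) extension from complex totally geodesic submanifolds of any dimension
    (∀ β C₀ : ℝ, 0 ≤ β → β < 1 → UniformExtension n N β C₀) ∧
    -- (C) one solution for a sequence of lines and thin sets which do not meet on the sphere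
    (∀ M : ℕ → Set (EuclideanSpace ℂ (Fin n)),
      (∀ i, ComplexGeod 1 (M i) ∨ ∃ β C₀ : ℝ, 0 ≤ β ∧ β < 1 ∧ Thin β C₀ (M i)) →
      (∀ i k, i ≠ k → closure (M i) ∩ closure (M k) ⊆ ball 0 1) → Simultaneous N M) ∧
    -- (D) complex totally geodesic submanifolds of higher dimension
    (∀ k, 2 ≤ k → k ≤ n → ∀ β C₀ : ℝ, 0 ≤ β → β < 1 → List.TFAE [
      UniformGrowth N β C₀ {L : Set (EuclideanSpace ℂ (Fin n)) | ComplexGeod k L},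
      ∃ L : Set (EuclideanSpace ℂ (Fin n)), ComplexGeod k L ∧ SomeBounded N L,
      Q1Upto N k]) ∧
    -- (E) open sets which contain arbitrarily large hyperbolic balls
    (∀ Ω : Set (EuclideanSpace ℂ (Fin n)), IsOpen Ω → Ω ⊆ ball 0 1 → Thick Ω →
      (SolvableOn N Ω ↔ Q1Upto N n)) ∧
    -- (F) countable sets without the logarithm of `k`
    ∀ β C₀ : ℝ, 0 ≤ β → β < 1 → (UniformGrowth N β C₀
      {L : Set (EuclideanSpace ℂ (Fin n)) | L.Countable ∧ L ⊆ ball 0 1} ↔ Q1Upto N n) :=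
  ⟨fun _ _ hβ0 hβ1 => low_growth N hn hβ0 hβ1, fun _ _ hβ0 hβ1 => extension N hn hβ0 hβ1,
    fun _ hM hd => simultaneous hn hM hd,
    fun _ hk hkn _ _ hβ0 hβ1 => complex_tfae hN hn hk hkn hβ0 hβ1,
    fun _ hΩ hΩ1 hR => thick_iff hn hN hΩ hΩ1 hR,
    fun _ _ hβ0 hβ1 => countable_iff hN hn hβ0 hβ1⟩

end Pool.Agent.Results.MP_ca0fc2_an.GeodesicTubes
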