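import Pool.Agent.Lib.MP_ca0fc2_an.Mg.G039
import Pool.Agent.Lib.MP_ca0fc2_an.LV.S5

/-!
# The corona problem on strictly pseudoconvex domains: data of dimension one modulo tame functions

Let `D` be a strictly pseudoconvex domain with smooth boundary in `ℂⁿ`, `n ≥ 2`.

For a ball `B` centred at a boundary point, a bounded holomorphic function `u` on `D ∩ B` is *tame*
(`TameOn D B`, file `GWDefs.lean`) in two cases:

* its invariant gradient satisfies a Carleson condition (`CarlOn D B`). This class contains all the
  functions `u = g ∘ Q`, where `Q` is a holomorphic map of `B` into `ℂᵏ`, for any `k`, with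
  `|Q| < 1` on `D ∩ B`, and `g` is a multiplier of the Drury-Arveson space of the unit ball of `ℂᵏ`
  (for `k = 1`, any bounded holomorphic function on the unit disc): `comp_carl` in `GW/I6.lean`;
* it oscillates slowly (`SlowLoc D B`): `d |∇ u| ≤ ω (d)`, where `d` is the distance to the
  complement of `D`, `ω (t) / t` is decreasing and `∫₀¹ exp (- c / ω (t)) dt / t` is finite for all
  `c > 0`. For instance, `ω (t) = 1 / (log log (1 / t))²` near `0`.

`HullOn E A` consists of the bounded holomorphic functions on `E` which are nearly constant on the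
connected components of the cells of finitely many functions in `A`.

The functions `q_1, ..., q_m` on `E` are *one-dimensional modulo `T`* (`OneDim E T q`, file
`GW/R15d.lean`) if they belong to the analytic closure of `HullOn E T` and of one arbitrary bounded
holomorphic function `F` on `E` (`AnalyticClosureOn E A` is the smallest closed algebra of bounded
holomorphic functions on `E` which contains `A` and, with its coefficients, each bounded holomorphic
`g` which satisfies an analytic equation `∑ aₖ gᵏ = 0` with coefficients in it which is nowhere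
degenerate, file `INDDefs.lean`), or if they belong to the closed algebra generated by `HullOn E T`
and by all the functions `g ∘ π`, `g` in `H^∞` of the unit disc, where `π` is an arbitrary holomorphic
map of `E` into the unit disc. The second case contains Carleson's corona theorem with parameters:
it is proved by a relative version of Wolff's proof (files `GW/R1.lean` to `GW/R13.lean`).

On each cell the data either have a range of small area (Ahlfors-Beurling estimate), or some
functions `∑_j f_j H_{ij} (f)`, with `H_{ij}` holomorphic near the closure of the range of `f`, are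
bounded below and near one-dimensional functions (for instance the functions `f_j` themselves).
-/

set_option autoImplicit false

open Metric Set
open Pool.Agent.Lib.MP_ca0fc2_an

namespace Pool.Agent.Results.MP_ca0fc2_an.TameOneDimensional

theorem result {n N : ℕ} (hn : 2 ≤ n) {D : Set (EuclideanSpace ℂ (Fin n))}
    (hD : IsStrictlyPscDomain D)
    {f : Fin N → EuclideanSpace ℂ (Fin n) → ℂ} (hf : ∀ j, IsHinf D (f j)) {δ : ℝ} (hδ : 0 < δ)
    (hfδ : ∀ z ∈ D, δ ≤ ∑ j, ‖f j z‖ ^ 2)
    (hloc : ∀ p ∈ frontier D, ∃ r > 0,
      ∃ (k : ℕ) (a : Fin k → EuclideanSpace ℂ (Fin n) → ℂ) (s : ℝ), 0 < s ∧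
      (∀ i, a i ∈ HullOn (D ∩ ball p r) (TameOn D (ball p r))) ∧
      ∀ c : Fin k → ℂ,
        ∑ j, MeasureTheory.volume (closure (f j '' cellOn (D ∩ ball p r) a c s)) <
          ENNReal.ofReal (Real.pi * δ) ∨
        ∃ (m : ℕ) (W : Set (Fin N → ℂ)) (H : Fin m → Fin N → (Fin N → ℂ) → ℂ) (δ' η : ℝ)
          (q : Fin m → EuclideanSpace ℂ (Fin n) → ℂ), IsOpen W ∧
          closure ((fun z j => f j z) '' cellOn (D ∩ ball p r) a c s) ⊆ W ∧
          (∀ i j, DifferentiableOn ℂ (H i j) W) ∧ 4 * m * η ^ 2 < δ' ∧
          OneDim (cellOn (D ∩ ball p r) a c s) (TameOn D (ball p r)) q ∧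
          (∀ z ∈ cellOn (D ∩ ball p r) a c s,
            δ' ≤ ∑ i, ‖∑ j, f j z * H i j (fun l => f l z)‖ ^ 2) ∧
          ∀ i, ∀ z ∈ cellOn (D ∩ ball p r) a c s,
            ‖∑ j, f j z * H i j (fun l => f l z) - q i z‖ ≤ η) :
    ∃ h : Fin N → EuclideanSpace ℂ (Fin n) → ℂ, (∀ j, IsHinf D (h j)) ∧
      ∀ z ∈ D, ∑ j, f j z * h j z = 1 := by
  obtain ⟨U, ρ, h, c, hs, hρ⟩ := Pool.Agent.MPca0fc2.LV.support_of_domain hD
  have hρ3 : ContDiffOn ℝ 3 ρ U := hρ.of_le (by exact WithTop.coe_le_coe.2 le_top)
  obtain ⟨C, g, hg, hgC, hg1⟩ := Pool.Agent.MPca0fc2.GW.spideal hn hs hρ3 hf hδ hfδ (by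
    intro p hp
    obtain ⟨r, hr, k, a, s, hs0, ha, hcell⟩ := hloc p hp
    refine ⟨r, hr, k, a, s, hs0, ha, fun c => ?_⟩
    rcases hcell c with h1 | ⟨m, W, H, δ', η, q, hW, hWc, hH, hη, hq, hδ', hfq⟩
    · exact Or.inl h1
    · refine Or.inr ⟨m, δ', η, fun i j z => H i j (fun l => f l z), q, hη, fun i j => ?_, hq, hδ',
        hfq⟩
      have hsub : cellOn (D ∩ ball p r) a c s ⊆ D := fun z hz => hz.1.1
      have hm : ∀ z ∈ cellOn (D ∩ ball p r) a c s,
          (fun l => f l z) ∈ closure ((fun z j => f j z) '' cellOn (D ∩ ball p r) a c s) :=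
        fun z hz => subset_closure ⟨z, hz, rfl⟩
      constructor
      · refine (hH i j).comp (t := W) ?_ fun z hz => hWc (hm z hz)
        exact differentiableOn_pi.2 fun l => (hf l).1.mono hsub
      · have hK : IsCompact (closure ((fun z j => f j z) '' cellOn (D ∩ ball p r) a c s)) := by
          apply Bornology.IsBounded.isCompact_closure
          choose M hM using fun j => (hf j).2
          refine (isBounded_iff_forall_norm_le).2 ⟨∑ j, |M j|, ?_⟩
          rintro _ ⟨z, hz, rfl⟩
          refine (pi_norm_le_iff_of_nonneg (Finset.sum_nonneg fun j _ => abs_nonneg _)).2 fun j => ?_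
          exact (hM j z (hsub hz)).trans ((le_abs_self _).trans
            (Finset.single_le_sum (f := fun j => |M j|) (fun _ _ => abs_nonneg _)
              (Finset.mem_univ j)))
        obtain ⟨M, hM⟩ := hK.exists_bound_of_continuousOn ((hH i j).continuousOn.mono hWc)
        exact ⟨M, fun z hz => hM _ (hm z hz)⟩)
  exact ⟨g, fun j => ⟨hg j, C, hgC j⟩, hg1⟩

end Pool.Agent.Results.MP_ca0fc2_an.TameOneDimensional
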